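import Pool.Agent.Helper27.LCY.PGb

/-!
Projective changes of coordinates: degrees.
-/

open Polynomial

namespace LCY

namespace H27

noncomputable section

open H62

variable {L : Type} [Field L] [Algebra ℂ L]

theorem tdeg_mul (S : Coord L) {f g : ℂ[X][X]} (hf : f ≠ 0) (hg : g ≠ 0) :
    tdeg (f * g) = tdeg f + tdeg g := by
  have h := isInf_inf S
  have h1 := h (f * g) (mul_ne_zero hf hg)
  rw [map_mul, S.inf.map_mul _ _ (S.ne hf) (S.ne hg), h f hf, h g hg] at h1
  omega

theorem tdeg_zero_const {f : ℂ[X][X]} (h : tdeg f = 0) : f = C (C (cf f (0, 0))) := by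
  apply cf_ext
  rintro ⟨i, j⟩
  by_cases hij : i = 0 ∧ j = 0
  · obtain ⟨rfl, rfl⟩ := hij
    simp [cf]
  · have h1 : cf f (i, j) = 0 := by
      by_contra hne
      have := le_tdeg hne
      dsimp only at this
      omega
    rw [h1]
    have h2 : cf (C (C (cf f (0, 0)))) (i, j) = 0 := by
      by_contra hne
      have := td_CC _ _ hne
      dsimp only at this
      omega
    exact h2.symm

theorem isUnit_of_tdeg {f : ℂ[X][X]} (hf : f ≠ 0) (h : tdeg f = 0) : IsUnit f := by
  have h1 := tdeg_zero_const h
  have h2 : cf f (0, 0) ≠ 0 := by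
    intro h0
    rw [h0, map_zero, map_zero] at h1
    exact hf h1
  rw [h1]
  exact ((isUnit_iff_ne_zero.2 h2).map C).map C

theorem tdeg_of_isUnit (S : Coord L) {f : ℂ[X][X]} (h : IsUnit f) : tdeg f = 0 := by
  obtain ⟨g, hg⟩ := h.exists_right_inv
  have h1 := tdeg_mul S h.ne_zero (right_ne_zero_of_mul (a := f) (by rw [hg]; exact one_ne_zero))
  rw [hg] at h1
  have h2 : tdeg (1 : ℂ[X][X]) = 0 := Nat.le_zero.1 (tdeg_le td_one)
  omega

theorem tdeg_le_of_dvd (S : Coord L) {f g : ℂ[X][X]} (hg : g ≠ 0) (h : f ∣ g) :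
    tdeg f ≤ tdeg g := by
  obtain ⟨k, rfl⟩ := h
  rw [tdeg_mul S (left_ne_zero_of_mul hg) (right_ne_zero_of_mul hg)]
  omega

/-- An irreducible polynomial has positive degree. -/
theorem one_le_tdeg {g : ℂ[X][X]} (hg : Irreducible g) : 1 ≤ tdeg g := by
  by_contra h
  exact hg.not_isUnit (isUnit_of_tdeg hg.ne_zero (by omega))

/-- A polynomial of degree one is irreducible. -/
theorem irred_of_tdeg_one (S : Coord L) {f : ℂ[X][X]} (h : tdeg f = 1) : Irreducible f := by
  have hf0 : f ≠ 0 := by
    rintro rfl
    simp [tdeg, bs] at h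
  constructor
  · intro hu
    rw [tdeg_of_isUnit S hu] at h
    exact zero_ne_one h
  · intro a b hab
    rw [hab] at hf0
    have ha := left_ne_zero_of_mul hf0
    have hb := right_ne_zero_of_mul hf0
    rw [hab, tdeg_mul S ha hb] at h
    rcases Nat.eq_zero_or_pos (tdeg a) with h1 | h1
    · exact Or.inl (isUnit_of_tdeg ha h1)
    · exact Or.inr (isUnit_of_tdeg hb (by omega))

/-- `v` is a curve of degree `d` of the plane. -/
def PC (S : Coord L) (v : DVal L) (d : ℕ) : Prop :=
  (IsInf S v ∧ d = 1) ∨ ∃ g, IsAdic S g v ∧ tdeg g = d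

theorem adic_self {S : Coord L} {g : ℂ[X][X]} {v : DVal L} (h : IsAdic S g v) :
    v.v (ev S.x S.y g) = 1 := by
  have h1 := h.2 1 1 (fun hd => h.1.not_isUnit (isUnit_of_dvd_one hd))
  rw [pow_one, mul_one] at h1
  rw [h1]
  rfl

theorem adic_zero {S : Coord L} {g : ℂ[X][X]} {v : DVal L} (h : IsAdic S g v) {f : ℂ[X][X]}
    (hf : ¬ g ∣ f) : v.v (ev S.x S.y f) = 0 := by
  have h1 := h.2 0 f hf
  rw [pow_zero, one_mul] at h1
  rw [h1]
  rfl

theorem not_inf_adic {S : Coord L} {g : ℂ[X][X]} {v : DVal L} (h : IsAdic S g v)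
    (h' : IsInf S v) : False := by
  have h1 := adic_self h
  rw [h' g h.1.ne_zero] at h1
  omega

theorem adic_unique (S : Coord L) {g g' : ℂ[X][X]} {v : DVal L} (h : IsAdic S g v)
    (h' : IsAdic S g' v) : tdeg g = tdeg g' := by
  have h1 : g ∣ g' := by
    by_contra hc
    have h1 := adic_zero h hc
    rw [adic_self h'] at h1
    omega
  have h2 : g' ∣ g := by
    by_contra hc
    have h1 := adic_zero h' hc
    rw [adic_self h] at h1
    omega
  exact le_antisymm (tdeg_le_of_dvd S h'.1.ne_zero h1) (tdeg_le_of_dvd S h.1.ne_zero h2)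

theorem deg_of_adic {S : Coord L} {g : ℂ[X][X]} {v : DVal L} (h : IsAdic S g v) :
    deg S v = tdeg g := by
  unfold deg
  rw [if_neg (fun h' => not_inf_adic h h')]
  have h1 : {n : ℕ | ∃ g : ℂ[X][X], IsAdic S g v ∧ tdeg g = n} = {tdeg g} := by
    ext n
    constructor
    · rintro ⟨g', hg', rfl⟩
      exact adic_unique S hg' h
    · intro hn
      rw [Set.mem_singleton_iff] at hn
      exact ⟨g, h, hn.symm⟩
  rw [h1]
  simp

theorem deg_of_inf {S : Coord L} {v : DVal L} (h : IsInf S v) : deg S v = 1 := by
  unfold deg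
  rw [if_pos h]

theorem deg_of_PC {S : Coord L} {v : DVal L} {d : ℕ} (h : PC S v d) : deg S v = d := by
  rcases h with ⟨h, rfl⟩ | ⟨g, h, rfl⟩
  · rw [deg_of_inf h]; rfl
  · exact deg_of_adic h

theorem deg_of_not {S : Coord L} {v : DVal L} (h : ∀ d, ¬ PC S v d) : deg S v = 0 := by
  unfold deg
  rw [if_neg (fun h' => h 1 (Or.inl ⟨h', rfl⟩))]
  have h1 : {n : ℕ | ∃ g : ℂ[X][X], IsAdic S g v ∧ tdeg g = n} = ∅ := by
    ext n
    simp only [Set.mem_setOf_eq, Set.mem_empty_iff_false, iff_false]
    intro h2
    exact h n (Or.inr h2)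
  rw [h1]
  simp

/-- Curves of the plane are preserved by projective changes. -/
theorem PC_step {S S' : Coord L} {A : Matrix (Fin 3) (Fin 3) ℂ} (h : PR S S' A)
    (hdet : A.det ≠ 0) {v : DVal L} {d : ℕ} (hv : PC S v d) : PC S' v d := by
  have hu : IsUnit A.det := isUnit_iff_ne_zero.2 hdet
  have hAB : A * A⁻¹ = 1 := Matrix.mul_nonsing_inv A hu
  have hBA : A⁻¹ * A = 1 := Matrix.nonsing_inv_mul A hu
  have hdetB : (A⁻¹).det ≠ 0 := by
    intro h0
    have := congrArg Matrix.det hAB
    rw [Matrix.det_mul, h0, mul_zero, Matrix.det_one] at this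
    exact zero_ne_one this
  set B := A⁻¹ with hB
  have hA0 : A 0 ≠ 0 := row_ne hdet 0
  have hB0 : B 0 ≠ 0 := row_ne hdetB 0
  have hl0 : LCY.lin S (A 0) ≠ 0 := lin_ne S hA0
  -- the value of a polynomial in the new coordinates
  have hval' : ∀ (n : ℕ) (F : ℂ[X][X]), TD n F → F ≠ 0 →
      v.v (ev S'.x S'.y F) = v.v (ev S.x S.y (HS n A F)) - n * v.v (LCY.lin S (A 0)) := by
    intro n F hF hF0
    have h1 := h.ev hA0 hF
    rw [h1, v.map_mul _ _ (pow_ne_zero _ hl0) (S'.ne hF0), v.map_pow hl0]
    ring
  have hℓ : LCY.lin S (A 0) = ev S.x S.y (lpol (A 0)) := (ev_lpol S _).symm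
  have hℓ0 : lpol (A 0) ≠ 0 := lpol_ne hA0
  have hℓ1 : TD 1 (lpol (A 0)) := td_lpol _
  have hone : HS 1 B (lpol (A 0)) = 1 := by
    have h1 := HS_one 1 A S hA0
    rw [pow_one] at h1
    rw [← h1]
    exact HS_HS S hAB (td_one.mono (Nat.zero_le 1))
  rcases hv with ⟨hv, rfl⟩ | ⟨g, hv, rfl⟩
  · -- the line at infinity
    have hvl : v.v (LCY.lin S (A 0)) = -(tdeg (lpol (A 0)) : ℤ) := by rw [hℓ, hv _ hℓ0]
    by_cases hc : tdeg (lpol (A 0)) = 0
    · -- affine change
      left
      refine ⟨?_, rfl⟩
      intro F hF0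
      rw [hval' (tdeg F) F (td_tdeg F) hF0, hvl, hc, hv _ (HS_ne S hAB (td_tdeg F) hF0)]
      have h1 : tdeg (HS (tdeg F) A F) = tdeg F := by
        apply le_antisymm (tdeg_le (td_HS (td_tdeg F)))
        -- `F = HS n B G` with `G = HS n A F` and `lpol (B 0)` constant
        have h2 : HS (tdeg F) B (HS (tdeg F) A F) = F := HS_HS S hAB (td_tdeg F)
        have h3 := HS_drop S hB0 (td_tdeg (HS (tdeg F) A F)) (tdeg_le (td_HS (td_tdeg F)))
        rw [h2] at h3
        have h4 : tdeg (lpol (B 0)) = 0 := by
          -- `lpol (A 0)` is a constant `c`, so `1 = HS 1 B c = c * lpol (B 0)`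
          have h5 := tdeg_zero_const hc
          rw [h5, HS_const 1 B S hB0, pow_one] at hone
          exact tdeg_of_isUnit S (IsUnit.of_mul_eq_one_right _ hone)
        have h5 : tdeg F ≤ tdeg (HS (tdeg F) A F) := by
          have h6 : TD (tdeg (HS (tdeg F) A F)) F := by
            have h7 := td_mul (td_HS (A := B) (td_tdeg (HS (tdeg F) A F)))
              (td_pow (td_tdeg (lpol (B 0))) (tdeg F - tdeg (HS (tdeg F) A F)))
            rw [← h3, h4, mul_zero, add_zero] at h7
            exact h7
          exact tdeg_le h6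
        exact h5
      rw [h1]
      simp
    · -- the line at infinity becomes an affine line
      have hc1 : tdeg (lpol (A 0)) = 1 := by
        have := tdeg_le hℓ1
        omega
      right
      have hB1 : tdeg (lpol (B 0)) = 1 := by
        have h1 := tdeg_le (td_lpol (B 0))
        rcases Nat.eq_zero_or_pos (tdeg (lpol (B 0))) with h2 | h2
        · exfalso
          apply hc
          have h3 : HS 1 A (lpol (B 0)) = 1 := by
            have h1 := HS_one 1 B S hB0
            rw [pow_one] at h1
            rw [← h1]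
            exact HS_HS S hBA (td_one.mono (Nat.zero_le 1))
          rw [tdeg_zero_const h2, HS_const 1 A S hA0, pow_one] at h3
          exact tdeg_of_isUnit S (IsUnit.of_mul_eq_one_right _ h3)
        · omega
      refine ⟨lpol (B 0), ⟨irred_of_tdeg_one S hB1, ?_⟩, hB1⟩
      intro n F hF
      have hF0 : F ≠ 0 := by
        rintro rfl
        exact hF (dvd_zero _)
      have hvB : v.v (ev S'.x S'.y (lpol (B 0))) = 1 := by
        have h3 : HS 1 A (lpol (B 0)) = 1 := by
          have h1 := HS_one 1 B S hB0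
          rw [pow_one] at h1
          rw [← h1]
          exact HS_HS S hBA (td_one.mono (Nat.zero_le 1))
        rw [hval' 1 _ (td_lpol _) (lpol_ne hB0), h3, map_one, v.map_one, hvl, hc1]
        norm_num
      have hvF : v.v (ev S'.x S'.y F) = 0 := by
        rw [hval' (tdeg F) F (td_tdeg F) hF0, hvl, hc1, hv _ (HS_ne S hAB (td_tdeg F) hF0)]
        have h1 : tdeg (HS (tdeg F) A F) = tdeg F := by
          by_contra hne
          have h2 := tdeg_le (td_HS (A := A) (td_tdeg F))
          have h3 : TD (tdeg F - 1) (HS (tdeg F) A F) := (td_tdeg _).mono (by omega)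
          have h4 := HS_drop S hB0 h3 (Nat.sub_le (tdeg F) 1)
          rw [HS_HS S hAB (td_tdeg F)] at h4
          apply hF
          rw [h4]
          have h5 : tdeg F - (tdeg F - 1) = 1 := by omega
          rw [h5, pow_one]
          exact dvd_mul_left _ _
        rw [h1]
        simp
      rw [map_mul, map_pow, v.map_mul _ _ (pow_ne_zero _ (S'.ne (lpol_ne hB0))) (S'.ne hF0),
        v.map_pow (S'.ne (lpol_ne hB0)), hvB, hvF]
      ring
  · -- an affine curve
    have hg := hv.1
    have hg0 := hg.ne_zero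
    have hgp : Prime g := hg.prime
    have hd := one_le_tdeg hg
    by_cases hgl : g ∣ lpol (A 0)
    · -- it becomes the line at infinity
      left
      have hvl : v.v (LCY.lin S (A 0)) = 1 := by
        obtain ⟨k, hk⟩ := hgl
        have hk0 : k ≠ 0 := by
          rintro rfl
          rw [mul_zero] at hk
          exact hℓ0 hk
        have h1 := tdeg_mul S hg0 hk0
        rw [← hk] at h1
        have h2 := tdeg_le hℓ1
        have h3 := isUnit_of_tdeg hk0 (by omega)
        have h4 : ¬ g ∣ k := fun h5 => hg.not_isUnit (isUnit_of_dvd_unit h5 h3)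
        have h6 := hv.2 1 k h4
        rw [pow_one, ← hk] at h6
        rw [hℓ, h6]
        rfl
      refine ⟨?_, ?_⟩
      · intro F hF0
        rw [hval' (tdeg F) F (td_tdeg F) hF0, hvl]
        have h1 : ¬ g ∣ HS (tdeg F) A F := by
          intro hdv
          -- then `lpol (A 0)` divides as well
          have h2 : lpol (A 0) ∣ HS (tdeg F) A F := by
            obtain ⟨k, hk⟩ := hgl
            have hk0 : k ≠ 0 := by
              rintro rfl
              rw [mul_zero] at hk
              exact hℓ0 hk
            have h1 := tdeg_mul S hg0 hk0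
            rw [← hk] at h1
            have h2 := tdeg_le hℓ1
            have h3 := isUnit_of_tdeg hk0 (by omega)
            rw [hk]
            exact (h3.dvd_mul_right.2 hdv) |> fun _ => by
              obtain ⟨w, hw⟩ := hdv
              obtain ⟨k', hk'⟩ := h3.exists_right_inv
              exact ⟨k' * w, by rw [hw]; linear_combination (-(g * w)) * hk'⟩
          obtain ⟨w, hw⟩ := h2
          have hHne := HS_ne S hAB (td_tdeg F) hF0
          have hw0 : w ≠ 0 := by
            rintro rfl
            rw [mul_zero] at hw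
            exact hHne hw
          have h3 := tdeg_mul S hℓ0 hw0
          rw [← hw] at h3
          have h4 := tdeg_le (td_HS (A := A) (td_tdeg F))
          have h5 : 1 ≤ tdeg (lpol (A 0)) := by
            have := tdeg_le_of_dvd S hℓ0 hgl
            omega
          have h6 : TD (tdeg F - 1) w := (td_tdeg w).mono (by omega)
          have h7 := HS_mul S hB0 hℓ1 h6
          rw [hone, one_mul, ← hw] at h7
          have h8 : 1 + (tdeg F - 1) = tdeg F := by omega
          rw [h8, HS_HS S hAB (td_tdeg F)] at h7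
          have h9 := tdeg_le (td_HS (A := B) h6)
          rw [← h7] at h9
          omega
        rw [adic_zero hv h1]
        ring
      · have := tdeg_le_of_dvd S hℓ0 hgl
        have h2 := tdeg_le hℓ1
        omega
    · -- it remains an affine curve
      right
      have hvl : v.v (LCY.lin S (A 0)) = 0 := by rw [hℓ, adic_zero hv hgl]
      set g' := HS (tdeg g) B g with hg'
      have hg'0 : g' ≠ 0 := HS_ne S hBA (td_tdeg g) hg0
      have hback : HS (tdeg g) A g' = g := HS_HS S hBA (td_tdeg g)
      have htd' : TD (tdeg g) g' := td_HS (td_tdeg g)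
      -- the basic divisibility
      have key : ∀ (n : ℕ) (F : ℂ[X][X]), TD n F → F ≠ 0 → g ∣ HS n A F → g' ∣ F := by
        intro n F hF hF0 hdv
        obtain ⟨w, hw⟩ := hdv
        have hHne := HS_ne S hAB hF hF0
        have hw0 : w ≠ 0 := by
          rintro rfl
          rw [mul_zero] at hw
          exact hHne hw
        have h3 := tdeg_mul S hg0 hw0
        rw [← hw] at h3
        have h4 := tdeg_le (td_HS (A := A) hF)
        have h6 : TD (n - tdeg g) w := (td_tdeg w).mono (by omega)
        have h7 := HS_mul S hB0 (td_tdeg g) h6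
        have h8 : tdeg g + (n - tdeg g) = n := by omega
        rw [h8, ← hw, HS_HS S hAB hF] at h7
        exact ⟨_, h7⟩
      have hirr : Irreducible g' := by
        constructor
        · intro hu'
          have h1 := tdeg_of_isUnit S hu'
          have h2 := tdeg_zero_const h1
          rw [h2, HS_const _ _ S hA0] at hback
          have h3 : g ∣ C (C (cf g' (0, 0))) * lpol (A 0) ^ tdeg g := by rw [hback]
          rcases hgp.dvd_or_dvd h3 with h4 | h4
          · rw [← h2] at h4
            exact hg.not_isUnit (isUnit_of_dvd_unit h4 hu')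
          · exact hgl (hgp.dvd_of_dvd_pow h4)
        · intro a b hab
          have ha0 : a ≠ 0 := by
            rintro rfl
            rw [zero_mul] at hab
            exact hg'0 hab
          have hb0 : b ≠ 0 := by
            rintro rfl
            rw [mul_zero] at hab
            exact hg'0 hab
          have h1 := tdeg_mul S ha0 hb0
          rw [← hab] at h1
          have h2 := tdeg_le htd'
          have h3 : TD (tdeg g - tdeg a) b := (td_tdeg b).mono (by omega)
          have h4 := HS_mul S hA0 (td_tdeg a) h3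
          have h5 : tdeg a + (tdeg g - tdeg a) = tdeg g := by omega
          rw [h5, ← hab, hback] at h4
          have h6 : g ∣ HS (tdeg a) A a * HS (tdeg g - tdeg a) A b := dvd_of_eq h4
          rcases hgp.dvd_or_dvd h6 with h7 | h7
          · right
            have h8 := tdeg_le_of_dvd S (HS_ne S hAB (td_tdeg a) ha0) h7
            have h9 := tdeg_le (td_HS (A := A) (td_tdeg a))
            exact isUnit_of_tdeg hb0 (by omega)
          · left
            rw [HS_drop S hA0 (td_tdeg b) (by omega)] at h7
            rcases hgp.dvd_or_dvd h7 with h8 | h8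
            · have h10 := tdeg_le_of_dvd S (HS_ne S hAB (td_tdeg b) hb0) h8
              have h9 := tdeg_le (td_HS (A := A) (td_tdeg b))
              exact isUnit_of_tdeg ha0 (by omega)
            · exact absurd (hgp.dvd_of_dvd_pow h8) hgl
      have hdeg : tdeg g' = tdeg g := by
        apply le_antisymm (tdeg_le htd')
        have h1 := HS_drop S hA0 (td_tdeg g') (tdeg_le htd')
        rw [hback] at h1
        have h2 : g ∣ HS (tdeg g') A g' * lpol (A 0) ^ (tdeg g - tdeg g') := dvd_of_eq h1
        rcases hgp.dvd_or_dvd h2 with h3 | h3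
        · have h4 := tdeg_le_of_dvd S (HS_ne S hAB (td_tdeg g') hg'0) h3
          exact h4.trans (tdeg_le (td_HS (td_tdeg g')))
        · exact absurd (hgp.dvd_of_dvd_pow h3) hgl
      refine ⟨g', ⟨hirr, ?_⟩, hdeg⟩
      intro n F hF
      have hF0 : F ≠ 0 := by
        rintro rfl
        exact hF (dvd_zero _)
      have hv1 : v.v (ev S'.x S'.y g') = 1 := by
        rw [hval' (tdeg g) g' htd' hg'0, hback, hvl, adic_self hv]
        ring
      have hv2 : v.v (ev S'.x S'.y F) = 0 := by
        rw [hval' (tdeg F) F (td_tdeg F) hF0, hvl,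
          adic_zero hv (fun hdv => hF (key _ F (td_tdeg F) hF0 hdv))]
        ring
      rw [map_mul, map_pow, v.map_mul _ _ (pow_ne_zero _ (S'.ne hg'0)) (S'.ne hF0),
        v.map_pow (S'.ne hg'0), hv1, hv2]
      ring

theorem deg_eq {S S' : Coord L} {A : Matrix (Fin 3) (Fin 3) ℂ} (h : PR S S' A)
    (hdet : A.det ≠ 0) (v : DVal L) : deg S' v = deg S v := by
  have hdetB : (A⁻¹).det ≠ 0 := by
    have hu : IsUnit A.det := isUnit_iff_ne_zero.2 hdet
    intro h0
    have := congrArg Matrix.det (Matrix.mul_nonsing_inv A hu)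
    rw [Matrix.det_mul, h0, mul_zero, Matrix.det_one] at this
    exact zero_ne_one this
  by_cases hex : ∃ d, PC S v d
  · obtain ⟨d, hd⟩ := hex
    rw [deg_of_PC hd, deg_of_PC (PC_step h hdet hd)]
  · push Not at hex
    rw [deg_of_not hex, deg_of_not (fun d hd => hex d (PC_step (h.symm hdet) hdetB hd))]

theorem st_PG : ST_PG := by
  intro L _ _ S A hdet
  obtain ⟨S', h⟩ := exists_PR S hdet
  exact ⟨S', h.1, h.2, plane_eq h hdet, deg_eq h hdet⟩

end

end H27

end LCY
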