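import Pool.Agent.Helper27.LCY.BR1

namespace LCY

noncomputable section

open KaehlerDifferential

section general

variable {L : Type} [Field L] [Algebra ℂ L]

/-- The elements whose differential lies in `W`. -/
def dField (W : Submodule L (Ω[L⁄ℂ])) : IntermediateField ℂ L where
  carrier := {a | D ℂ L a ∈ W}
  mul_mem' := by
    intro a b ha hb
    change D ℂ L (a * b) ∈ W
    rw [Derivation.leibniz]
    exact W.add_mem (W.smul_mem _ hb) (W.smul_mem _ ha)
  add_mem' := by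
    intro a b ha hb
    change D ℂ L (a + b) ∈ W
    rw [map_add]
    exact W.add_mem ha hb
  algebraMap_mem' := by
    intro c
    change D ℂ L (algebraMap ℂ L c) ∈ W
    rw [Derivation.map_algebraMap]
    exact W.zero_mem
  inv_mem' := by
    intro a ha
    change D ℂ L a⁻¹ ∈ W
    rw [Derivation.leibniz_inv]
    exact W.smul_mem _ ha

theorem dField_closed (W : Submodule L (Ω[L⁄ℂ])) (a : L)
    (ha : IsAlgebraic (dField W) a) : a ∈ dField W := by
  have hint : IsIntegral (dField W) a := ha.isIntegral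
  have h0 := minpoly.aeval (dField W) a
  have hsep : (minpoly (dField W) a).Separable := (minpoly.irreducible hint).separable
  have hder : Polynomial.aeval a (Polynomial.derivative (minpoly (dField W) a)) ≠ 0 :=
    hsep.aeval_derivative_ne_zero h0
  -- the formula for the differential
  have key : ∀ p : Polynomial (dField W), ∃ w ∈ W, D ℂ L (Polynomial.aeval a p) =
      w + Polynomial.aeval a (Polynomial.derivative p) • D ℂ L a := by
    intro p
    induction p using Polynomial.induction_on' with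
    | add p q hp hq =>
      obtain ⟨w, hw, h1⟩ := hp
      obtain ⟨w', hw', h2⟩ := hq
      refine ⟨w + w', W.add_mem hw hw', ?_⟩
      rw [map_add, map_add, h1, h2, Polynomial.derivative_add, map_add, add_smul]
      abel
    | monomial n c =>
      refine ⟨(a ^ n) • D ℂ L (c : L), W.smul_mem _ c.2, ?_⟩
      rw [Polynomial.aeval_monomial, Derivation.leibniz, Derivation.leibniz_pow,
        Polynomial.derivative_monomial, Polynomial.aeval_monomial]
      have h3 : algebraMap (dField W) L c = (c : L) := rfl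
      have h4 : algebraMap (dField W) L (c * (n : dField W)) = (c : L) * (n : L) := by
        rw [map_mul, map_natCast]
        rfl
      rw [h3, h4, add_comm]
      congr 1
      rw [← Nat.cast_smul_eq_nsmul L n, smul_smul, smul_smul]
      try congr 1
      try ring
  obtain ⟨w, hw, h1⟩ := key (minpoly (dField W) a)
  rw [h0, map_zero] at h1
  have h2 : D ℂ L a = -((Polynomial.aeval a (Polynomial.derivative (minpoly (dField W) a)))⁻¹ • w) := by
    have h3 : Polynomial.aeval a (Polynomial.derivative (minpoly (dField W) a)) • D ℂ L a = -w :=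
      (neg_eq_of_add_eq_zero_right h1.symm).symm
    rw [← smul_neg, ← h3, smul_smul, inv_mul_cancel₀ hder, one_smul]
  change D ℂ L a ∈ W
  rw [h2]
  exact W.neg_mem (W.smul_mem _ hw)

/-- Two algebraically independent functions span the differentials in transcendence degree
two. -/
theorem span_of_indep (h : Algebra.trdeg ℂ L = 2) {t₁ t₂ : L}
    (ht : AlgebraicIndependent ℂ ![t₁, t₂]) :
    Submodule.span L {D ℂ L t₁, D ℂ L t₂} = ⊤ := by
  have hb : IsTranscendenceBasis ℂ ![t₁, t₂] :=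
    ht.isTranscendenceBasis_of_trdeg_le_of_finite (by rw [h]; simp)
  have halg := hb.isAlgebraic_field
  set W : Submodule L (Ω[L⁄ℂ]) := Submodule.span L {D ℂ L t₁, D ℂ L t₂} with hW
  have h1 : IntermediateField.adjoin ℂ (Set.range ![t₁, t₂]) ≤ dField W := by
    rw [IntermediateField.adjoin_le_iff]
    rintro _ ⟨i, rfl⟩
    fin_cases i
    · exact Submodule.subset_span (by simp)
    · exact Submodule.subset_span (by simp)
  have h2 : dField W = ⊤ := by
    rw [eq_top_iff]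
    intro a _
    apply dField_closed
    have h3 : IsAlgebraic (IntermediateField.adjoin ℂ (Set.range ![t₁, t₂])) a := halg.1 a
    obtain ⟨p, hp, hp0⟩ := h3
    refine ⟨p.map (IntermediateField.inclusion h1).toRingHom, ?_, ?_⟩
    · exact (Polynomial.map_ne_zero_iff (IntermediateField.inclusion h1).toRingHom.injective).2 hp
    · rw [Polynomial.aeval_def, Polynomial.eval₂_map]
      exact hp0
  rw [eq_top_iff, ← KaehlerDifferential.span_range_derivation, Submodule.span_le]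
  rintro _ ⟨a, rfl⟩
  have : a ∈ dField W := by rw [h2]; trivial
  exact this

/-- The 2-form `da ∧ db`. -/
def wdg (a b : L) : ⋀[L]^2 (Ω[L⁄ℂ]) := exteriorPower.ιMulti L 2 ![D ℂ L a, D ℂ L b]

theorem exists_smul_wdg (h : Algebra.trdeg ℂ L = 2) {t₁ t₂ : L}
    (ht : AlgebraicIndependent ℂ ![t₁, t₂]) (ω : ⋀[L]^2 (Ω[L⁄ℂ])) : ∃ c : L, ω = c • wdg t₁ t₂ := by
  have h1 := exteriorPower.ιMulti_span_of_span (R := L) (n := 2) (hs := span_of_indep h ht)
  have h2 : ω ∈ Submodule.span L ((exteriorPower.ιMulti L 2 : (Ω[L⁄ℂ]) [⋀^Fin 2]→ₗ[L] _) ''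
      {a | Set.range a ⊆ {D ℂ L t₁, D ℂ L t₂}}) := by rw [h1]; trivial
  induction h2 using Submodule.span_induction with
  | mem x hx =>
    obtain ⟨a, ha, rfl⟩ := hx
    have ha0 := ha ⟨0, rfl⟩
    have ha1 := ha ⟨1, rfl⟩
    have ha' : a = ![a 0, a 1] := by ext i; fin_cases i <;> rfl
    simp only [Set.mem_insert_iff, Set.mem_singleton_iff] at ha0 ha1
    rcases ha0 with ha0 | ha0 <;> rcases ha1 with ha1 | ha1
    · refine ⟨0, ?_⟩
      rw [zero_smul]
      exact AlternatingMap.map_eq_zero_of_eq _ _ (ha0.trans ha1.symm) (by decide)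
    · refine ⟨1, ?_⟩
      rw [one_smul, ha', ha0, ha1]
      rfl
    · refine ⟨-1, ?_⟩
      have e1 : (-1 : L) • wdg t₁ t₂ = - wdg t₁ t₂ := by
        have := neg_smul (1 : L) (wdg t₁ t₂)
        rw [one_smul] at this
        exact this
      rw [e1, ha', ha0, ha1, wdg]
      have := AlternatingMap.map_swap (exteriorPower.ιMulti L 2 : (Ω[L⁄ℂ]) [⋀^Fin 2]→ₗ[L] _)
        ![D ℂ L t₁, D ℂ L t₂] (i := 0) (j := 1) (by decide)
      rw [← this]
      congr 1
      ext i
      fin_cases i <;> rfl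
    · refine ⟨0, ?_⟩
      rw [zero_smul]
      exact AlternatingMap.map_eq_zero_of_eq _ _ (ha0.trans ha1.symm) (by decide)
  | zero => exact ⟨0, (zero_smul _ _).symm⟩
  | add x y _ _ hx hy =>
    obtain ⟨c, rfl⟩ := hx
    obtain ⟨d, rfl⟩ := hy
    exact ⟨c + d, (add_smul _ _ _).symm⟩
  | smul r x _ hx =>
    obtain ⟨c, rfl⟩ := hx
    exact ⟨r * c, smul_smul _ _ _⟩

theorem exists_indep (h : Algebra.trdeg ℂ L = 2) : ∃ t₁ t₂ : L, AlgebraicIndependent ℂ ![t₁, t₂] := by
  obtain ⟨ι, x, hx⟩ := exists_isTranscendenceBasis' ℂ L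
  have h1 : Cardinal.mk ι = 2 := by rw [← h, hx.cardinalMk_eq_trdeg]
  rw [Cardinal.mk_eq_two_iff] at h1
  obtain ⟨i, j, hij, -⟩ := h1
  refine ⟨x i, x j, ?_⟩
  have h2 := hx.1.comp ![i, j] (by
    intro a b hab
    fin_cases a <;> fin_cases b <;> simp_all [eq_comm])
  convert h2 using 1
  ext a
  fin_cases a <;> rfl

theorem exists_smul (h : Algebra.trdeg ℂ L = 2) {ω : ⋀[L]^2 (Ω[L⁄ℂ])} (hω : ω ≠ 0)
    (η : ⋀[L]^2 (Ω[L⁄ℂ])) : ∃ c : L, η = c • ω := by
  obtain ⟨t₁, t₂, ht⟩ := exists_indep h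
  obtain ⟨c, rfl⟩ := exists_smul_wdg h ht ω
  obtain ⟨d, rfl⟩ := exists_smul_wdg h ht η
  have hc : c ≠ 0 := by
    rintro rfl
    exact hω (zero_smul _ _)
  exact ⟨d / c, by rw [smul_smul, div_mul_cancel₀ _ hc]⟩

theorem wdg_ne_zero (h : Algebra.trdeg ℂ L = 2) {ω : ⋀[L]^2 (Ω[L⁄ℂ])} (hω : ω ≠ 0) {t₁ t₂ : L}
    (ht : AlgebraicIndependent ℂ ![t₁, t₂]) : wdg t₁ t₂ ≠ 0 := by
  intro h0
  obtain ⟨c, rfl⟩ := exists_smul_wdg h ht ω
  rw [h0, smul_zero] at hω
  exact hω rfl

theorem wdg_add_left (a b c : L) : wdg (a + b) c = wdg a c + wdg b c := by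
  have := (exteriorPower.ιMulti L 2 : (Ω[L⁄ℂ]) [⋀^Fin 2]→ₗ[L] _).map_update_add
    ![D ℂ L a, D ℂ L c] 0 (D ℂ L a) (D ℂ L b)
  have e : ∀ z : Ω[L⁄ℂ], Function.update ![D ℂ L a, D ℂ L c] 0 z = ![z, D ℂ L c] := by
    intro z
    ext i
    fin_cases i <;> rfl
  simp only [e] at this
  rw [wdg, map_add, this]
  rfl

theorem wdg_mul_left (a b c : L) : wdg (a * b) c = a • wdg b c + b • wdg a c := by
  have e : ∀ y z : Ω[L⁄ℂ], Function.update ![y, D ℂ L c] 0 z = ![z, D ℂ L c] := by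
    intro y z
    ext i
    fin_cases i <;> rfl
  have h1 := (exteriorPower.ιMulti L 2 : (Ω[L⁄ℂ]) [⋀^Fin 2]→ₗ[L] _).map_update_add
    ![D ℂ L a, D ℂ L c] 0 (a • D ℂ L b) (b • D ℂ L a)
  have h2 := (exteriorPower.ιMulti L 2 : (Ω[L⁄ℂ]) [⋀^Fin 2]→ₗ[L] _).map_update_smul
    ![D ℂ L a, D ℂ L c] 0 a (D ℂ L b)
  have h3 := (exteriorPower.ιMulti L 2 : (Ω[L⁄ℂ]) [⋀^Fin 2]→ₗ[L] _).map_update_smul
    ![D ℂ L a, D ℂ L c] 0 b (D ℂ L a)
  simp only [e] at h1 h2 h3
  rw [wdg, Derivation.leibniz, h1, h2, h3]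
  rfl

theorem wdg_const (z : ℂ) (c : L) : wdg (algebraMap ℂ L z) c = 0 := by
  rw [wdg, Derivation.map_algebraMap]
  exact AlternatingMap.map_coord_zero _ 0 rfl

theorem wdg_self (a : L) : wdg a a = 0 :=
  AlternatingMap.map_eq_zero_of_eq _ _ (i := 0) (j := 1) rfl (by decide)

theorem wdg_swap (a b : L) : wdg a b = - wdg b a := by
  have := AlternatingMap.map_swap (exteriorPower.ιMulti L 2 : (Ω[L⁄ℂ]) [⋀^Fin 2]→ₗ[L] _)
    ![D ℂ L b, D ℂ L a] (i := 0) (j := 1) (by decide)
  rw [wdg, wdg, ← this]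
  congr 1
  ext i
  fin_cases i <;> rfl

/-- The bracket of a nonzero 2-form. -/
theorem exists_bracket (h : Algebra.trdeg ℂ L = 2) {ω : ⋀[L]^2 (Ω[L⁄ℂ])} (hω : ω ≠ 0) :
    ∃ B : Bracket L, (∀ a b, wdg a b = B.br a b • ω) := by
  choose r hr using fun a b : L => exists_smul h hω (wdg a b)
  have inj : ∀ {c d : L}, c • ω = d • ω → c = d := fun {c d} hcd => smul_left_injective L hω hcd
  refine ⟨⟨r, ?_, ?_, ?_, ?_, ?_, ?_⟩, hr⟩
  · intro a b c
    apply inj
    rw [add_smul, ← hr, ← hr, ← hr, wdg_add_left]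
  · intro a b c
    apply inj
    rw [add_smul, mul_smul, mul_smul, ← hr, ← hr, ← hr, wdg_mul_left]
  · intro z c
    apply inj
    rw [← hr, zero_smul, wdg_const]
  · intro a
    apply inj
    rw [← hr, zero_smul, wdg_self]
  · intro a b
    apply eq_neg_of_add_eq_zero_left
    apply inj
    rw [add_smul, ← hr, ← hr, zero_smul, wdg_swap a b, neg_add_cancel]
  · obtain ⟨t₁, t₂, ht⟩ := exists_indep h
    refine ⟨t₁, t₂, fun h0 => wdg_ne_zero h hω ht ?_⟩
    rw [hr, h0, zero_smul]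

end general

theorem Var.form_one {N : ℕ} (Y : Var N) (a b : Y.L) : Y.form 1 a b = wdg a b := one_smul _ _

theorem Var.form_eq {N : ℕ} (Y : Var N) (c a b : Y.L) : Y.form c a b = c • wdg a b := rfl

theorem br2 : ST_BR2 := fun _ Y hY ω hω => by
  obtain ⟨B, hB⟩ := exists_bracket (br1 _ Y hY).1 hω
  exact ⟨B, fun a b => by rw [Y.form_one, hB]⟩

end

end LCY
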