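import Pool.Agent.Helper27.LCY.Defs

open MvPolynomial

namespace LCY

noncomputable section

theorem Var.mem_locRing {N : ℕ} (Y : Var N) (J : Ideal (S N)) [hJ : J.IsPrime] (z : Y.L) :
    z ∈ Y.locRing J ↔ Y.IsFrac J (z : Y.K) := Iff.rfl

theorem Var.isUnit_locRing {N : ℕ} (Y : Var N) (J : Ideal (S N)) [hJ : J.IsPrime]
    (z : Y.locRing J) (n : ℕ) (F G : S N) (hF : F.IsHomogeneous n)
    (hG : G.IsHomogeneous n) (hGI : G ∉ Y.I) (hFJ : F ∉ J) (hFI : F ∉ Y.I)
    (hz : ((z : Y.L) : Y.K) = Y.cls F / Y.cls G) : IsUnit z := by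
  have hz' : Y.IsFrac J (((z : Y.L) : Y.K)⁻¹) := ⟨n, G, F, hG, hF, hFJ, hFI, by rw [hz, inv_div]⟩
  have hinv : (((z : Y.L)⁻¹ : Y.L) : Y.K) = ((z : Y.L) : Y.K)⁻¹ := rfl
  have hmem : (z : Y.L)⁻¹ ∈ Y.locRing J := by
    rw [Y.mem_locRing, hinv]; exact hz'
  have hne : (z : Y.L) ≠ 0 := by
    intro h
    have : ((z : Y.L) : Y.K) = 0 := by rw [h]; rfl
    rw [hz, div_eq_zero_iff] at this
    exact this.elim (Y.cls_ne hFI) (Y.cls_ne hGI)
  refine IsUnit.of_mul_eq_one ⟨(z : Y.L)⁻¹, hmem⟩ ?_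
  apply Subtype.ext
  exact mul_inv_cancel₀ hne

theorem Var.not_isUnit_locRing {N : ℕ} (Y : Var N) (J : Ideal (S N)) [hJ : J.IsPrime]
    (hIJ : Y.I ≤ J) (z : Y.locRing J) (F G : S N) (hGJ : G ∉ J) (hFJ : F ∈ J)
    (hz : ((z : Y.L) : Y.K) = Y.cls F / Y.cls G) : ¬ IsUnit z := by
  intro hu
  obtain ⟨w, hw⟩ := hu.exists_right_inv
  obtain ⟨m, F', G', hF', hG', hGJ', hGI', hw'⟩ := w.2
  have h1 : ((z : Y.L) : Y.K) * ((w : Y.L) : Y.K) = 1 := by
    have := congrArg (fun q : Y.locRing J => ((q : Y.L) : Y.K)) hw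
    exact this
  have hGI : G ∉ Y.I := fun h => hGJ (hIJ h)
  rw [hz, hw', div_mul_div_comm, div_eq_one_iff_eq
    (mul_ne_zero (Y.cls_ne hGI) (Y.cls_ne hGI')), ← Y.cls_mul, ← Y.cls_mul] at h1
  have h2 : F * F' - G * G' ∈ Y.I := by
    have h3 : Y.cls (F * F' - G * G') = 0 := by
      have : Y.cls (F * F') = Y.cls (F * F' - G * G') + Y.cls (G * G') := by
        rw [← Y.cls_add]; congr 1; ring
      rw [this] at h1
      simpa using h1
    by_contra hc
    exact Y.cls_ne hc h3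
  have h4 : G * G' ∈ J := by
    have h5 : F * F' ∈ J := J.mul_mem_right _ hFJ
    have : G * G' = F * F' - (F * F' - G * G') := by ring
    rw [this]
    exact J.sub_mem h5 (hIJ h2)
  exact (hJ.mem_or_mem h4).elim hGJ hGJ'

/-- The local ring along a subvariety of `Y` is local. -/
theorem Var.isLocalRing_locRing {N : ℕ} (Y : Var N) (J : Ideal (S N)) [hJ : J.IsPrime]
    (hIJ : Y.I ≤ J) : IsLocalRing (Y.locRing J) := by
  refine IsLocalRing.of_nonunits_add ?_
  intro a b ha hb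
  obtain ⟨n, F, G, hF, hG, hGJ, hGI, hz⟩ := a.2
  obtain ⟨m, F', G', hF', hG', hGJ', hGI', hz'⟩ := b.2
  have hFJ : F ∈ J := by
    by_contra hc
    exact ha (Y.isUnit_locRing J a n F G hF hG hGI hc (fun h => hc (hIJ h)) hz)
  have hFJ' : F' ∈ J := by
    by_contra hc
    exact hb (Y.isUnit_locRing J b m F' G' hF' hG' hGI' hc (fun h => hc (hIJ h)) hz')
  refine Y.not_isUnit_locRing J hIJ (a + b) (F * G' + F' * G) (G * G')
    (fun h => (hJ.mem_or_mem h).elim hGJ hGJ')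
    (J.add_mem (J.mul_mem_right _ hFJ) (J.mul_mem_right _ hFJ')) ?_
  have h1 : (((a + b : Y.locRing J) : Y.L) : Y.K) = ((a : Y.L) : Y.K) + ((b : Y.L) : Y.K) := rfl
  rw [h1, hz, hz', Var.cls_add, Var.cls_mul, Var.cls_mul, Var.cls_mul,
      div_add_div _ _ (Y.cls_ne hGI) (Y.cls_ne hGI')]
  ring_nf

theorem mem_ptIdeal_iff {N : ℕ} (p : Fin (N + 1) → ℂ) (f : S N) (n : ℕ)
    (hf : f.IsHomogeneous n) : f ∈ ptIdeal p ↔ eval p f = 0 := by
  have key : (aeval (fun i => Polynomial.C (p i) * Polynomial.X) : S N →ₐ[ℂ] Polynomial ℂ) f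
      = Polynomial.C (eval p f) * Polynomial.X ^ n := by
    have hs := hf
    rw [MvPolynomial.aeval_def, MvPolynomial.eval₂_eq']
    rw [MvPolynomial.eval_eq']
    rw [map_sum, Finset.sum_mul]
    refine Finset.sum_congr rfl ?_
    intro d hd
    have hdeg : ∑ i, d i = n := by
      have := hf (mem_support_iff.1 hd)
      rw [Finsupp.weight_apply, Finsupp.sum_fintype _ _ (by simp)] at this
      simpa using this
    rw [map_mul, map_prod]
    simp only [mul_pow, Finset.prod_mul_distrib, map_pow]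
    rw [Finset.prod_pow_eq_pow_sum, hdeg]
    simp [Polynomial.algebraMap_eq, mul_assoc]
  unfold ptIdeal
  rw [RingHom.mem_ker]
  constructor
  · intro h
    have h' : (aeval (fun i => Polynomial.C (p i) * Polynomial.X) : S N →ₐ[ℂ] Polynomial ℂ) f
      = 0 := h
    rw [key] at h'
    have := mul_eq_zero.1 h'
    rcases this with h1 | h1
    · simpa using h1
    · exact absurd h1 (pow_ne_zero _ Polynomial.X_ne_zero)
  · intro h
    change (aeval (fun i => Polynomial.C (p i) * Polynomial.X) : S N →ₐ[ℂ] Polynomial ℂ) f = 0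
    rw [key, h, map_zero, zero_mul]

theorem Var.le_ptIdeal {N : ℕ} (Y : Var N) (p : Fin (N + 1) → ℂ) (hp : Y.IsPt p) :
    Y.I ≤ ptIdeal p := by
  intro f hf
  rw [← MvPolynomial.sum_homogeneousComponent f]
  refine Ideal.sum_mem _ ?_
  intro n _
  rw [mem_ptIdeal_iff p _ n (homogeneousComponent_isHomogeneous n f)]
  exact hp.2 _ (Y.homogeneous f hf n)

end

end LCY
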