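import Pool.Agent.Helper27.LCY.BrStmts
import Pool.Agent.Helper27.LCY.Api1

open MvPolynomial

namespace LCY

noncomputable section

theorem Var.i0_spec {N : ℕ} (Y : Var N) : (X Y.i0 : S N) ∉ Y.I := Classical.choose_spec Y.relevant

/-- The class of the distinguished coordinate. -/
def Var.T {N : ℕ} (Y : Var N) : Y.K := Y.cls (X Y.i0)

theorem Var.T_ne {N : ℕ} (Y : Var N) : Y.T ≠ 0 := Y.cls_ne Y.i0_spec

theorem Var.coe_x {N : ℕ} (Y : Var N) (i : Fin (N + 1)) :
    ((Y.x i : Y.L) : Y.K) = Y.cls (X i) / Y.T := rfl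

/-- Homogeneous substitution. -/
theorem aeval_smul_hom {σ R : Type} [CommRing R] [Algebra ℂ R] (y : σ → R) (r : R)
    {f : MvPolynomial σ ℂ} {n : ℕ} (hf : f.IsHomogeneous n) :
    aeval (fun i => r * y i) f = r ^ n * aeval y f := by
  classical
  rw [MvPolynomial.aeval_def, MvPolynomial.aeval_def, MvPolynomial.eval₂_eq, MvPolynomial.eval₂_eq,
    Finset.mul_sum]
  refine Finset.sum_congr rfl ?_
  intro d hd
  have hdeg : ∑ i ∈ d.support, d i = n := by
    have := hf (mem_support_iff.1 hd)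
    rw [Finsupp.weight_apply] at this
    simpa [Finsupp.sum] using this
  have : (∏ i ∈ d.support, (r * y i) ^ d i) = r ^ n * ∏ i ∈ d.support, y i ^ d i := by
    simp only [mul_pow, Finset.prod_mul_distrib]
    rw [Finset.prod_pow_eq_pow_sum, hdeg]
  rw [this]
  ring

theorem Var.aeval_cls {N : ℕ} (Y : Var N) (f : S N) :
    aeval (fun i => Y.cls (X i)) f = Y.cls f := by
  have h : (aeval (fun i => Y.cls (X i)) : S N →ₐ[ℂ] Y.K) =
      ((Algebra.ofId (S N ⧸ Y.I) Y.K).restrictScalars ℂ).comp (Ideal.Quotient.mkₐ ℂ Y.I) := by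
    ext i
    simp [Var.cls, Algebra.ofId_apply]
  rw [h]
  rfl

/-- A form in the affine coordinates. -/
theorem Var.aeval_x {N : ℕ} (Y : Var N) {f : S N} {n : ℕ} (hf : f.IsHomogeneous n) :
    ((aeval Y.x f : Y.L) : Y.K) = Y.cls f / Y.T ^ n := by
  have h1 : ((aeval Y.x f : Y.L) : Y.K) = aeval (fun i => ((Y.x i : Y.L) : Y.K)) f := by
    have : (Y.L.val) (aeval Y.x f) = aeval (fun i => Y.L.val (Y.x i)) f := by
      have h2 := MvPolynomial.comp_aeval (R := ℂ) Y.x Y.L.val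
      rw [← AlgHom.comp_apply, h2]
    exact this
  have h3 : (fun i => ((Y.x i : Y.L) : Y.K)) = fun i => Y.T⁻¹ * Y.cls (X i) := by
    funext i
    rw [Y.coe_x, div_eq_inv_mul]
  rw [h1, h3, aeval_smul_hom _ _ hf, Y.aeval_cls, inv_pow, div_eq_inv_mul]

theorem Var.adjoin_x {N : ℕ} (Y : Var N) :
    IntermediateField.adjoin ℂ (Set.range Y.x) = ⊤ := by
  rw [eq_top_iff]
  intro z _
  obtain ⟨n, F, G, hF, hG, -, hGI, hz⟩ := z.2
  have h1 : z = aeval Y.x F / aeval Y.x G := by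
    apply Subtype.ext
    change (z : Y.K) = ((aeval Y.x F : Y.L) : Y.K) / ((aeval Y.x G : Y.L) : Y.K)
    rw [Y.aeval_x hF, Y.aeval_x hG, hz]
    exact (div_div_div_cancel_right₀ (pow_ne_zero n Y.T_ne) _ _).symm
  have hmem : ∀ f : S N, aeval Y.x f ∈ IntermediateField.adjoin ℂ (Set.range Y.x) := by
    intro f
    have : aeval Y.x f ∈ Algebra.adjoin ℂ (Set.range Y.x) := by
      rw [Algebra.adjoin_range_eq_range_aeval]
      exact ⟨f, rfl⟩
    exact IntermediateField.algebra_adjoin_le_adjoin ℂ _ this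
  rw [h1]
  exact div_mem (hmem F) (hmem G)

/-- The homomorphism `X_i ↦ X_i t` on the coordinate ring. -/
def Var.grade {N : ℕ} (Y : Var N) : (S N ⧸ Y.I) →ₐ[ℂ] RatFunc Y.K :=
  Ideal.Quotient.liftₐ Y.I (aeval fun i => RatFunc.X * algebraMap Y.K (RatFunc Y.K) (Y.cls (X i)))
    (by
      intro f hf
      rw [← MvPolynomial.sum_homogeneousComponent f, map_sum]
      refine Finset.sum_eq_zero ?_
      intro n _
      rw [aeval_smul_hom _ _ (homogeneousComponent_isHomogeneous n f)]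
      have h1 : aeval (fun i => algebraMap Y.K (RatFunc Y.K) (Y.cls (X i)))
          (homogeneousComponent n f) = algebraMap Y.K (RatFunc Y.K)
            (Y.cls (homogeneousComponent n f)) := by
        rw [← Y.aeval_cls]
        exact MvPolynomial.aeval_algebraMap_apply (RatFunc Y.K) _ _
      rw [h1, Y.cls_eq_zero (Y.homogeneous f hf n), map_zero, mul_zero])

theorem Var.grade_hom {N : ℕ} (Y : Var N) {f : S N} {n : ℕ} (hf : f.IsHomogeneous n) :
    Y.grade (Ideal.Quotient.mk Y.I f) =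
      RatFunc.X ^ n * algebraMap Y.K (RatFunc Y.K) (Y.cls f) := by
  unfold Var.grade
  rw [← Ideal.Quotient.mkₐ_eq_mk ℂ, Ideal.Quotient.liftₐ_apply]
  erw [Ideal.Quotient.lift_mk]
  change aeval (fun i => RatFunc.X * algebraMap Y.K (RatFunc Y.K) (Y.cls (X i))) f = _
  rw [aeval_smul_hom _ _ hf]
  congr 1
  rw [← Y.aeval_cls]
  exact MvPolynomial.aeval_algebraMap_apply (RatFunc Y.K) _ _

theorem Var.grade_inj {N : ℕ} (Y : Var N) : Function.Injective Y.grade := by
  rw [injective_iff_map_eq_zero]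
  intro a ha
  obtain ⟨f, rfl⟩ := Ideal.Quotient.mk_surjective a
  rw [← MvPolynomial.sum_homogeneousComponent f, map_sum, map_sum] at ha
  have h1 : ∀ n, Y.grade (Ideal.Quotient.mk Y.I (homogeneousComponent n f)) =
      algebraMap (Polynomial Y.K) (RatFunc Y.K)
        (Polynomial.monomial n (Y.cls (homogeneousComponent n f))) := by
    intro n
    rw [Y.grade_hom (homogeneousComponent_isHomogeneous n f), ← Polynomial.C_mul_X_pow_eq_monomial,
      map_mul, map_pow, RatFunc.algebraMap_X, RatFunc.algebraMap_C, mul_comm]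
    rfl
  simp_rw [h1] at ha
  rw [← map_sum, FaithfulSMul.algebraMap_eq_zero_iff] at ha
  rw [Ideal.Quotient.eq_zero_iff_mem, ← MvPolynomial.sum_homogeneousComponent f]
  refine Ideal.sum_mem _ ?_
  intro n hn
  have h2 := congrArg (fun p => Polynomial.coeff p n) ha
  simp only [Polynomial.finsetSum_coeff, Polynomial.coeff_monomial, Polynomial.coeff_zero] at h2
  rw [Finset.sum_ite_eq' _ n, if_pos hn] at h2
  by_contra hc
  exact Y.cls_ne hc h2

/-- The homomorphism `X_i ↦ X_i t` on the fraction field. -/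
def Var.gradeK {N : ℕ} (Y : Var N) : Y.K →+* RatFunc Y.K :=
  IsFractionRing.lift (A := S N ⧸ Y.I) (g := (Y.grade : (S N ⧸ Y.I) →+* RatFunc Y.K)) Y.grade_inj

theorem Var.gradeK_cls {N : ℕ} (Y : Var N) {f : S N} {n : ℕ} (hf : f.IsHomogeneous n) :
    Y.gradeK (Y.cls f) = RatFunc.X ^ n * algebraMap Y.K (RatFunc Y.K) (Y.cls f) := by
  rw [← Y.grade_hom hf]
  exact IsFractionRing.lift_algebraMap _ _

theorem Var.gradeK_L {N : ℕ} (Y : Var N) (z : Y.L) :
    Y.gradeK (z : Y.K) = algebraMap Y.K (RatFunc Y.K) (z : Y.K) := by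
  obtain ⟨n, F, G, hF, hG, -, hGI, hz⟩ := z.2
  rw [hz, map_div₀, map_div₀, Y.gradeK_cls hF, Y.gradeK_cls hG]
  exact mul_div_mul_left _ _ (pow_ne_zero n RatFunc.X_ne_zero)

/-- The distinguished coordinate is transcendental over the function field. -/
theorem Var.T_transcendental {N : ℕ} (Y : Var N) : Transcendental Y.L Y.T := by
  rw [transcendental_iff]
  intro p hp
  ext n
  have h1 : Y.gradeK (Polynomial.aeval Y.T p) = 0 := by rw [hp, map_zero]
  rw [Polynomial.aeval_eq_sum_range, map_sum] at h1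
  have h2 : ∀ i, Y.gradeK (p.coeff i • Y.T ^ i) = algebraMap (Polynomial Y.K) (RatFunc Y.K)
      (Polynomial.monomial i ((p.coeff i : Y.K) * Y.T ^ i)) := by
    intro i
    have h3 : p.coeff i • Y.T ^ i = ((p.coeff i : Y.L) : Y.K) * Y.T ^ i := rfl
    rw [h3, map_mul, Y.gradeK_L, map_pow]
    have h4 : Y.gradeK Y.T = RatFunc.X ^ 1 * algebraMap Y.K (RatFunc Y.K) Y.T :=
      Y.gradeK_cls (isHomogeneous_X _ _)
    rw [h4, pow_one, mul_pow, ← Polynomial.C_mul_X_pow_eq_monomial, map_mul, map_pow,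
      RatFunc.algebraMap_X, RatFunc.algebraMap_C, map_mul, map_pow]
    change _ * (_ * (algebraMap Y.K (RatFunc Y.K) Y.T) ^ i) =
      (algebraMap Y.K (RatFunc Y.K) (p.coeff i : Y.K) * (algebraMap Y.K (RatFunc Y.K) Y.T) ^ i) * _
    ring
  simp_rw [h2] at h1
  rw [← map_sum, FaithfulSMul.algebraMap_eq_zero_iff] at h1
  by_cases hn : n ∈ Finset.range (p.natDegree + 1)
  · have h5 := congrArg (fun q => Polynomial.coeff q n) h1
    simp only [Polynomial.finsetSum_coeff, Polynomial.coeff_monomial, Polynomial.coeff_zero] at h5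
    rw [Finset.sum_ite_eq' _ n, if_pos hn] at h5
    have h6 := (mul_eq_zero.1 h5).resolve_right (pow_ne_zero _ Y.T_ne)
    rw [Polynomial.coeff_zero]
    exact congrArg Subtype.val (Subtype.ext h6 : p.coeff n = 0)
  · rw [Finset.mem_range, not_lt] at hn
    rw [Polynomial.coeff_eq_zero_of_natDegree_lt (by omega), Polynomial.coeff_zero]

theorem Var.cls_mem_adjoin {N : ℕ} (Y : Var N) (f : S N) :
    Y.cls f ∈ Algebra.adjoin Y.L ({Y.T} : Set Y.K) := by
  rw [← MvPolynomial.sum_homogeneousComponent f]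
  have h0 : Y.cls (∑ n ∈ Finset.range (f.totalDegree + 1), homogeneousComponent n f) =
      ∑ n ∈ Finset.range (f.totalDegree + 1), Y.cls (homogeneousComponent n f) := by
    simp [Var.cls]
  rw [h0]
  refine Subalgebra.sum_mem _ ?_
  intro n _
  have h1 : Y.cls (homogeneousComponent n f) =
      (aeval Y.x (homogeneousComponent n f) : Y.L) • Y.T ^ n := by
    have h2 : (aeval Y.x (homogeneousComponent n f) : Y.L) • Y.T ^ n =
        ((aeval Y.x (homogeneousComponent n f) : Y.L) : Y.K) * Y.T ^ n := rfl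
    rw [h2, Y.aeval_x (homogeneousComponent_isHomogeneous n f),
      div_mul_cancel₀ _ (pow_ne_zero n Y.T_ne)]
  rw [h1]
  exact Subalgebra.smul_mem _ (Subalgebra.pow_mem _ (Algebra.subset_adjoin (Set.mem_singleton _)) n) _

theorem Var.isAlg_adjoin {N : ℕ} (Y : Var N) :
    Algebra.IsAlgebraic (Algebra.adjoin Y.L ({Y.T} : Set Y.K)) Y.K := by
  constructor
  intro z
  obtain ⟨a, b, hb, rfl⟩ := IsFractionRing.div_surjective (A := S N ⧸ Y.I) z
  obtain ⟨f, rfl⟩ := Ideal.Quotient.mk_surjective a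
  obtain ⟨g, rfl⟩ := Ideal.Quotient.mk_surjective b
  have hg : g ∉ Y.I := by
    intro h
    rw [← Ideal.Quotient.eq_zero_iff_mem] at h
    rw [h] at hb
    exact zero_notMem_nonZeroDivisors hb
  have hf' := Y.cls_mem_adjoin f
  have hg' := Y.cls_mem_adjoin g
  refine ⟨Polynomial.C ⟨Y.cls g, hg'⟩ * Polynomial.X - Polynomial.C ⟨Y.cls f, hf'⟩, ?_, ?_⟩
  · intro h
    have h1 := congrArg (fun p => Polynomial.coeff p 1) h
    simp only [Polynomial.coeff_sub, Polynomial.coeff_C_mul, Polynomial.coeff_X_one,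
      Polynomial.coeff_C_succ, mul_one, sub_zero, Polynomial.coeff_zero] at h1
    exact Y.cls_ne hg (congrArg Subtype.val h1)
  · rw [map_sub, map_mul, Polynomial.aeval_C, Polynomial.aeval_X, Polynomial.aeval_C]
    change Y.cls g * (Y.cls f / Y.cls g) - Y.cls f = 0
    rw [mul_div_cancel₀ _ (Y.cls_ne hg), sub_self]

theorem Var.trdeg_K {N : ℕ} (Y : Var N) : Algebra.trdeg Y.L Y.K = 1 := by
  apply le_antisymm
  · have := Y.isAlg_adjoin
    have h := Algebra.IsAlgebraic.trdeg_le_cardinalMk Y.L ({Y.T} : Set Y.K)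
    rwa [Cardinal.mk_singleton] at h
  · have h1 : AlgebraicIndependent Y.L (fun _ : Unit => Y.T) :=
      (algebraicIndependent_unique_type_iff).2 Y.T_transcendental
    have h2 := h1.cardinalMk_le_trdeg
    simpa using h2

theorem Var.trdeg_L {N : ℕ} (Y : Var N) {d : ℕ} (hY : Y.HasDim d) :
    Algebra.trdeg ℂ Y.L = d := by
  have h1 : Algebra.trdeg ℂ Y.L + Algebra.trdeg Y.L Y.K = Algebra.trdeg ℂ Y.K :=
    trdeg_add_eq ℂ Y.L
  have h2 : Algebra.trdeg ℂ (S N ⧸ Y.I) + Algebra.trdeg (S N ⧸ Y.I) Y.K =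
      Algebra.trdeg ℂ Y.K := trdeg_add_eq ℂ (S N ⧸ Y.I)
  have h3 : Algebra.IsAlgebraic (S N ⧸ Y.I) Y.K :=
    IsLocalization.isAlgebraic Y.K (nonZeroDivisors (S N ⧸ Y.I))
  have h5 : Algebra.trdeg (S N ⧸ Y.I) Y.K = 0 := trdeg_eq_zero
  have h6 : Algebra.trdeg ℂ (S N ⧸ Y.I) = (d : Cardinal) + 1 := hY
  rw [h5, add_zero, h6] at h2
  rw [Y.trdeg_K, ← h2] at h1
  have h4 : Algebra.trdeg ℂ Y.L + 1 = (d : Cardinal) + 1 := h1
  exact Cardinal.add_one_inj.1 h4

theorem br1 : ST_BR1 := fun _ Y hY => ⟨by simpa using Y.trdeg_L hY, Y.adjoin_x⟩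

end

end LCY
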