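import Pool.Agent.Helper27.LCY.BR2
import Pool.Agent.Helper73.LCY.BR89

open MvPolynomial

namespace LCY

noncomputable section

open KaehlerDifferential

/-- The derivation `a ↦ br a b`. -/
def Bracket.der {L : Type} [Field L] [Algebra ℂ L] (B : Bracket L) (b : L) : Derivation ℂ L L :=
  Derivation.mk'
    { toFun := fun a => B.br a b
      map_add' := fun x y => B.add_left x y b
      map_smul' := fun z x => by
        change B.br (z • x) b = z • B.br x b
        rw [Algebra.smul_def, B.mul_left, B.const_left, mul_zero, add_zero, Algebra.smul_def] }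
    (fun x y => B.mul_left x y b)

theorem Bracket.der_apply {L : Type} [Field L] [Algebra ℂ L] (B : Bracket L) (a b : L) :
    (B.der b).liftKaehlerDifferential (D ℂ L a) = B.br a b :=
  Derivation.liftKaehlerDifferential_comp_D _ _

theorem wdg_ne_zero_of_br {L : Type} [Field L] [Algebra ℂ L] (B : Bracket L) {a b : L}
    (h : B.br a b ≠ 0) : wdg a b ≠ 0 := by
  intro h0
  have h1 := exteriorPower.pairingDual_ιMulti_ιMulti (R := L) (M := Ω[L⁄ℂ]) (n := 2)
    ![(B.der b).liftKaehlerDifferential, (B.der a).liftKaehlerDifferential]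
    ![D ℂ L a, D ℂ L b]
  rw [wdg] at h0
  rw [h0, map_zero, Matrix.det_fin_two] at h1
  have e1 := B.der_apply a b
  have e2 := B.der_apply b a
  have e3 := B.der_apply a a
  have e4 := B.der_apply b b
  simp only [Matrix.of_apply, Matrix.cons_val_zero, Matrix.cons_val_one] at h1
  erw [e1, e2, e3, e4] at h1
  rw [B.alt, B.alt, mul_zero, sub_zero] at h1
  have h2 : B.br b a ≠ 0 := by
    rw [B.skew b a]
    exact neg_ne_zero.2 h
  exact mul_ne_zero h h2 h1.symm

/-- The bracket of two algebraically independent functions does not vanish. -/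
theorem Bracket.ne_zero_of_indep {L : Type} [Field L] [Algebra ℂ L]
    (h : Algebra.trdeg ℂ L = 2) (B : Bracket L) {t₁ t₂ : L}
    (ht : AlgebraicIndependent ℂ ![t₁, t₂]) : B.br t₁ t₂ ≠ 0 := by
  intro h0
  have hspan := span_of_indep h ht
  have key : ∀ b : L, B.br t₁ b = 0 → B.br t₂ b = 0 → ∀ a, B.br a b = 0 := by
    intro b h1 h2 a
    have h3 : D ℂ L a ∈ Submodule.span L {D ℂ L t₁, D ℂ L t₂} := by rw [hspan]; trivial
    have h4 : Submodule.span L {D ℂ L t₁, D ℂ L t₂} ≤
        LinearMap.ker (B.der b).liftKaehlerDifferential := by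
      rw [Submodule.span_le]
      rintro x (rfl | hx)
      · rw [SetLike.mem_coe, LinearMap.mem_ker, B.der_apply, h1]
      · rw [Set.mem_singleton_iff] at hx
        subst hx
        rw [SetLike.mem_coe, LinearMap.mem_ker, B.der_apply, h2]
    have h5 := h4 h3
    rwa [LinearMap.mem_ker, B.der_apply] at h5
  have h1 : ∀ a, B.br a t₂ = 0 := key t₂ h0 (B.alt t₂)
  have h2 : ∀ a, B.br a t₁ = 0 := key t₁ (B.alt t₁) (by rw [B.skew, h0, neg_zero])
  obtain ⟨a, b, hab⟩ := B.ne_zero
  exact hab (key b (by rw [B.skew, h2, neg_zero]) (by rw [B.skew, h1, neg_zero]) a)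

/-- Every form regular along `C` is `c ω` with `c` of value at least `-k`. -/
theorem Var.regForms_val {N : ℕ} (Y C : Var N) (hY : Y.HasDim 2) (ω : Y.Forms)
    (B : Bracket Y.L) (hB : ∀ a b, wdg a b = B.br a b • ω) (v : DVal Y.L)
    (hv : ∀ a, v.Int a ↔ a ∈ Y.locRing C.I) {k : ℤ} (hk : B.Wt v k) (m : Y.Forms)
    (hm : m ∈ Y.regForms C) : ∃ c : Y.L, m = c • ω ∧ (c = 0 ∨ - k ≤ v.v c) := by
  have hall := H73.wt_all (br1 _ Y hY).1 (H73.fg_of_hasDim Y hY) B v hk
  induction hm using AddSubgroup.closure_induction with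
  | mem x hx =>
    obtain ⟨a, ha, b, hb, c, hc, rfl⟩ := hx
    refine ⟨c * B.br a b, ?_, ?_⟩
    · rw [Y.form_eq, hB, smul_smul]
    · by_cases hc0 : c = 0
      · left; rw [hc0, zero_mul]
      rcases hall.2.1 a b ((hv a).2 ha) ((hv b).2 hb) with h | h
      · left; rw [h, mul_zero]
      · by_cases hbr : B.br a b = 0
        · left; rw [hbr, mul_zero]
        right
        rw [v.map_mul _ _ hc0 hbr]
        have h1 := ((hv c).2 hc).resolve_left hc0
        omega
  | zero => exact ⟨0, (zero_smul _ _).symm, Or.inl rfl⟩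
  | add x y _ _ hx hy =>
    obtain ⟨c, rfl, hc⟩ := hx
    obtain ⟨d, rfl, hd⟩ := hy
    refine ⟨c + d, (add_smul _ _ _).symm, ?_⟩
    by_cases hc0 : c = 0
    · rw [hc0, zero_add]; exact hd
    by_cases hd0 : d = 0
    · rw [hd0, add_zero]; exact hc
    by_cases hcd : c + d = 0
    · exact Or.inl hcd
    right
    have h1 := v.map_add c d hc0 hd0 hcd
    exact le_trans (le_min (hc.resolve_left hc0) (hd.resolve_left hd0)) h1
  | neg x _ hx =>
    obtain ⟨c, rfl, hc⟩ := hx
    refine ⟨-1 * c, ?_, ?_⟩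
    · rw [mul_smul]
      have e1 : (-1 : Y.L) • (c • ω) = - (c • ω) := by
        have := neg_smul (1 : Y.L) (c • ω)
        rw [one_smul] at this
        exact this
      exact e1.symm
    · rcases hc with hc | hc
      · left; rw [hc, mul_zero]
      · by_cases hc0 : c = 0
        · left; rw [hc0, mul_zero]
        right
        have h1 := v.map_const (-1) (by norm_num)
        rw [map_neg, map_one] at h1
        rw [v.map_mul _ _ (by norm_num) hc0, h1, zero_add]
        exact hc

theorem br6 : ST_BR6 := by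
  intro N Y hY hN ω B hB C hC v hv
  have hB' : ∀ a b, wdg a b = B.br a b • ω := fun a b => by rw [← Y.form_one]; exact hB a b
  obtain ⟨t, ht⟩ := v.exists_res
  obtain ⟨π, hπ0, hπ⟩ := v.exists_unif
  obtain ⟨k, hk⟩ := H73.st_BR8 N Y hY B v
  obtain ⟨hne, hval⟩ := hk t π ht hπ0 hπ
  have hwt : B.Wt v k := ⟨t, π, ht, hπ0, hπ, hne, hval⟩
  have hω : ω ≠ 0 := by
    rintro rfl
    have h1 := hB' t π
    rw [smul_zero] at h1
    exact wdg_ne_zero_of_br B hne h1
  have inj : ∀ {c d : Y.L}, c • ω = d • ω → c = d := fun {c d} hcd =>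
    smul_left_injective Y.L hω hcd
  -- `t` and `π` lie in the local ring
  have htint : v.Int t := by
    have h1 := ht Polynomial.X Polynomial.X_ne_zero
    rw [Polynomial.aeval_X] at h1
    exact Or.inr h1.2.ge
  have hπint : v.Int π := Or.inr (by omega)
  have hmem : wdg t π ∈ Y.regForms C := by
    refine AddSubgroup.subset_closure ⟨t, (hv t).1 htint, π, (hv π).1 hπint, 1,
      (Y.locRing C.I).one_mem, ?_⟩
    rw [Y.form_one]
  refine ⟨?_, ?_⟩
  · intro hreg
    have h1 : ω ∈ Y.regForms C := by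
      have h2 : ω ∈ Y.mults C ω := ⟨1, (Y.locRing C.I).one_mem, (one_smul _ _).symm⟩
      rw [← hreg] at h2
      exact h2
    obtain ⟨c, hc, hcv⟩ := Y.regForms_val C hY ω B hB' v hv hwt ω h1
    have hc1 : c = 1 := by
      apply inj
      rw [← hc, one_smul]
    rw [hc1] at hcv
    have h3 : v.v (1 : Y.L) = 0 := by
      have := v.map_const 1 one_ne_zero
      rwa [map_one] at this
    have h4 := hcv.resolve_left one_ne_zero
    have h5 : wdg t π ∈ Y.mults C ω := by
      rw [← hreg]
      exact hmem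
    obtain ⟨d, hd, hd'⟩ := h5
    rw [hB'] at hd'
    have hd1 := inj hd'
    have h6 := ((hv d).2 hd).resolve_left (by rw [← hd1]; exact hne)
    rw [← hd1, hval] at h6
    have hk0 : k = 0 := by omega
    rw [hk0] at hwt
    exact hwt
  · intro hreg
    have hlocal := Y.isLocalRing_locRing C.I hC.1
    have hnu : ∀ a : Y.locRing C.I, a ∈ Y.maxIdeal C.I → v.Pos (a : Y.L) := by
      intro a ha
      have h2 : Y.maxIdeal C.I ≤ IsLocalRing.maximalIdeal (Y.locRing C.I) := by
        unfold Var.maxIdeal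
        rw [Ideal.span_le]
        intro b hb
        exact (IsLocalRing.mem_maximalIdeal b).2 hb
      have h3 := (IsLocalRing.mem_maximalIdeal a).1 (h2 ha)
      by_contra hc
      apply h3
      have ha0 : (a : Y.L) ≠ 0 := fun h => hc (Or.inl h)
      have h4 : v.v (a : Y.L) = 0 := by
        have h5 := ((hv a).2 a.2).resolve_left ha0
        by_contra h6
        exact hc (Or.inr (lt_of_le_of_ne h5 (Ne.symm h6)))
      have h7 : (a : Y.L)⁻¹ ∈ Y.locRing C.I := by
        rw [← hv]
        right
        have h8 := v.map_mul (a : Y.L) (a : Y.L)⁻¹ ha0 (inv_ne_zero ha0)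
        have h9 : v.v (1 : Y.L) = 0 := by
          have := v.map_const 1 one_ne_zero
          rwa [map_one] at this
        rw [mul_inv_cancel₀ ha0, h9, h4] at h8
        omega
      refine IsUnit.of_mul_eq_one ⟨(a : Y.L)⁻¹, h7⟩ ?_
      apply Subtype.ext
      exact mul_inv_cancel₀ ha0
    -- `π` is not a unit
    have hπmax : (⟨π, (hv π).1 hπint⟩ : Y.locRing C.I) ∈ Y.maxIdeal C.I := by
      apply Ideal.subset_span
      intro hu
      obtain ⟨w, hw⟩ := hu.exists_right_inv
      have h2 : π * (w : Y.L) = 1 := congrArg Subtype.val hw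
      have hw0 : (w : Y.L) ≠ 0 := by
        intro h
        rw [h, mul_zero] at h2
        exact zero_ne_one h2
      have h3 := ((hv w).2 w.2).resolve_left hw0
      have h4 := v.map_mul π (w : Y.L) hπ0 hw0
      have h9 : v.v (1 : Y.L) = 0 := by
        have := v.map_const 1 one_ne_zero
        rwa [map_one] at this
      rw [h2, h9, hπ] at h4
      omega
    have h1 : π • ω ∈ Y.regForms C := by
      have h2 : π • ω ∈ Y.maxMults C ω := ⟨⟨π, (hv π).1 hπint⟩, hπmax, rfl⟩
      rw [← hreg] at h2
      exact h2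
    obtain ⟨c, hc, hcv⟩ := Y.regForms_val C hY ω B hB' v hv hwt _ h1
    have hc1 : π = c := inj hc
    rw [← hc1] at hcv
    have h4 := hcv.resolve_left hπ0
    rw [hπ] at h4
    have h5 : wdg t π ∈ Y.maxMults C ω := by
      rw [← hreg]
      exact hmem
    obtain ⟨d, hd, hd'⟩ := h5
    rw [hB'] at hd'
    have hd1 := inj hd'
    have h6 := (hnu d hd).resolve_left (by rw [← hd1]; exact hne)
    rw [← hd1, hval] at h6
    have hk0 : k = -1 := by omega
    rw [hk0] at hwt
    exact hwt

end

end LCY
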