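import Mathlib

/-!
Classical definitions for problem MP_f7e214_ag: log Calabi-Yau surface pairs (Y, D) with Du Val
singularities, the open surface U, and images of the multiplicative group.
-/

open MvPolynomial

namespace LCY

noncomputable section

/-- The homogeneous coordinate ring of projective `N`-space over the complex numbers. -/
abbrev S (N : ℕ) : Type := MvPolynomial (Fin (N + 1)) ℂ

/-- A closed subvariety of projective `N`-space: a homogeneous prime ideal that does not contain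
all the coordinates. -/
structure Var (N : ℕ) where
  /-- the homogeneous ideal of the variety -/
  I : Ideal (S N)
  prime : I.IsPrime
  homogeneous : ∀ f ∈ I, ∀ n : ℕ, homogeneousComponent n f ∈ I
  relevant : ∃ i, (X i : S N) ∉ I

instance {N : ℕ} (Y : Var N) : Y.I.IsPrime := Y.prime

/-- The fraction field of the homogeneous coordinate ring of `Y`. -/
abbrev Var.K {N : ℕ} (Y : Var N) : Type := FractionRing (S N ⧸ Y.I)

/-- The class of a polynomial in the fraction field of the coordinate ring. -/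
def Var.cls {N : ℕ} (Y : Var N) (f : S N) : Y.K :=
  algebraMap (S N ⧸ Y.I) Y.K (Ideal.Quotient.mk Y.I f)

theorem Var.cls_add {N : ℕ} (Y : Var N) (f g : S N) : Y.cls (f + g) = Y.cls f + Y.cls g := by
  simp [Var.cls]

theorem Var.cls_mul {N : ℕ} (Y : Var N) (f g : S N) : Y.cls (f * g) = Y.cls f * Y.cls g := by
  simp [Var.cls]

theorem Var.cls_ne {N : ℕ} (Y : Var N) {f : S N} (h : f ∉ Y.I) : Y.cls f ≠ 0 := by
  unfold Var.cls
  rw [Ne, FaithfulSMul.algebraMap_eq_zero_iff, Ideal.Quotient.eq_zero_iff_mem]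
  exact h

theorem Var.cls_eq_zero {N : ℕ} (Y : Var N) {f : S N} (h : f ∈ Y.I) : Y.cls f = 0 := by
  unfold Var.cls
  rw [Ideal.Quotient.eq_zero_iff_mem.2 h, map_zero]

/-- The dimension of a projective variety is `d`: the coordinate ring has transcendence degree
`d + 1` over the complex numbers. -/
def Var.HasDim {N : ℕ} (Y : Var N) (d : ℕ) : Prop := Algebra.trdeg ℂ (S N ⧸ Y.I) = d + 1

/-- The quotients `F / G` of forms of equal degree with `G` outside the ideal `J` (and not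
vanishing identically on `Y`). -/
def Var.IsFrac {N : ℕ} (Y : Var N) (J : Ideal (S N)) (z : Y.K) : Prop :=
  ∃ (n : ℕ) (F G : S N), F.IsHomogeneous n ∧ G.IsHomogeneous n ∧ G ∉ J ∧ G ∉ Y.I ∧
    z = Y.cls F / Y.cls G

theorem Var.isFrac_zero {N : ℕ} (Y : Var N) (J : Ideal (S N)) [hJ : J.IsPrime] :
    Y.IsFrac J 0 := by
  refine ⟨0, 0, 1, isHomogeneous_zero _ _ _, isHomogeneous_one _ _, ?_, ?_, ?_⟩
  · exact (Ideal.ne_top_iff_one _).1 hJ.ne_top
  · exact (Ideal.ne_top_iff_one _).1 Y.prime.ne_top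
  · simp [Var.cls]

theorem Var.isFrac_algebraMap {N : ℕ} (Y : Var N) (J : Ideal (S N)) [hJ : J.IsPrime] (c : ℂ) :
    Y.IsFrac J (algebraMap ℂ Y.K c) := by
  refine ⟨0, C c, 1, isHomogeneous_C _ _, isHomogeneous_one _ _, ?_, ?_, ?_⟩
  · exact (Ideal.ne_top_iff_one _).1 hJ.ne_top
  · exact (Ideal.ne_top_iff_one _).1 Y.prime.ne_top
  · have h1 : Y.cls 1 = 1 := by simp [Var.cls]
    rw [h1, div_one, Var.cls]
    rfl

theorem Var.isFrac_add {N : ℕ} (Y : Var N) (J : Ideal (S N)) [hJ : J.IsPrime] {z w : Y.K}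
    (hz : Y.IsFrac J z) (hw : Y.IsFrac J w) : Y.IsFrac J (z + w) := by
  obtain ⟨n, F, G, hF, hG, hGJ, hGI, rfl⟩ := hz
  obtain ⟨m, F', G', hF', hG', hGJ', hGI', rfl⟩ := hw
  refine ⟨n + m, F * G' + F' * G, G * G', ?_, hG.mul hG', ?_, ?_, ?_⟩
  · refine (hF.mul hG').add ?_
    rw [add_comm n m]
    exact hF'.mul hG
  · exact fun h => (hJ.mem_or_mem h).elim hGJ hGJ'
  · exact fun h => (Y.prime.mem_or_mem h).elim hGI hGI'
  · rw [Var.cls_add, Var.cls_mul, Var.cls_mul, Var.cls_mul,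
      div_add_div _ _ (Y.cls_ne hGI) (Y.cls_ne hGI')]
    ring_nf

theorem Var.isFrac_mul {N : ℕ} (Y : Var N) (J : Ideal (S N)) [hJ : J.IsPrime] {z w : Y.K}
    (hz : Y.IsFrac J z) (hw : Y.IsFrac J w) : Y.IsFrac J (z * w) := by
  obtain ⟨n, F, G, hF, hG, hGJ, hGI, rfl⟩ := hz
  obtain ⟨m, F', G', hF', hG', hGJ', hGI', rfl⟩ := hw
  refine ⟨n + m, F * F', G * G', hF.mul hF', hG.mul hG', ?_, ?_, ?_⟩
  · exact fun h => (hJ.mem_or_mem h).elim hGJ hGJ'
  · exact fun h => (Y.prime.mem_or_mem h).elim hGI hGI'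
  · rw [Var.cls_mul, Var.cls_mul, div_mul_div_comm]

theorem Var.isFrac_inv {N : ℕ} (Y : Var N) {z : Y.K} (hz : Y.IsFrac Y.I z) :
    Y.IsFrac Y.I z⁻¹ := by
  obtain ⟨n, F, G, hF, hG, hGJ, hGI, rfl⟩ := hz
  by_cases h : F ∈ Y.I
  · rw [Y.cls_eq_zero h, zero_div, inv_zero]
    exact Y.isFrac_zero _
  · exact ⟨n, G, F, hG, hF, h, h, by rw [inv_div]⟩

/-- The function field of the projective variety `Y`: quotients of forms of equal degree. -/
def Var.L {N : ℕ} (Y : Var N) : IntermediateField ℂ Y.K where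
  carrier := {z | Y.IsFrac Y.I z}
  mul_mem' := fun ha hb => Y.isFrac_mul _ ha hb
  add_mem' := fun ha hb => Y.isFrac_add _ ha hb
  algebraMap_mem' := fun c => Y.isFrac_algebraMap _ c
  inv_mem' := fun _ ha => Y.isFrac_inv ha

/-- The local ring of `Y` along the closed subvariety with homogeneous prime ideal `J`
(containing the ideal of `Y`), as a subring of the function field. -/
def Var.locRing {N : ℕ} (Y : Var N) (J : Ideal (S N)) [hJ : J.IsPrime] : Subalgebra ℂ Y.L where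
  carrier := {z | Y.IsFrac J z}
  mul_mem' := fun ha hb => Y.isFrac_mul _ ha hb
  add_mem' := fun ha hb => Y.isFrac_add _ ha hb
  algebraMap_mem' := fun c => Y.isFrac_algebraMap _ c

/-- The homogeneous prime ideal of the point with homogeneous coordinates `p`. -/
def ptIdeal {N : ℕ} (p : Fin (N + 1) → ℂ) : Ideal (S N) :=
  RingHom.ker (aeval (fun i => Polynomial.C (p i) * Polynomial.X) : S N →ₐ[ℂ] Polynomial ℂ)

instance {N : ℕ} (p : Fin (N + 1) → ℂ) : (ptIdeal p).IsPrime := RingHom.ker_isPrime _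

/-- `p` are homogeneous coordinates of a point of `Y`. -/
def Var.IsPt {N : ℕ} (Y : Var N) (p : Fin (N + 1) → ℂ) : Prop :=
  p ≠ 0 ∧ ∀ f ∈ Y.I, eval p f = 0

/-- `Y` is normal. -/
def Var.Normal {N : ℕ} (Y : Var N) : Prop :=
  ∀ p, Y.IsPt p → IsIntegrallyClosed (Y.locRing (ptIdeal p))

/-- `p` is a regular point of `Y`. -/
def Var.Regular {N : ℕ} (Y : Var N) (p : Fin (N + 1) → ℂ) : Prop :=
  IsRegularLocalRing (Y.locRing (ptIdeal p))

/-- The power series ring in three variables. -/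
abbrev PS : Type := MvPowerSeries (Fin 3) ℂ

/-- The equations of the Du Val singularities. -/
inductive IsADE : PS → Prop
  | A (n : ℕ) (hn : 1 ≤ n) : IsADE (MvPowerSeries.X 0 ^ 2 + MvPowerSeries.X 1 ^ 2
      + MvPowerSeries.X 2 ^ (n + 1))
  | D (n : ℕ) (hn : 4 ≤ n) : IsADE (MvPowerSeries.X 0 ^ 2
      + MvPowerSeries.X 1 ^ 2 * MvPowerSeries.X 2 + MvPowerSeries.X 2 ^ (n - 1))
  | E6 : IsADE (MvPowerSeries.X 0 ^ 2 + MvPowerSeries.X 1 ^ 3 + MvPowerSeries.X 2 ^ 4)
  | E7 : IsADE (MvPowerSeries.X 0 ^ 2 + MvPowerSeries.X 1 ^ 3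
      + MvPowerSeries.X 1 * MvPowerSeries.X 2 ^ 3)
  | E8 : IsADE (MvPowerSeries.X 0 ^ 2 + MvPowerSeries.X 1 ^ 3 + MvPowerSeries.X 2 ^ 5)

/-- The maximal ideal of the local ring of `Y` along the subvariety with ideal `J`: the ideal
generated by the non-units. -/
def Var.maxIdeal {N : ℕ} (Y : Var N) (J : Ideal (S N)) [hJ : J.IsPrime] : Ideal (Y.locRing J) :=
  Ideal.span (nonunits (Y.locRing J))

/-- `Y` has a Du Val singularity at `p`: the completed local ring is the ring of power series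
in three variables modulo an ADE equation. -/
def Var.DuVal {N : ℕ} (Y : Var N) (p : Fin (N + 1) → ℂ) : Prop :=
  ∃ f : PS, IsADE f ∧ Nonempty
    (AdicCompletion (Y.maxIdeal (ptIdeal p)) (Y.locRing (ptIdeal p)) ≃+* (PS ⧸ Ideal.span {f}))

/-- `C` is an irreducible closed curve on `Y`. -/
def Var.IsCurveOn {N : ℕ} (Y C : Var N) : Prop := Y.I ≤ C.I ∧ C.HasDim 1

/-- `Y` is uniruled: it is birationally ruled, its function field is `E(t)` with `E` of
transcendence degree one. -/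
def Var.Uniruled {N : ℕ} (Y : Var N) : Prop :=
  ∃ (E : IntermediateField ℂ Y.L) (t : Y.L), Algebra.trdeg ℂ E = 1 ∧
    IntermediateField.adjoin E {t} = ⊤

/-- Rational 2-forms on `Y`. -/
abbrev Var.Forms {N : ℕ} (Y : Var N) : Type := ⋀[Y.L]^2 (Ω[Y.L⁄ℂ])

/-- The 2-form `c da db`. -/
def Var.form {N : ℕ} (Y : Var N) (c a b : Y.L) : Y.Forms :=
  c • exteriorPower.ιMulti Y.L 2 ![KaehlerDifferential.D ℂ Y.L a, KaehlerDifferential.D ℂ Y.L b]

/-- The 2-forms regular along the curve `C`. -/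
def Var.regForms {N : ℕ} (Y C : Var N) : AddSubgroup Y.Forms :=
  AddSubgroup.closure {m | ∃ a ∈ Y.locRing C.I, ∃ b ∈ Y.locRing C.I, ∃ c ∈ Y.locRing C.I,
    m = Y.form c a b}

/-- The multiples `c ω` with `c` in the local ring of `Y` along `C`. -/
def Var.mults {N : ℕ} (Y C : Var N) (ω : Y.Forms) : Set Y.Forms :=
  {m | ∃ c ∈ Y.locRing C.I, m = c • ω}

/-- The multiples `c ω` with `c` in the maximal ideal of the local ring of `Y` along `C`. -/
def Var.maxMults {N : ℕ} (Y C : Var N) (ω : Y.Forms) : Set Y.Forms :=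
  {m | ∃ c : Y.locRing C.I, c ∈ Y.maxIdeal C.I ∧ m = (c : Y.L) • ω}

/-- `D`, the sum of the curves in the finite set `D`, is a simple normal crossings divisor. -/
structure SNC {N : ℕ} (Y : Var N) (D : Set (Var N)) : Prop where
  finite : D.Finite
  curve : ∀ C ∈ D, Y.IsCurveOn C
  smooth : ∀ C ∈ D, ∀ p, C.IsPt p → C.Regular p
  transversal : ∀ C ∈ D, ∀ C' ∈ D, C ≠ C' → ∀ p, C.IsPt p → C'.IsPt p →
    ∀ f ∈ ptIdeal p, ∃ g, g ∉ ptIdeal p ∧ g * f ∈ C.I ⊔ C'.I
  noTriple : ∀ C ∈ D, ∀ C' ∈ D, ∀ C'' ∈ D, C ≠ C' → C ≠ C'' → C' ≠ C'' →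
    ∀ p, ¬ (C.IsPt p ∧ C'.IsPt p ∧ C''.IsPt p)

/-- The pairs `(Y, D)` of the question. -/
structure LogCY {N : ℕ} (Y : Var N) (D : Set (Var N)) : Prop where
  surface : Y.HasDim 2
  normal : Y.Normal
  duVal : ∀ p, Y.IsPt p → Y.Regular p ∨ Y.DuVal p
  uniruled : Y.Uniruled
  snc : SNC Y D
  canonical : ∃ ω : Y.Forms, ω ≠ 0 ∧
    (∀ C, Y.IsCurveOn C → C ∉ D → (Y.regForms C : Set Y.Forms) = Y.mults C ω) ∧
    (∀ C ∈ D, (Y.regForms C : Set Y.Forms) = Y.maxMults C ω)

/-- The points of the open surface `U`: regular points of `Y` outside `D`. -/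
def IsU {N : ℕ} (Y : Var N) (D : Set (Var N)) (p : Fin (N + 1) → ℂ) : Prop :=
  Y.IsPt p ∧ Y.Regular p ∧ ∀ C ∈ D, ¬ C.IsPt p

/-- The value at `t` of a tuple of Laurent polynomials. -/
def val {N : ℕ} (φ : Fin (N + 1) → LaurentPolynomial ℂ) (t : ℂˣ) : Fin (N + 1) → ℂ :=
  fun i => LaurentPolynomial.eval₂ (RingHom.id ℂ) t (φ i)

/-- `φ` is a non-constant morphism from the multiplicative group to `U`. -/
def IsGmMap {N : ℕ} (Y : Var N) (D : Set (Var N)) (φ : Fin (N + 1) → LaurentPolynomial ℂ) :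
    Prop :=
  (∀ t, IsU Y D (val φ t)) ∧ ∃ t t', ∀ c : ℂ, val φ t ≠ c • val φ t'

/-- Through a general point of `U` passes the image of a non-constant morphism from the
multiplicative group to `U`. -/
def Dominated {N : ℕ} (Y : Var N) (D : Set (Var N)) : Prop :=
  ∃ H : S N, H ∉ Y.I ∧ (∃ n, H.IsHomogeneous n) ∧ ∀ p, IsU Y D p → eval p H ≠ 0 →
    ∃ φ, IsGmMap Y D φ ∧ ∃ t, ∃ c : ℂ, c ≠ 0 ∧ val φ t = c • p

/-- The value at `(s, t)` of a family of tuples of Laurent polynomials. -/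
def valT {N n : ℕ} (F : Fin (N + 1) → LaurentPolynomial (MvPolynomial (Fin n) ℂ))
    (s : Fin n → ℂ) (t : ℂˣ) : Fin (N + 1) → ℂ :=
  fun i => LaurentPolynomial.eval₂ (eval s) t (F i)

/-- `U` is dominated by images of the multiplicative group, literally: there are an affine
variety in affine `n`-space (with prime ideal `T`) and a morphism `F` from the product of this
variety and the multiplicative group to `U`, non-constant on every fibre over a point of the
variety, with image dense in `Y`. -/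
def DominatedT {N : ℕ} (Y : Var N) (D : Set (Var N)) : Prop :=
  ∃ (n : ℕ) (T : Ideal (MvPolynomial (Fin n) ℂ))
    (F : Fin (N + 1) → LaurentPolynomial (MvPolynomial (Fin n) ℂ)), T.IsPrime ∧
    (∀ s, (∀ f ∈ T, eval s f = 0) → (∀ t, IsU Y D (valT F s t)) ∧
      ∃ t t', ∀ c : ℂ, valT F s t ≠ c • valT F s t') ∧
    ∀ (H : S N) (m : ℕ), H.IsHomogeneous m → H ∉ Y.I →
      ∃ s, (∀ f ∈ T, eval s f = 0) ∧ ∃ t, eval (valT F s t) H ≠ 0

/-- The question. -/
def Question : Prop := ∀ (N : ℕ) (Y : Var N) (D : Set (Var N)), LogCY Y D → Dominated Y D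

end

end LCY
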