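import Mathlib

/-!
Abstract layer for MP_f7e214_ag: divisorial valuations, the bracket of a 2-form, linear systems.
-/

open Polynomial

namespace LCY

noncomputable section

/-- An element `t` of a field `L` over the complex numbers is residually transcendental for the
integer valued function `v`: all nonzero polynomials in `t` have value `0`. -/
def ResTr {L : Type} [Field L] [Algebra ℂ L] (v : L → ℤ) (t : L) : Prop :=
  ∀ P : ℂ[X], P ≠ 0 → aeval t P ≠ 0 ∧ v (aeval t P) = 0

/-- A divisorial valuation of `L` over the complex numbers (residue field of transcendence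
degree at least one), written with integer values; the value at `0` is irrelevant. -/
structure DVal (L : Type) [Field L] [Algebra ℂ L] where
  /-- the value of a nonzero element -/
  v : L → ℤ
  map_mul : ∀ a b, a ≠ 0 → b ≠ 0 → v (a * b) = v a + v b
  map_add : ∀ a b, a ≠ 0 → b ≠ 0 → a + b ≠ 0 → min (v a) (v b) ≤ v (a + b)
  map_const : ∀ c : ℂ, c ≠ 0 → v (algebraMap ℂ L c) = 0
  exists_unif : ∃ π, π ≠ 0 ∧ v π = 1
  exists_res : ∃ t, ResTr v t

variable {L : Type} [Field L] [Algebra ℂ L]

/-- `a` lies in the valuation ring of `v`. -/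
def DVal.Int (v : DVal L) (a : L) : Prop := a = 0 ∨ 0 ≤ v.v a

/-- `a` lies in the maximal ideal of `v`. -/
def DVal.Pos (v : DVal L) (a : L) : Prop := a = 0 ∨ 0 < v.v a

/-- Two divisorial valuations are the same place if they have the same values. -/
def DVal.Same (v w : DVal L) : Prop := ∀ a, a ≠ 0 → v.v a = w.v a

/-- A nonzero alternating biderivation of `L` over the complex numbers; `br a b` is the quotient
of `da ∧ db` by a fixed nonzero 2-form `ω`. -/
structure Bracket (L : Type) [Field L] [Algebra ℂ L] where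
  /-- the bracket -/
  br : L → L → L
  add_left : ∀ a b c, br (a + b) c = br a c + br b c
  mul_left : ∀ a b c, br (a * b) c = a * br b c + b * br a c
  const_left : ∀ (z : ℂ) c, br (algebraMap ℂ L z) c = 0
  alt : ∀ a, br a a = 0
  skew : ∀ a b, br a b = - br b a
  ne_zero : ∃ a b, br a b ≠ 0

/-- The value `v(ω)` of the 2-form at `v` is `k`. -/
def Bracket.Wt (ω : Bracket L) (v : DVal L) (k : ℤ) : Prop :=
  ∃ t π, ResTr v.v t ∧ π ≠ 0 ∧ v.v π = 1 ∧ ω.br t π ≠ 0 ∧ v.v (ω.br t π) = - k

/-- The least value of the functions `x i` (the first one is assumed nonzero) at `v` is `m`. -/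
def IsMin {N : ℕ} (x : Fin (N + 1) → L) (v : DVal L) (m : ℤ) : Prop :=
  (∀ i, x i ≠ 0 → m ≤ v.v (x i)) ∧ ∃ i, x i ≠ 0 ∧ v.v (x i) = m

/-- The place `v` is contracted by the linear system `x`: all quotients `x j / x i` that are
integral at `v` have constant residue. -/
def Contracted {N : ℕ} (x : Fin (N + 1) → L) (v : DVal L) : Prop :=
  ∀ i, x i ≠ 0 → (∀ j, v.Int (x j / x i)) → ∀ j, ∃ c : ℂ, v.Pos (x j / x i - algebraMap ℂ L c)

end

end LCY
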