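import Pool.Agent.Helper27.LCY.Defs
import Pool.Agent.Helper27.LCY.Abs

/-!
Statements of the bridge rows for MP_f7e214_ag: from the classical definition (`Defs.lean`) to the
abstract layer (`Abs.lean`).
-/

open MvPolynomial

namespace LCY

noncomputable section

/-- BR0. Some coordinate does not vanish on `Y`: its index. -/
def Var.i0 {N : ℕ} (Y : Var N) : Fin (N + 1) := Classical.choose Y.relevant

/-- The affine coordinate functions `x_i = X_i / X_{i0}` in the function field. -/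
def Var.x {N : ℕ} (Y : Var N) (i : Fin (N + 1)) : Y.L :=
  ⟨Y.cls (X i) / Y.cls (X Y.i0),
    ⟨1, X i, X Y.i0, isHomogeneous_X _ _, isHomogeneous_X _ _, Classical.choose_spec Y.relevant,
      Classical.choose_spec Y.relevant, rfl⟩⟩

/-- BR1. The function field of a surface has transcendence degree two and is finitely
generated. -/
def ST_BR1 : Prop := ∀ (N : ℕ) (Y : Var N), Y.HasDim 2 →
  Algebra.trdeg ℂ Y.L = 2 ∧ IntermediateField.adjoin ℂ (Set.range Y.x) = ⊤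

/-- BR2. The bracket of a nonzero 2-form on a field of transcendence degree two. -/
def ST_BR2 : Prop := ∀ (N : ℕ) (Y : Var N), Y.HasDim 2 → ∀ ω : Y.Forms, ω ≠ 0 →
  ∃ B : Bracket Y.L, ∀ a b, Y.form 1 a b = B.br a b • ω

/-- BR3. The local ring of a normal surface along a curve is the ring of a divisorial
valuation. -/
def ST_BR3 : Prop := ∀ (N : ℕ) (Y : Var N), Y.HasDim 2 → Y.Normal → ∀ C, Y.IsCurveOn C →
  ∃ v : DVal Y.L, ∀ a, v.Int a ↔ a ∈ Y.locRing C.I

/-- BR4. Every divisorial valuation has a centre on `Y`: a curve, of which it is the valuation,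
or a point (and then it is contracted by the coordinates). -/
def ST_BR4 : Prop := ∀ (N : ℕ) (Y : Var N), Y.HasDim 2 → Y.Normal → ∀ v : DVal Y.L,
  (¬ Contracted Y.x v ∧ ∃ C, Y.IsCurveOn C ∧ ∀ a, v.Int a ↔ a ∈ Y.locRing C.I) ∨
  (Contracted Y.x v ∧ ∃ p, Y.IsPt p ∧ (∀ a ∈ Y.locRing (ptIdeal p), v.Int a) ∧
    ∀ a : Y.locRing (ptIdeal p), ¬ IsUnit a → v.Pos (a : Y.L))

/-- BR5. Normality: a function that is integral along all curves through `p` is regular
at `p`. -/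
def ST_BR5 : Prop := ∀ (N : ℕ) (Y : Var N), Y.HasDim 2 → Y.Normal → ∀ p, Y.IsPt p →
  ∀ h : Y.L, (∀ C, Y.IsCurveOn C → C.IsPt p → h ∈ Y.locRing C.I) → h ∈ Y.locRing (ptIdeal p)

/-- BR6. The value of the 2-form along the curves of `Y`. -/
def ST_BR6 : Prop := ∀ (N : ℕ) (Y : Var N), Y.HasDim 2 → Y.Normal → ∀ (ω : Y.Forms)
  (B : Bracket Y.L), (∀ a b, Y.form 1 a b = B.br a b • ω) → ∀ C, Y.IsCurveOn C →
  ∀ v : DVal Y.L, (∀ a, v.Int a ↔ a ∈ Y.locRing C.I) →
  ((Y.regForms C : Set Y.Forms) = Y.mults C ω → B.Wt v 0) ∧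
  ((Y.regForms C : Set Y.Forms) = Y.maxMults C ω → B.Wt v (-1))

/-- BR7. Log canonicity: the value of the 2-form is at least `-1` at every divisorial
valuation, and it is at least `0` if the centre is a point outside `D` (helper93's rows). -/
def ST_BR7 : Prop := ∀ (N : ℕ) (Y : Var N) (D : Set (Var N)), LogCY Y D → ∀ (ω : Y.Forms)
  (B : Bracket Y.L), (∀ a b, Y.form 1 a b = B.br a b • ω) →
  (∀ C, Y.IsCurveOn C → C ∉ D → (Y.regForms C : Set Y.Forms) = Y.mults C ω) →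
  (∀ C ∈ D, (Y.regForms C : Set Y.Forms) = Y.maxMults C ω) →
  ∀ (v : DVal Y.L) (k : ℤ), B.Wt v k → -1 ≤ k ∧
    (∀ p, Y.IsPt p → (∀ C ∈ D, ¬ C.IsPt p) → (∀ a ∈ Y.locRing (ptIdeal p), v.Int a) →
      (∀ a : Y.locRing (ptIdeal p), ¬ IsUnit a → v.Pos (a : Y.L)) → 0 ≤ k)

/-- BR8. Existence and uniqueness of the value of the 2-form at a divisorial valuation. -/
def ST_BR8 : Prop := ∀ (N : ℕ) (Y : Var N), Y.HasDim 2 → ∀ (B : Bracket Y.L) (v : DVal Y.L),
  ∃ k : ℤ, ∀ t π, ResTr v.v t → π ≠ 0 → v.v π = 1 → B.br t π ≠ 0 ∧ v.v (B.br t π) = - k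

/-- BR9. The basic inequality (helper93's (B)). -/
def ST_BR9 : Prop := ∀ (N : ℕ) (Y : Var N), Y.HasDim 2 → ∀ (B : Bracket Y.L) (v : DVal Y.L)
  (k : ℤ), B.Wt v k → ∀ a b, a ≠ 0 → b ≠ 0 → B.br a b ≠ 0 →
  v.v a + v.v b - 1 - k ≤ v.v (B.br a b)

end

end LCY
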