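import Pool.Agent.Helper27.LCY.Abs

namespace LCY

noncomputable section

variable {L : Type} [Field L] [Algebra ℂ L]

/-- `V` is a ring of fractions of `A` inside the field `L`. -/
structure IsFracOf (A V : Subalgebra ℂ L) : Prop where
  le : A ≤ V
  frac : ∀ z ∈ V, ∃ a ∈ A, ∃ s ∈ A, s ≠ 0 ∧ s⁻¹ ∈ V ∧ z = a * s⁻¹

/-- The denominators. -/
def denoms (A V : Subalgebra ℂ L) : Submonoid A where
  carrier := {s | (s : L) ≠ 0 ∧ (s : L)⁻¹ ∈ V}
  mul_mem' := by
    rintro a b ⟨ha, ha'⟩ ⟨hb, hb'⟩
    refine ⟨?_, ?_⟩
    · exact mul_ne_zero ha hb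
    · have : ((a * b : A) : L)⁻¹ = (a : L)⁻¹ * (b : L)⁻¹ := by
        rw [← mul_inv]; rfl
      rw [this]
      exact V.mul_mem ha' hb'
  one_mem' := ⟨one_ne_zero, by
    have : (((1 : A) : L))⁻¹ = 1 := inv_one
    rw [this]; exact V.one_mem⟩

theorem denoms_le (A V : Subalgebra ℂ L) : denoms A V ≤ nonZeroDivisors A := by
  intro s hs
  apply mem_nonZeroDivisors_of_ne_zero
  intro h
  exact hs.1 (by rw [h]; rfl)

theorem IsFracOf.isLocalization {A V : Subalgebra ℂ L} (h : IsFracOf A V) :
    letI : Algebra A V := (Subalgebra.inclusion h.le).toAlgebra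
    IsLocalization (denoms A V) V := by
  let _ : Algebra A V := (Subalgebra.inclusion h.le).toAlgebra
  constructor
  constructor
  · intro s
    refine IsUnit.of_mul_eq_one ⟨(s : L)⁻¹, s.2.2⟩ ?_
    apply Subtype.ext
    exact mul_inv_cancel₀ s.2.1
  · intro z
    obtain ⟨a, ha, s, hs, hs0, hsi, hz⟩ := h.frac z z.2
    refine ⟨⟨⟨a, ha⟩, ⟨⟨s, hs⟩, hs0, hsi⟩⟩, ?_⟩
    apply Subtype.ext
    change (z : L) * s = a
    rw [hz, inv_mul_cancel_right₀ hs0]
  · intro x y hxy
    refine ⟨1, ?_⟩
    have : (x : L) = y := congrArg (Subtype.val : V → L) hxy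
    rw [Subtype.ext this]

theorem IsFracOf.noeth {A V : Subalgebra ℂ L} (h : IsFracOf A V) (hA : IsNoetherianRing A) :
    IsNoetherianRing V := by
  let _ : Algebra A V := (Subalgebra.inclusion h.le).toAlgebra
  have := h.isLocalization
  exact IsLocalization.isNoetherianRing (denoms A V) V hA

theorem IsFracOf.intClosed {A V : Subalgebra ℂ L} (h : IsFracOf A V)
    (hA : IsIntegrallyClosed A) : IsIntegrallyClosed V := by
  let _ : Algebra A V := (Subalgebra.inclusion h.le).toAlgebra
  have := h.isLocalization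
  exact isIntegrallyClosed_of_isLocalization V (denoms A V) (denoms_le A V)

theorem isFractionRing_of {V : Subalgebra ℂ L}
    (h : ∀ z : L, ∃ a ∈ V, ∃ b ∈ V, b ≠ 0 ∧ z = a * b⁻¹) : IsFractionRing V L := by
  constructor
  constructor
  · intro s
    apply IsUnit.mk0
    intro h0
    have : (s : V) = 0 := Subtype.ext h0
    exact nonZeroDivisors.ne_zero s.2 this
  · intro z
    obtain ⟨a, ha, b, hb, hb0, hz⟩ := h z
    refine ⟨⟨⟨a, ha⟩, ⟨⟨b, hb⟩, ?_⟩⟩, ?_⟩
    · apply mem_nonZeroDivisors_of_ne_zero
      intro h0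
      exact hb0 (congrArg Subtype.val h0)
    · change z * b = a
      rw [hz, inv_mul_cancel_right₀ hb0]
  · intro x y hxy
    refine ⟨1, ?_⟩
    have : (x : L) = y := hxy
    rw [Subtype.ext this]

open IsDedekindDomain HeightOneSpectrum in
/-- The divisorial valuation of a discrete valuation ring. -/
theorem exists_dval (V : Subalgebra ℂ L) [IsFractionRing V L] [IsDiscreteValuationRing V]
    (t : V) (ht : ∀ P : Polynomial ℂ, P ≠ 0 → IsUnit (Polynomial.aeval t P)) :
    ∃ v : DVal L, ∀ a, v.Int a ↔ a ∈ V := by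
  set w := (IsDiscreteValuationRing.maximalIdeal V).valuation L with hw
  have hne : ∀ a : L, a ≠ 0 → w a ≠ 0 := fun a ha => (Valuation.ne_zero_iff w).2 ha
  have hunit : ∀ u : V, IsUnit u → w (u : L) = 1 := by
    intro u hu
    have h1 : w (algebraMap V L u) ≤ 1 := valuation_le_one _ u
    have h2 : w (algebraMap V L u) * w (algebraMap V L (hu.unit⁻¹ : Vˣ)) = 1 := by
      rw [← map_mul, ← map_mul]
      simp
    have h3 : w (algebraMap V L (hu.unit⁻¹ : Vˣ)) ≤ 1 := valuation_le_one _ _
    have h4 : w (algebraMap V L u) = 1 := by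
      apply le_antisymm h1
      rw [← h2]
      exact mul_le_of_le_one_right' h3
    exact h4
  refine ⟨⟨fun a => - WithZero.log (w a), ?_, ?_, ?_, ?_, ?_⟩, ?_⟩
  · intro a b ha hb
    rw [map_mul, WithZero.log_mul (hne a ha) (hne b hb)]
    ring
  · intro a b ha hb hab
    have h1 := w.map_add a b
    rcases le_max_iff.1 h1 with h2 | h2
    · have h3 := (WithZero.log_le_log (hne _ hab) (hne a ha)).2 h2
      exact min_le_of_left_le (neg_le_neg h3)
    · have h3 := (WithZero.log_le_log (hne _ hab) (hne b hb)).2 h2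
      exact min_le_of_right_le (neg_le_neg h3)
  · intro c hc
    have h1 : IsUnit (algebraMap ℂ V c) := (IsUnit.mk0 c hc).map _
    have h2 := hunit _ h1
    have h3 : ((algebraMap ℂ V c : V) : L) = algebraMap ℂ L c := rfl
    rw [h3] at h2
    rw [h2, WithZero.log_one, neg_zero]
  · obtain ⟨π, hπ⟩ := (IsDiscreteValuationRing.maximalIdeal V).valuation_exists_uniformizer L
    refine ⟨π, ?_, ?_⟩
    · rintro rfl
      rw [map_zero] at hπ
      exact WithZero.exp_ne_zero hπ.symm
    · rw [hw, hπ, WithZero.log_exp]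
      norm_num
  · refine ⟨(t : L), ?_⟩
    intro P hP
    have h1 := ht P hP
    have h3 : ((Polynomial.aeval t P : V) : L) = Polynomial.aeval (t : L) P := by
      have := Polynomial.aeval_algHom_apply V.val t P
      exact this.symm
    refine ⟨?_, ?_⟩
    · rw [← h3]
      intro h0
      exact h1.ne_zero (Subtype.ext h0)
    · rw [← h3]
      change - WithZero.log (w _) = 0
      rw [hunit _ h1, WithZero.log_one, neg_zero]
  · intro a
    constructor
    · rintro (rfl | h)
      · exact V.zero_mem
      · by_cases ha : a = 0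
        · rw [ha]; exact V.zero_mem
        have h1 : w a ≤ 1 := by
          have h2 : WithZero.log (w a) ≤ WithZero.log (1 : WithZero (Multiplicative ℤ)) := by
            rw [WithZero.log_one]
            change 0 ≤ - WithZero.log (w a) at h
            linarith
          exact (WithZero.log_le_log (hne a ha) one_ne_zero).1 h2
        have h2 : a ∈ (algebraMap V L).range := by
          apply mem_integers_of_valuation_le_one L a
          intro v
          have hv : v = IsDiscreteValuationRing.maximalIdeal V := by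
            apply HeightOneSpectrum.ext
            have := v.isMaximal
            exact IsLocalRing.eq_maximalIdeal this
          rw [hv]
          exact h1
        obtain ⟨b, rfl⟩ := h2
        exact b.2
    · intro h
      by_cases ha : a = 0
      · exact Or.inl ha
      right
      have h1 : w (algebraMap V L ⟨a, h⟩) ≤ 1 := valuation_le_one _ _
      have h2 : w a ≤ 1 := h1
      have h3 := (WithZero.log_le_log (hne a ha) one_ne_zero).2 h2
      rw [WithZero.log_one] at h3
      change 0 ≤ - WithZero.log (w a)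
      linarith

end

end LCY
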