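import Mathlib

namespace LCY

noncomputable section

section trd

variable {R : Type} [CommRing R] [IsDomain R] [Algebra ℂ R]

/-- The transcendence degree drops modulo a nonzero prime. -/
theorem trdeg_quot_lt {n : ℕ} (h : Algebra.trdeg ℂ R = n) {R' : Type} [CommRing R']
    [IsDomain R'] [Algebra ℂ R'] (φ : R →ₐ[ℂ] R') (hs : Function.Surjective φ)
    {f : R} (hf : f ≠ 0) (hf0 : φ f = 0) : Algebra.trdeg ℂ R' < n := by
  by_contra hc
  rw [not_lt] at hc
  -- a large independent family in the quotient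
  obtain ⟨x, hx⟩ : ∃ x : Fin n → R', AlgebraicIndependent ℂ x := by
    obtain ⟨ι, y, hy⟩ := exists_isTranscendenceBasis' ℂ R'
    have h1 : Cardinal.mk (Fin n) ≤ Cardinal.mk ι := by
      rw [hy.cardinalMk_eq_trdeg, Cardinal.mk_fin]
      exact hc
    obtain ⟨e⟩ := h1
    exact ⟨y ∘ e, hy.1.comp e e.injective⟩
  choose t ht using fun i => hs (x i)
  have hxt : (φ : R → R') ∘ t = x := funext ht
  have hti : AlgebraicIndependent ℂ t := AlgebraicIndependent.of_comp φ (by rw [hxt]; exact hx)
  have hb : IsTranscendenceBasis ℂ t :=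
    hti.isTranscendenceBasis_of_trdeg_le_of_finite (by rw [h]; simp)
  have halg := hb.isAlgebraic
  obtain ⟨r, hr, s, hrs⟩ := (halg.1 f).exists_nonzero_dvd (mem_nonZeroDivisors_of_ne_zero hf)
  obtain ⟨g, hg⟩ : ∃ g, MvPolynomial.aeval t g = (r : R) := by
    have hr2 : (r : R) ∈ Algebra.adjoin ℂ (Set.range t) := r.2
    generalize (r : R) = r' at hr2
    rw [Algebra.adjoin_range_eq_range_aeval] at hr2
    exact hr2
  have h1 : φ (r : R) = 0 := by
    have : (r : R) = f * s := hrs
    rw [this, map_mul, hf0, zero_mul]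
  have h2 : MvPolynomial.aeval x g = 0 := by
    rw [← hxt, ← h1, ← hg]
    have := MvPolynomial.comp_aeval (R := ℂ) t φ
    exact (DFunLike.congr_fun this g).symm
  have h3 : g = 0 := by
    have := hx
    rw [algebraicIndependent_iff] at this
    exact this g h2
  apply hr
  apply Subtype.ext
  rw [← hg, h3]
  simp

end trd

end

end LCY
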