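import Pool.Agent.Helper27.LCY.BR1
import Pool.Agent.Helper27.LCY.Trd
import Pool.Agent.Helper27.LCY.Loc

open MvPolynomial

namespace LCY

noncomputable section

/-- A subalgebra with fraction field `L` has the same transcendence degree. -/
theorem trdeg_eq_of_frac {L : Type} [Field L] [Algebra ℂ L] (V : Subalgebra ℂ L)
    [IsFractionRing V L] : Algebra.trdeg ℂ V = Algebra.trdeg ℂ L := by
  have h2 : Algebra.trdeg ℂ V + Algebra.trdeg V L = Algebra.trdeg ℂ L := trdeg_add_eq ℂ V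
  have h3 : Algebra.IsAlgebraic V L := IsLocalization.isAlgebraic L (nonZeroDivisors V)
  have h5 : Algebra.trdeg V L = 0 := trdeg_eq_zero
  rw [← h2, h5, add_zero]

theorem Var.trdeg_quot {N : ℕ} (Y : Var N) :
    Algebra.trdeg ℂ (S N ⧸ Y.I) = Algebra.trdeg ℂ Y.L + 1 := by
  have h1 : Algebra.trdeg ℂ Y.L + Algebra.trdeg Y.L Y.K = Algebra.trdeg ℂ Y.K :=
    trdeg_add_eq ℂ Y.L
  have h2 : Algebra.trdeg ℂ (S N ⧸ Y.I) + Algebra.trdeg (S N ⧸ Y.I) Y.K =
      Algebra.trdeg ℂ Y.K := trdeg_add_eq ℂ (S N ⧸ Y.I)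
  have h3 : Algebra.IsAlgebraic (S N ⧸ Y.I) Y.K :=
    IsLocalization.isAlgebraic Y.K (nonZeroDivisors (S N ⧸ Y.I))
  have h5 : Algebra.trdeg (S N ⧸ Y.I) Y.K = 0 := trdeg_eq_zero
  rw [h5, add_zero] at h2
  rw [h2, ← h1, Y.trdeg_K]

/-! Affine coordinates. -/

/-- The quotient `X_j / X_i`. -/
def Var.y {N : ℕ} (Y : Var N) (i j : Fin (N + 1)) : Y.L := Y.x j / Y.x i

theorem Var.coe_y {N : ℕ} (Y : Var N) (i j : Fin (N + 1)) :
    ((Y.y i j : Y.L) : Y.K) = Y.cls (X j) / Y.cls (X i) := by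
  have : ((Y.y i j : Y.L) : Y.K) = (Y.cls (X j) / Y.T) / (Y.cls (X i) / Y.T) := rfl
  rw [this]
  exact div_div_div_cancel_right₀ Y.T_ne _ _

theorem Var.aeval_y {N : ℕ} (Y : Var N) (i : Fin (N + 1)) {f : S N} {n : ℕ}
    (hf : f.IsHomogeneous n) :
    ((aeval (Y.y i) f : Y.L) : Y.K) = Y.cls f / Y.cls (X i) ^ n := by
  have h1 : ((aeval (Y.y i) f : Y.L) : Y.K) = aeval (fun j => ((Y.y i j : Y.L) : Y.K)) f := by
    have : (Y.L.val) (aeval (Y.y i) f) = aeval (fun j => Y.L.val (Y.y i j)) f := by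
      have h2 := MvPolynomial.comp_aeval (R := ℂ) (Y.y i) Y.L.val
      rw [← AlgHom.comp_apply, h2]
    exact this
  have h3 : (fun j => ((Y.y i j : Y.L) : Y.K)) = fun j => (Y.cls (X i))⁻¹ * Y.cls (X j) := by
    funext j
    rw [Y.coe_y, div_eq_inv_mul]
  rw [h1, h3, aeval_smul_hom _ _ hf, Y.aeval_cls, inv_pow, div_eq_inv_mul]

theorem Var.y_self {N : ℕ} (Y : Var N) {i : Fin (N + 1)} (hi : (X i : S N) ∉ Y.I) :
    Y.y i i = 1 := by
  apply Subtype.ext
  rw [Y.coe_y]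
  exact div_self (Y.cls_ne hi)

theorem Var.aeval_y_eq_zero {N : ℕ} (Y : Var N) {i : Fin (N + 1)} (hi : (X i : S N) ∉ Y.I)
    {f : S N} {n : ℕ} (hf : f.IsHomogeneous n) : aeval (Y.y i) f = 0 ↔ f ∈ Y.I := by
  have h1 := Y.aeval_y i hf
  constructor
  · intro h
    rw [h] at h1
    by_contra hc
    have h2 : Y.cls f / Y.cls (X i) ^ n ≠ 0 :=
      div_ne_zero (Y.cls_ne hc) (pow_ne_zero n (Y.cls_ne hi))
    exact h2 h1.symm
  · intro h
    apply Subtype.ext
    rw [h1, Y.cls_eq_zero h, zero_div]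
    rfl

/-! The subvariety with a given generic point. -/

section gen

variable {N : ℕ} {R' : Type} [CommRing R'] [Algebra ℂ R']

/-- The homogeneous ideal of the generic point `y`. -/
def genIdeal (y : Fin (N + 1) → R') : Ideal (S N) :=
  RingHom.ker (aeval (fun i => Polynomial.C (y i) * Polynomial.X) : S N →ₐ[ℂ] Polynomial R')

theorem aeval_CX (y : Fin (N + 1) → R') {f : S N} {n : ℕ} (hf : f.IsHomogeneous n) :
    (aeval (fun i => Polynomial.C (y i) * Polynomial.X) : S N →ₐ[ℂ] Polynomial R') f =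
      Polynomial.C (aeval y f) * Polynomial.X ^ n := by
  have h1 : (fun i => Polynomial.C (y i) * Polynomial.X) =
      fun i => Polynomial.X * Polynomial.C (y i) := by
    funext i
    rw [mul_comm]
  rw [h1, aeval_smul_hom _ _ hf, mul_comm]
  congr 1
  have := MvPolynomial.aeval_algebraMap_apply (Polynomial R') y f
  exact this

theorem mem_genIdeal_iff (y : Fin (N + 1) → R') {f : S N} {n : ℕ} (hf : f.IsHomogeneous n) :
    f ∈ genIdeal y ↔ aeval y f = 0 := by
  unfold genIdeal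
  rw [RingHom.mem_ker]
  change (aeval (fun i => Polynomial.C (y i) * Polynomial.X) : S N →ₐ[ℂ] Polynomial R') f = 0 ↔ _
  rw [aeval_CX y hf]
  constructor
  · intro h
    have := congrArg (fun p => Polynomial.coeff p n) h
    simpa only [Polynomial.coeff_C_mul, Polynomial.coeff_X_pow_self, mul_one,
      Polynomial.coeff_zero] using this
  · intro h
    rw [h, map_zero, zero_mul]

theorem genIdeal_hom (y : Fin (N + 1) → R') (f : S N) (hf : f ∈ genIdeal y) (n : ℕ) :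
    homogeneousComponent n f ∈ genIdeal y := by
  have hf' : (aeval (fun i => Polynomial.C (y i) * Polynomial.X) : S N →ₐ[ℂ] Polynomial R') f
    = 0 := hf
  rw [mem_genIdeal_iff y (homogeneousComponent_isHomogeneous n f)]
  rw [← MvPolynomial.sum_homogeneousComponent f, map_sum] at hf'
  simp_rw [aeval_CX y (homogeneousComponent_isHomogeneous _ f)] at hf'
  have h2 := congrArg (fun p => Polynomial.coeff p n) hf'
  simp only [Polynomial.finsetSum_coeff, Polynomial.coeff_C_mul, Polynomial.coeff_X_pow,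
    mul_ite, mul_one, mul_zero, Polynomial.coeff_zero] at h2
  rw [Finset.sum_ite_eq (Finset.range (f.totalDegree + 1)) n] at h2
  by_cases hn : n ∈ Finset.range (f.totalDegree + 1)
  · rwa [if_pos hn] at h2
  · rw [Finset.mem_range, not_lt] at hn
    rw [homogeneousComponent_eq_zero n f (by omega), map_zero]

theorem genIdeal_pt (p : Fin (N + 1) → ℂ) : genIdeal p = ptIdeal p := rfl

/-- The subvariety with generic point `y`. -/
def genVar [IsDomain R'] (y : Fin (N + 1) → R') (i : Fin (N + 1)) (hi : y i = 1) : Var N where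
  I := genIdeal y
  prime := RingHom.ker_isPrime _
  homogeneous := genIdeal_hom y
  relevant := ⟨i, by
    rw [mem_genIdeal_iff y (isHomogeneous_X _ _), aeval_X, hi]
    exact one_ne_zero⟩

/-- Homogenisation with the coordinate `X_i`. -/
theorem exists_hom (i : Fin (N + 1)) (f : S N) : ∃ (g : S N) (n : ℕ), g.IsHomogeneous n ∧
    ∀ {R'' : Type} [CommRing R''] [Algebra ℂ R''] (y : Fin (N + 1) → R''), y i = 1 →
      aeval y g = aeval y f := by
  refine ⟨∑ k ∈ Finset.range (f.totalDegree + 1),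
    X i ^ (f.totalDegree - k) * homogeneousComponent k f, f.totalDegree, ?_, ?_⟩
  · refine IsHomogeneous.sum _ _ _ ?_
    intro k hk
    have h1 : (X i ^ (f.totalDegree - k) * homogeneousComponent k f : S N).IsHomogeneous
        (1 * (f.totalDegree - k) + k) :=
      ((isHomogeneous_X ℂ i).pow _).mul (homogeneousComponent_isHomogeneous k f)
    have h2 : 1 * (f.totalDegree - k) + k = f.totalDegree := by
      rw [Finset.mem_range] at hk
      omega
    rwa [h2] at h1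
  · intro R'' _ _ y hy
    rw [map_sum]
    have h1 : ∀ k, aeval y (X i ^ (f.totalDegree - k) * homogeneousComponent k f : S N) =
        aeval y (homogeneousComponent k f) := by
      intro k
      rw [map_mul, map_pow, aeval_X, hy, one_pow, one_mul]
    simp_rw [h1]
    rw [← map_sum, MvPolynomial.sum_homogeneousComponent]

theorem Var.frac_y {N : ℕ} (Y : Var N) {i : Fin (N + 1)} (hi : (X i : S N) ∉ Y.I) (z : Y.L) :
    ∃ a ∈ (aeval (Y.y i) : S N →ₐ[ℂ] Y.L).range, ∃ b ∈ (aeval (Y.y i) : S N →ₐ[ℂ] Y.L).range,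
      b ≠ 0 ∧ z = a * b⁻¹ := by
  obtain ⟨n, F, G, hF, hG, -, hGI, hz⟩ := z.2
  refine ⟨aeval (Y.y i) F, ⟨F, rfl⟩, aeval (Y.y i) G, ⟨G, rfl⟩, ?_, ?_⟩
  · rw [Ne, Y.aeval_y_eq_zero hi hG]
    exact hGI
  · apply Subtype.ext
    change (z : Y.K) = ((aeval (Y.y i) F : Y.L) : Y.K) * (((aeval (Y.y i) G : Y.L) : Y.K))⁻¹
    rw [Y.aeval_y i hF, Y.aeval_y i hG, hz, ← div_eq_mul_inv]
    exact (div_div_div_cancel_right₀ (pow_ne_zero n (Y.cls_ne hi)) _ _).symm

theorem Var.trdeg_L_eq {N : ℕ} (Y : Var N) {i : Fin (N + 1)} (hi : (X i : S N) ∉ Y.I) :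
    Algebra.trdeg ℂ Y.L = Algebra.trdeg ℂ (S N ⧸ RingHom.ker (aeval (Y.y i) : S N →ₐ[ℂ] Y.L)) := by
  have h1 : IsFractionRing (aeval (Y.y i) : S N →ₐ[ℂ] Y.L).range Y.L :=
    isFractionRing_of (Y.frac_y hi)
  rw [← trdeg_eq_of_frac (aeval (Y.y i) : S N →ₐ[ℂ] Y.L).range]
  exact (Ideal.quotientKerEquivRange (aeval (Y.y i) : S N →ₐ[ℂ] Y.L)).trdeg_eq.symm

theorem trdeg_genVar [IsDomain R'] (y : Fin (N + 1) → R') (i : Fin (N + 1)) (hi : y i = 1) :
    Algebra.trdeg ℂ (S N ⧸ (genVar y i hi).I) =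
      Algebra.trdeg ℂ (aeval y : S N →ₐ[ℂ] R').range + 1 := by
  set Y := genVar y i hi with hY
  have hi' : (X i : S N) ∉ Y.I := by
    change X i ∉ genIdeal y
    rw [mem_genIdeal_iff y (isHomogeneous_X _ _), aeval_X, hi]
    exact one_ne_zero
  rw [Y.trdeg_quot, Y.trdeg_L_eq hi']
  have h1 : RingHom.ker (aeval (Y.y i) : S N →ₐ[ℂ] Y.L) =
      RingHom.ker (aeval y : S N →ₐ[ℂ] R') := by
    ext f
    obtain ⟨g, n, hg, hgf⟩ := exists_hom i f
    rw [RingHom.mem_ker, RingHom.mem_ker]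
    change aeval (Y.y i) f = 0 ↔ aeval y f = 0
    rw [← hgf (Y.y i) (Y.y_self hi'), ← hgf y hi, Y.aeval_y_eq_zero hi' hg]
    exact mem_genIdeal_iff y hg
  rw [h1]
  congr 1
  exact (Ideal.quotientKerEquivRange (aeval y : S N →ₐ[ℂ] R')).trdeg_eq

end gen

end

end LCY
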