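import Pool.Agent.Helper27.LCY.Dvr

open MvPolynomial

namespace LCY

noncomputable section

variable {N : ℕ}

theorem Var.aeval_y_mem (Y : Var N) (J : Ideal (S N)) [hJ : J.IsPrime] (hIJ : Y.I ≤ J)
    {i : Fin (N + 1)} (hi : (X i : S N) ∉ J) (f : S N) : aeval (Y.y i) f ∈ Y.locRing J := by
  have hiI : (X i : S N) ∉ Y.I := fun h => hi (hIJ h)
  obtain ⟨g, n, hg, hgf⟩ := exists_hom i f
  rw [← hgf (Y.y i) (Y.y_self hiI), Y.mem_locRing]
  refine ⟨n, g, X i ^ n, hg, ?_, ?_, ?_, ?_⟩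
  · have := (isHomogeneous_X ℂ i).pow n
    rwa [one_mul] at this
  · exact fun h => hi (hJ.mem_of_pow_mem n h)
  · exact fun h => hiI (Y.prime.mem_of_pow_mem n h)
  · rw [Y.aeval_y i hg]
    congr 1
    simp [Var.cls]

theorem Var.aeval_y_unit (Y : Var N) (J : Ideal (S N)) [hJ : J.IsPrime] (hIJ : Y.I ≤ J)
    {i : Fin (N + 1)} (hi : (X i : S N) ∉ J) {f : S N} {n : ℕ} (hf : f.IsHomogeneous n)
    (hfJ : f ∉ J) : aeval (Y.y i) f ≠ 0 ∧ (aeval (Y.y i) f)⁻¹ ∈ Y.locRing J := by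
  have hiI : (X i : S N) ∉ Y.I := fun h => hi (hIJ h)
  have hfI : f ∉ Y.I := fun h => hfJ (hIJ h)
  refine ⟨?_, ?_⟩
  · rw [Ne, Y.aeval_y_eq_zero hiI hf]
    exact hfI
  · rw [Y.mem_locRing]
    refine ⟨n, X i ^ n, f, ?_, hf, hfJ, hfI, ?_⟩
    · have := (isHomogeneous_X ℂ i).pow n
      rwa [one_mul] at this
    · change (((aeval (Y.y i) f : Y.L) : Y.K))⁻¹ = _
      rw [Y.aeval_y i hf, inv_div]
      congr 1
      simp [Var.cls]

theorem Var.eq_y (Y : Var N) {i : Fin (N + 1)} (hi : (X i : S N) ∉ Y.I) {z : Y.L} {n : ℕ}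
    {F G : S N} (hF : F.IsHomogeneous n) (hG : G.IsHomogeneous n)
    (hz : (z : Y.K) = Y.cls F / Y.cls G) :
    z = aeval (Y.y i) F * (aeval (Y.y i) G)⁻¹ := by
  apply Subtype.ext
  change (z : Y.K) = ((aeval (Y.y i) F : Y.L) : Y.K) * (((aeval (Y.y i) G : Y.L) : Y.K))⁻¹
  rw [Y.aeval_y i hF, Y.aeval_y i hG, hz, ← div_eq_mul_inv]
  exact (div_div_div_cancel_right₀ (pow_ne_zero n (Y.cls_ne hi)) _ _).symm

theorem Var.isFracOf_aff (Y : Var N) (J : Ideal (S N)) [hJ : J.IsPrime] (hIJ : Y.I ≤ J)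
    {i : Fin (N + 1)} (hi : (X i : S N) ∉ J) :
    IsFracOf (aeval (Y.y i) : S N →ₐ[ℂ] Y.L).range (Y.locRing J) := by
  have hiI : (X i : S N) ∉ Y.I := fun h => hi (hIJ h)
  constructor
  · rintro _ ⟨f, rfl⟩
    exact Y.aeval_y_mem J hIJ hi f
  · intro z hz
    obtain ⟨n, F, G, hF, hG, hGJ, hGI, hz'⟩ := hz
    obtain ⟨h1, h2⟩ := Y.aeval_y_unit J hIJ hi hG hGJ
    exact ⟨aeval (Y.y i) F, ⟨F, rfl⟩, aeval (Y.y i) G, ⟨G, rfl⟩, h1, h2, Y.eq_y hiI hF hG hz'⟩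

theorem Var.isFracOf_loc (Y : Var N) (J J' : Ideal (S N)) [hJ : J.IsPrime] [hJ' : J'.IsPrime]
    (hIJ : Y.I ≤ J) (hJJ' : J ≤ J') {i : Fin (N + 1)} (hi : (X i : S N) ∉ J') :
    IsFracOf (Y.locRing J') (Y.locRing J) := by
  have hiJ : (X i : S N) ∉ J := fun h => hi (hJJ' h)
  have hiI : (X i : S N) ∉ Y.I := fun h => hiJ (hIJ h)
  constructor
  · rintro z ⟨n, F, G, hF, hG, hGJ, hGI, hz'⟩
    exact ⟨n, F, G, hF, hG, fun h => hGJ (hJJ' h), hGI, hz'⟩
  · intro z hz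
    obtain ⟨n, F, G, hF, hG, hGJ, hGI, hz'⟩ := hz
    obtain ⟨h1, h2⟩ := Y.aeval_y_unit J hIJ hiJ hG hGJ
    exact ⟨aeval (Y.y i) F, Y.aeval_y_mem J' (hIJ.trans hJJ') hi F, aeval (Y.y i) G,
      Y.aeval_y_mem J' (hIJ.trans hJJ') hi G, h1, h2, Y.eq_y hiI hF hG hz'⟩

theorem Var.noeth_locRing (Y : Var N) (J : Ideal (S N)) [hJ : J.IsPrime] (hIJ : Y.I ≤ J)
    {i : Fin (N + 1)} (hi : (X i : S N) ∉ J) : IsNoetherianRing (Y.locRing J) :=
  (Y.isFracOf_aff J hIJ hi).noeth (AlgHom.isNoetherianRing_range _)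

theorem Var.frac_locRing (Y : Var N) (J : Ideal (S N)) [hJ : J.IsPrime] (hIJ : Y.I ≤ J)
    {i : Fin (N + 1)} (hi : (X i : S N) ∉ J) : IsFractionRing (Y.locRing J) Y.L := by
  have hiI : (X i : S N) ∉ Y.I := fun h => hi (hIJ h)
  apply isFractionRing_of
  intro z
  obtain ⟨a, ha, b, hb, hb0, hz⟩ := Y.frac_y hiI z
  exact ⟨a, (Y.isFracOf_aff J hIJ hi).le ha, b, (Y.isFracOf_aff J hIJ hi).le hb, hb0, hz⟩

/-- Every projective variety has a point. -/
theorem Var.exists_pt (C : Var N) {i : Fin (N + 1)} (hi : (X i : S N) ∉ C.I) :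
    ∃ p, C.IsPt p ∧ p i = 1 := by
  set I : Ideal (S N) := RingHom.ker (aeval (C.y i) : S N →ₐ[ℂ] C.L) with hI
  have hI1 : I ≠ ⊤ := RingHom.ker_ne_top _
  obtain ⟨M, hM, hIM⟩ := Ideal.exists_le_maximal I hI1
  obtain ⟨p, hp⟩ := MvPolynomial.isMaximal_iff_eq_vanishingIdeal_singleton.1 hM
  have hev : ∀ f ∈ I, eval p f = 0 := by
    intro f hf
    have h1 := hIM hf
    rw [hp, MvPolynomial.mem_vanishingIdeal_singleton_iff] at h1
    exact h1
  have hpi : p i = 1 := by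
    have h1 : (X i - 1 : S N) ∈ I := by
      rw [hI, RingHom.mem_ker]
      change aeval (C.y i) (X i - 1 : S N) = 0
      rw [map_sub, aeval_X, map_one, C.y_self hi, sub_self]
    have h2 := hev _ h1
    rw [map_sub, eval_X, map_one] at h2
    exact sub_eq_zero.1 h2
  refine ⟨p, ⟨?_, ?_⟩, hpi⟩
  · intro h
    rw [h] at hpi
    exact zero_ne_one hpi
  · intro f hf
    rw [← MvPolynomial.sum_homogeneousComponent f, map_sum]
    refine Finset.sum_eq_zero ?_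
    intro n _
    apply hev
    rw [hI, RingHom.mem_ker]
    exact (C.aeval_y_eq_zero hi (homogeneousComponent_isHomogeneous n f)).2
      (C.homogeneous f hf n)

theorem Var.intClosed_locRing (Y : Var N) (hY : Y.Normal) (C : Var N) (hC : Y.I ≤ C.I) :
    IsIntegrallyClosed (Y.locRing C.I) := by
  obtain ⟨i, hi⟩ := C.relevant
  obtain ⟨p, hp, hpi⟩ := C.exists_pt hi
  have hpY : Y.IsPt p := ⟨hp.1, fun f hf => hp.2 f (hC hf)⟩
  have hip : (X i : S N) ∉ ptIdeal p := by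
    rw [mem_ptIdeal_iff p _ 1 (isHomogeneous_X _ _), eval_X, hpi]
    exact one_ne_zero
  exact (Y.isFracOf_loc C.I (ptIdeal p) hC (C.le_ptIdeal p hp) hip).intClosed (hY p hpY)

/-- A residually transcendental function along a curve. -/
theorem Var.exists_trans (Y C : Var N) (hC : Y.IsCurveOn C) : ∃ t : Y.locRing C.I,
    ∀ P : Polynomial ℂ, P ≠ 0 → IsUnit (Polynomial.aeval t P) := by
  obtain ⟨i, hi⟩ := C.relevant
  have hiI : (X i : S N) ∉ Y.I := fun h => hi (hC.1 h)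
  have hfr : IsFractionRing (aeval (C.y i) : S N →ₐ[ℂ] C.L).range C.L :=
    isFractionRing_of (C.frac_y hi)
  have h1 : Algebra.trdeg ℂ (aeval (C.y i) : S N →ₐ[ℂ] C.L).range = 1 := by
    rw [trdeg_eq_of_frac, C.trdeg_L hC.2]
    exact Nat.cast_one
  obtain ⟨t', ht'⟩ : ∃ t' : (aeval (C.y i) : S N →ₐ[ℂ] C.L).range, Transcendental ℂ t' := by
    by_contra hc
    push Not at hc
    have h2 : Algebra.IsAlgebraic ℂ (aeval (C.y i) : S N →ₐ[ℂ] C.L).range := by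
      constructor
      intro x
      have := hc x
      rwa [Transcendental, not_not] at this
    have h3 : Algebra.trdeg ℂ (aeval (C.y i) : S N →ₐ[ℂ] C.L).range = 0 := trdeg_eq_zero
    rw [h3] at h1
    exact zero_ne_one h1
  obtain ⟨f, hf⟩ := t'.2
  refine ⟨⟨aeval (Y.y i) f, Y.aeval_y_mem C.I hC.1 hi f⟩, ?_⟩
  intro P hP
  have h2 : (Polynomial.aeval t' P : (aeval (C.y i) : S N →ₐ[ℂ] C.L).range) ≠ 0 := by
    intro h
    exact hP ((transcendental_iff.1 ht') P h)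
  have h3 : aeval (C.y i) (Polynomial.aeval f P) ≠ 0 := by
    intro h
    apply h2
    apply Subtype.ext
    have h4 : ((Polynomial.aeval t' P : (aeval (C.y i) : S N →ₐ[ℂ] C.L).range) : C.L) =
        Polynomial.aeval (t' : C.L) P :=
      (Polynomial.aeval_algHom_apply (aeval (C.y i) : S N →ₐ[ℂ] C.L).range.val t' P).symm
    rw [h4, ← hf]
    have h5 : Polynomial.aeval ((aeval (C.y i) : S N →ₐ[ℂ] C.L) f) P =
        aeval (C.y i) (Polynomial.aeval f P) :=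
      Polynomial.aeval_algHom_apply (aeval (C.y i) : S N →ₐ[ℂ] C.L) f P
    exact h5.trans h
  obtain ⟨g, n, hg, hgf⟩ := exists_hom i (Polynomial.aeval f P)
  have hgC : g ∉ C.I := by
    intro h
    apply h3
    rw [← hgf (C.y i) (C.y_self hi)]
    exact (C.aeval_y_eq_zero hi hg).2 h
  obtain ⟨h6, h7⟩ := Y.aeval_y_unit C.I hC.1 hi hg hgC
  refine IsUnit.of_mul_eq_one ⟨(aeval (Y.y i) g)⁻¹, h7⟩ ?_
  apply Subtype.ext
  have h8 : ((Polynomial.aeval (⟨aeval (Y.y i) f, Y.aeval_y_mem C.I hC.1 hi f⟩ :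
      Y.locRing C.I) P : Y.locRing C.I) : Y.L) = aeval (Y.y i) g := by
    rw [hgf (Y.y i) (Y.y_self hiI)]
    have h9 := (Polynomial.aeval_algHom_apply (Y.locRing C.I).val
      (⟨aeval (Y.y i) f, Y.aeval_y_mem C.I hC.1 hi f⟩ : Y.locRing C.I) P).symm
    have h10 := Polynomial.aeval_algHom_apply (aeval (Y.y i) : S N →ₐ[ℂ] Y.L) f P
    exact h9.trans h10
  change ((Polynomial.aeval (⟨aeval (Y.y i) f, Y.aeval_y_mem C.I hC.1 hi f⟩ :
      Y.locRing C.I) P : Y.locRing C.I) : Y.L) * (aeval (Y.y i) g)⁻¹ = 1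
  rw [h8, mul_inv_cancel₀ h6]

theorem Var.curve_ne (Y C : Var N) (hY : Y.HasDim 2) (hC : Y.IsCurveOn C) :
    ∃ (f : S N) (n : ℕ), f.IsHomogeneous n ∧ f ∈ C.I ∧ f ∉ Y.I := by
  by_contra hc
  push Not at hc
  have h1 : C.I = Y.I := by
    apply le_antisymm _ hC.1
    intro f hf
    rw [← MvPolynomial.sum_homogeneousComponent f]
    refine Ideal.sum_mem _ ?_
    intro n _
    exact hc _ n (homogeneousComponent_isHomogeneous n f) (C.homogeneous f hf n)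
  have h2 := hC.2
  have h3 := hY
  unfold Var.HasDim at h2 h3
  rw [h1, h3] at h2
  norm_num at h2

theorem Var.dvr_locRing (Y : Var N) (hY : Y.HasDim 2) (hN : Y.Normal) (C : Var N)
    (hC : Y.IsCurveOn C) : IsDiscreteValuationRing (Y.locRing C.I) := by
  obtain ⟨i, hi⟩ := C.relevant
  have hiI : (X i : S N) ∉ Y.I := fun h => hi (hC.1 h)
  have := Y.frac_locRing C.I hC.1 hi
  have := Y.noeth_locRing C.I hC.1 hi
  have := Y.isLocalRing_locRing C.I hC.1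
  have := Y.intClosed_locRing hN C hC.1
  obtain ⟨t, ht⟩ := Y.exists_trans C hC
  refine dvr_of (by simpa using Y.trdeg_L hY) (Y.locRing C.I) t ht ?_
  obtain ⟨f, n, hf, hfC, hfY⟩ := Y.curve_ne C hY hC
  refine ⟨⟨aeval (Y.y i) f, Y.aeval_y_mem C.I hC.1 hi f⟩, ?_, ?_⟩
  · intro h
    have h1 : aeval (Y.y i) f = 0 := congrArg Subtype.val h
    rw [Y.aeval_y_eq_zero hiI hf] at h1
    exact hfY h1
  · refine Y.not_isUnit_locRing C.I hC.1 _ f (X i ^ n) ?_ hfC ?_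
    · exact fun h => hi (C.prime.mem_of_pow_mem n h)
    · change ((aeval (Y.y i) f : Y.L) : Y.K) = _
      rw [Y.aeval_y i hf]
      congr 1
      simp [Var.cls]

theorem br3 : ST_BR3 := by
  intro N Y hY hN C hC
  obtain ⟨i, hi⟩ := C.relevant
  have := Y.frac_locRing C.I hC.1 hi
  have := Y.dvr_locRing hY hN C hC
  obtain ⟨t, ht⟩ := Y.exists_trans C hC
  exact exists_dval (Y.locRing C.I) t ht

end

end LCY
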