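import Pool.Agent.Helper27.LCY.Cen
import Pool.Agent.Helper51.LCY.P2

open MvPolynomial

namespace LCY

noncomputable section

namespace DVal

variable {L : Type} [Field L] [Algebra ℂ L] (v : DVal L)

/-- The valuation ring. -/
def vring : Subalgebra ℂ L where
  carrier := {a | v.Int a}
  mul_mem' := fun ha hb => v.int_mul ha hb
  add_mem' := fun ha hb => v.int_add ha hb
  algebraMap_mem' := fun c => v.int_const c

theorem mem_vring (a : L) : a ∈ v.vring ↔ v.Int a := Iff.rfl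

/-- The maximal ideal. -/
def vmax : Ideal v.vring where
  carrier := {a | v.Pos (a : L)}
  add_mem' := fun {a b} ha hb => v.pos_add ha hb
  zero_mem' := Or.inl rfl
  smul_mem' := fun a b hb => by
    change v.Pos ((a : L) * (b : L))
    rw [mul_comm]
    exact v.pos_mul_int hb a.2

theorem mem_vmax (a : v.vring) : a ∈ v.vmax ↔ v.Pos (a : L) := Iff.rfl

instance : v.vmax.IsPrime := by
  constructor
  · rw [Ne, Ideal.eq_top_iff_one]
    intro h
    exact v.not_pos_one h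
  · intro a b hab
    rw [mem_vmax] at hab
    by_contra hc
    push Not at hc
    obtain ⟨ha, hb⟩ := hc
    rw [mem_vmax] at ha hb
    have ha0 : (a : L) ≠ 0 := fun h => ha (Or.inl h)
    have hb0 : (b : L) ≠ 0 := fun h => hb (Or.inl h)
    have hav : v.v (a : L) = 0 := by
      have h1 := a.2.resolve_left ha0
      by_contra h2
      exact ha (Or.inr (lt_of_le_of_ne h1 (Ne.symm h2)))
    have hbv : v.v (b : L) = 0 := by
      have h1 := b.2.resolve_left hb0
      by_contra h2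
      exact hb (Or.inr (lt_of_le_of_ne h1 (Ne.symm h2)))
    rcases hab with h | h
    · exact mul_ne_zero ha0 hb0 h
    · have h3 : v.v ((a : L) * (b : L)) = 0 := by rw [v.map_mul _ _ ha0 hb0, hav, hbv, add_zero]
      change 0 < v.v ((a : L) * (b : L)) at h
      omega

theorem int_inv {a : L} (ha0 : a ≠ 0) (ha : ¬ v.Pos a) : v.Int a⁻¹ := by
  right
  rw [v.map_inv ha0]
  by_contra h
  exact ha (Or.inr (by omega))

theorem frac_ring : IsFractionRing v.vring L := by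
  apply isFractionRing_of
  intro z
  by_cases hz : v.Int z
  · exact ⟨z, hz, 1, v.int_one, one_ne_zero, by rw [inv_one, mul_one]⟩
  · have hz0 : z ≠ 0 := fun h => hz (Or.inl h)
    have hzp : ¬ v.Pos z := fun h => hz (Pos.int h)
    exact ⟨1, v.int_one, z⁻¹, v.int_inv hz0 hzp, inv_ne_zero hz0, by rw [inv_inv, one_mul]⟩

theorem trdeg_res (h2 : Algebra.trdeg ℂ L = 2) : Algebra.trdeg ℂ (v.vring ⧸ v.vmax) < (2 : ℕ) := by
  have := v.frac_ring
  have hV : Algebra.trdeg ℂ v.vring = (2 : ℕ) := by rw [trdeg_eq_of_frac v.vring, h2]; rfl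
  obtain ⟨π, hπ0, hπ⟩ := v.exists_unif
  have hπp : v.Pos π := Or.inr (by omega)
  refine trdeg_quot_lt hV (Ideal.Quotient.mkₐ ℂ v.vmax) (Ideal.Quotient.mkₐ_surjective ℂ v.vmax)
    (f := ⟨π, hπp.int⟩) ?_ (Ideal.Quotient.eq_zero_iff_mem.2 hπp)
  intro h
  exact hπ0 (congrArg Subtype.val h)

/-- A discrete valuation ring contained in the valuation ring of `v` is equal to it. -/
theorem eq_of_le (w : DVal L) (h : ∀ a, w.Int a → v.Int a) : ∀ a, v.Int a ↔ w.Int a := by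
  obtain ⟨π, hπ0, hπ⟩ := w.exists_unif
  intro a
  refine ⟨fun ha => ?_, h a⟩
  by_contra hc
  have ha0 : a ≠ 0 := fun h => hc (Or.inl h)
  have haw : w.v a < 0 := by
    by_contra h1
    exact hc (Or.inr (by omega))
  have hunit : ∀ z : L, z ≠ 0 → w.v z = 0 → v.v z = 0 := by
    intro z hz hwz
    have h1 := (h z (Or.inr hwz.ge)).resolve_left hz
    have h2 := (h z⁻¹ (Or.inr (by rw [w.map_inv hz]; omega))).resolve_left (inv_ne_zero hz)
    rw [v.map_inv hz] at h2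
    omega
  have hvπ : v.v π = 0 := by
    have h1 := (h π (Or.inr (by omega))).resolve_left hπ0
    have h2 := ha.resolve_left ha0
    have h3 : v.v (a * π ^ (- w.v a)) = 0 := by
      apply hunit _ (mul_ne_zero ha0 (zpow_ne_zero _ hπ0))
      rw [w.map_mul _ _ ha0 (zpow_ne_zero _ hπ0), w.map_zpow hπ0, hπ]
      ring
    rw [v.map_mul _ _ ha0 (zpow_ne_zero _ hπ0), v.map_zpow hπ0] at h3
    nlinarith
  obtain ⟨ϖ, hϖ0, hϖ⟩ := v.exists_unif
  have h3 : v.v (ϖ * π ^ (- w.v ϖ)) = 0 := by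
    apply hunit _ (mul_ne_zero hϖ0 (zpow_ne_zero _ hπ0))
    rw [w.map_mul _ _ hϖ0 (zpow_ne_zero _ hπ0), w.map_zpow hπ0, hπ]
    ring
  rw [v.map_mul _ _ hϖ0 (zpow_ne_zero _ hπ0), v.map_zpow hπ0, hvπ, hϖ] at h3
  omega

end DVal

/-- An index at which the coordinates have minimal value. -/
theorem Var.exists_min {N : ℕ} (Y : Var N) (v : DVal Y.L) :
    ∃ i, Y.x i ≠ 0 ∧ ∀ j, v.Int (Y.x j / Y.x i) := by
  classical
  have hne : (Finset.univ.filter (fun j => Y.x j ≠ 0)).Nonempty := by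
    refine ⟨Y.i0, ?_⟩
    rw [Finset.mem_filter]
    refine ⟨Finset.mem_univ _, ?_⟩
    intro h
    have h1 := Y.coe_x Y.i0
    rw [h] at h1
    have h2 : Y.cls (X Y.i0) / Y.T = 1 := div_self Y.T_ne
    rw [h2] at h1
    exact zero_ne_one h1
  obtain ⟨i, hi, hmin⟩ := Finset.exists_min_image _ (fun j => v.v (Y.x j)) hne
  rw [Finset.mem_filter] at hi
  refine ⟨i, hi.2, ?_⟩
  intro j
  by_cases hj : Y.x j = 0
  · left
    rw [hj, zero_div]
  · right
    rw [v.map_div hj hi.2]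
    have := hmin j (Finset.mem_filter.2 ⟨Finset.mem_univ _, hj⟩)
    omega

theorem Var.x_ne_iff {N : ℕ} (Y : Var N) (i : Fin (N + 1)) : Y.x i ≠ 0 ↔ (X i : S N) ∉ Y.I := by
  have h1 := Y.coe_x i
  constructor
  · intro h hi
    apply h
    apply Subtype.ext
    rw [h1, Y.cls_eq_zero hi, zero_div]
    rfl
  · intro h h0
    rw [h0] at h1
    have h2 : Y.cls (X i) / Y.T ≠ 0 := div_ne_zero (Y.cls_ne h) Y.T_ne
    exact h2 h1.symm

section cases

variable {N : ℕ} {Y : Var N} {R' : Type} [CommRing R'] [IsDomain R'] [Algebra ℂ R']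
  (v : DVal Y.L) (c : CenData Y R')

theorem cen_int (hO : ∀ a, a ∈ c.O ↔ v.Int a) (hrho : ∀ a : c.O, c.ρ a = 0 ↔ v.Pos (a : Y.L))
    (z : Y.L) (hz : Y.IsFrac (genIdeal c.gy) (z : Y.K)) : v.Int z := by
  obtain ⟨F, G, n, hF, hG, hz1, hG0, hz2⟩ := c.frac hz
  rw [hz2]
  refine v.int_mul ((hO _).1 (c.aeval_mem F)) ?_
  have h4 : ¬ v.Pos (aeval (Y.y c.i) G) := (hrho ⟨aeval (Y.y c.i) G, c.aeval_mem G⟩).not.1 hG0
  exact v.int_inv (fun h => h4 (Or.inl h)) h4

theorem cen_res (hrho : ∀ a : c.O, c.ρ a = 0 ↔ v.Pos (a : Y.L)) (j : Fin (N + 1)) (z : ℂ) :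
    c.gy j = algebraMap ℂ R' z ↔ v.Pos (Y.y c.i j - algebraMap ℂ Y.L z) := by
  have h1 := hrho (⟨Y.y c.i j, c.hO j⟩ - algebraMap ℂ c.O z)
  rw [map_sub, sub_eq_zero, c.ρ.commutes z] at h1
  exact h1

theorem cen_point (hO : ∀ a, a ∈ c.O ↔ v.Int a)
    (hrho : ∀ a : c.O, c.ρ a = 0 ↔ v.Pos (a : Y.L)) (hxi : Y.x c.i ≠ 0)
    (halg : Algebra.IsAlgebraic ℂ (aeval c.gy : S N →ₐ[ℂ] R').range) :
    Contracted Y.x v ∧ ∃ p, Y.IsPt p ∧ (∀ a ∈ Y.locRing (ptIdeal p), v.Int a) ∧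
      ∀ a : Y.locRing (ptIdeal p), ¬ IsUnit a → v.Pos (a : Y.L) := by
  have hbij := IsAlgClosed.algebraMap_bijective_of_isIntegral (k := ℂ)
    (K := (aeval c.gy : S N →ₐ[ℂ] R').range)
  have hp : ∀ j, ∃ z : ℂ, algebraMap ℂ R' z = c.gy j := by
    intro j
    obtain ⟨z, hz⟩ := hbij.2 ⟨c.gy j, X j, aeval_X _ _⟩
    exact ⟨z, congrArg Subtype.val hz⟩
  choose p hp using hp
  have hinj : Function.Injective (algebraMap ℂ R') := FaithfulSMul.algebraMap_injective ℂ _
  have hgy : ∀ F : S N, aeval c.gy F = algebraMap ℂ R' (eval p F) := by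
    intro F
    have h4 : c.gy = fun j => algebraMap ℂ R' (p j) := funext fun j => (hp j).symm
    rw [h4]
    exact MvPolynomial.aeval_algebraMap_apply R' p F
  have hpi : p c.i = 1 := by
    apply hinj
    rw [hp, c.gy_self, map_one]
  have hideal : ∀ (F : S N) (n : ℕ), F.IsHomogeneous n → (F ∈ genIdeal c.gy ↔ F ∈ ptIdeal p) := by
    intro F n hF
    rw [mem_genIdeal_iff c.gy hF, mem_ptIdeal_iff p F n hF, hgy]
    exact map_eq_zero_iff _ hinj
  have hfrac : ∀ z : Y.L, Y.IsFrac (ptIdeal p) (z : Y.K) → Y.IsFrac (genIdeal c.gy) (z : Y.K) := by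
    rintro z ⟨n, F, G, hF, hG, hGJ, hGI, hz⟩
    exact ⟨n, F, G, hF, hG, fun h => hGJ ((hideal G n hG).1 h), hGI, hz⟩
  have hres : ∀ j, v.Pos (Y.y c.i j - algebraMap ℂ Y.L (p j)) := fun j =>
    (cen_res v c hrho j (p j)).1 (hp j).symm
  refine ⟨?_, p, ⟨?_, ?_⟩, ?_, ?_⟩
  · -- contracted
    intro i' hi' hint' j
    have hy' : Y.y c.i i' ≠ 0 := div_ne_zero hi' hxi
    have hpi' : p i' ≠ 0 := by
      intro h0
      have h5 := hres i'
      rw [h0, map_zero, sub_zero] at h5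
      have h6 := h5.resolve_left hy'
      have h7 := (hint' c.i).resolve_left (div_ne_zero hxi hi')
      have h8 : Y.x c.i / Y.x i' = (Y.y c.i i')⁻¹ := by
        change Y.x c.i / Y.x i' = (Y.x i' / Y.x c.i)⁻¹
        rw [inv_div]
      rw [h8, v.map_inv hy'] at h7
      omega
    refine ⟨p j / p i', ?_⟩
    have hc0 : algebraMap ℂ Y.L (p i') ≠ 0 := by
      rw [Ne, map_eq_zero]
      exact hpi'
    have h9 : Y.x j / Y.x i' - algebraMap ℂ Y.L (p j / p i') =
        ((Y.y c.i j - algebraMap ℂ Y.L (p j)) * algebraMap ℂ Y.L (p i') +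
          -((Y.y c.i i' - algebraMap ℂ Y.L (p i')) * algebraMap ℂ Y.L (p j))) *
          ((algebraMap ℂ Y.L (p i'))⁻¹ * (Y.y c.i i')⁻¹) := by
      have h10 : Y.x j / Y.x i' = Y.y c.i j / Y.y c.i i' := by
        change Y.x j / Y.x i' = (Y.x j / Y.x c.i) / (Y.x i' / Y.x c.i)
        exact (div_div_div_cancel_right₀ hxi _ _).symm
      rw [h10, map_div₀]
      field_simp
      ring
    rw [h9]
    refine v.pos_mul_int (v.pos_add (v.pos_mul_int (hres j) (v.int_const _))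
      (v.pos_neg (v.pos_mul_int (hres i') (v.int_const _)))) (v.int_mul ?_ ?_)
    · rw [← map_inv₀]
      exact v.int_const _
    · have h8 : (Y.y c.i i')⁻¹ = Y.x c.i / Y.x i' := by
        change (Y.x i' / Y.x c.i)⁻¹ = _
        rw [inv_div]
      rw [h8]
      exact hint' c.i
  · intro h
    rw [h] at hpi
    exact zero_ne_one hpi
  · intro f hf
    rw [← MvPolynomial.sum_homogeneousComponent f, map_sum]
    refine Finset.sum_eq_zero ?_
    intro n _
    rw [← mem_ptIdeal_iff p _ n (homogeneousComponent_isHomogeneous n f),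
      ← hideal _ n (homogeneousComponent_isHomogeneous n f)]
    exact c.le_gen (Y.homogeneous f hf n)
  · intro a ha
    exact cen_int v c hO hrho a (hfrac a ha)
  · intro a ha
    obtain ⟨n, F, G, hF, hG, hGJ, hGI, hz⟩ := a.2
    have hFJ : F ∈ ptIdeal p := by
      by_contra hcF
      by_cases hFI : F ∈ Y.I
      · exact hcF ((hideal F n hF).1 (c.le_gen hFI))
      · exact ha (Y.isUnit_locRing (ptIdeal p) a n F G hF hG hGI hcF hFI hz)
    have h4 : ¬ v.Pos (aeval (Y.y c.i) G) := by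
      rw [← hrho ⟨aeval (Y.y c.i) G, c.aeval_mem G⟩, ← c.mem_iff hG, hideal G n hG]
      exact hGJ
    have h5 : v.Pos (aeval (Y.y c.i) F) := by
      rw [← hrho ⟨aeval (Y.y c.i) F, c.aeval_mem F⟩, ← c.mem_iff hF, hideal F n hF]
      exact hFJ
    rw [Y.eq_y c.hi hF hG hz]
    exact v.pos_mul_int h5 (v.int_inv (fun h => h4 (Or.inl h)) h4)

theorem cen_curve (hY : Y.HasDim 2) (hN : Y.Normal) (hO : ∀ a, a ∈ c.O ↔ v.Int a)
    (hrho : ∀ a : c.O, c.ρ a = 0 ↔ v.Pos (a : Y.L)) (hxi : Y.x c.i ≠ 0)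
    (hyint : ∀ j, v.Int (Y.x j / Y.x c.i))
    (hk : Algebra.trdeg ℂ (aeval c.gy : S N →ₐ[ℂ] R').range = 1) :
    ¬ Contracted Y.x v ∧ ∃ C, Y.IsCurveOn C ∧ ∀ a, v.Int a ↔ a ∈ Y.locRing C.I := by
  refine ⟨?_, genVar c.gy c.i c.gy_self, ⟨c.le_gen, ?_⟩, ?_⟩
  · intro hcon
    have h4 := hcon c.i hxi hyint
    choose p hp using h4
    have h5 : c.gy = fun j => algebraMap ℂ R' (p j) := by
      funext j
      exact (cen_res v c hrho j (p j)).2 (hp j)
    have halg : Algebra.IsAlgebraic ℂ (aeval c.gy : S N →ₐ[ℂ] R').range := by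
      constructor
      rintro ⟨z, F, hF⟩
      have h8 : aeval c.gy F = algebraMap ℂ R' (eval p F) := by
        rw [h5]
        exact MvPolynomial.aeval_algebraMap_apply R' p F
      have h10 : z = algebraMap ℂ R' (eval p F) := by rw [← h8]; exact hF.symm
      have h9 : (⟨z, F, hF⟩ : (aeval c.gy : S N →ₐ[ℂ] R').range) =
          algebraMap ℂ _ (eval p F) := Subtype.ext h10
      rw [h9]
      exact isAlgebraic_algebraMap _
    have h0 : Algebra.trdeg ℂ (aeval c.gy : S N →ₐ[ℂ] R').range = 0 := trdeg_eq_zero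
    rw [h0] at hk
    exact zero_ne_one hk
  · unfold Var.HasDim
    rw [trdeg_genVar, hk, Nat.cast_one]
  · have hC : Y.IsCurveOn (genVar c.gy c.i c.gy_self) := by
      refine ⟨c.le_gen, ?_⟩
      unfold Var.HasDim
      rw [trdeg_genVar, hk, Nat.cast_one]
    obtain ⟨w, hw⟩ := br3 N Y hY hN _ hC
    intro a
    rw [← hw]
    exact v.eq_of_le w (fun b hb => cen_int v c hO hrho b ((hw b).1 hb)) a

end cases

/-- The centre of a divisorial valuation. -/
def Var.cen {N : ℕ} (Y : Var N) (v : DVal Y.L) : CenData Y (v.vring ⧸ v.vmax) where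
  i := Classical.choose (Y.exists_min v)
  hi := (Y.x_ne_iff _).1 (Classical.choose_spec (Y.exists_min v)).1
  O := v.vring
  hO := (Classical.choose_spec (Y.exists_min v)).2
  ρ := Ideal.Quotient.mkₐ ℂ v.vmax

theorem br4 : ST_BR4 := by
  intro N Y hY hN v
  have h2 : Algebra.trdeg ℂ Y.L = 2 := by simpa using Y.trdeg_L hY
  have hO : ∀ a, a ∈ (Y.cen v).O ↔ v.Int a := fun a => Iff.rfl
  have hrho : ∀ a : (Y.cen v).O, (Y.cen v).ρ a = 0 ↔ v.Pos (a : Y.L) := by
    intro a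
    change Ideal.Quotient.mk v.vmax a = 0 ↔ _
    rw [Ideal.Quotient.eq_zero_iff_mem]
    rfl
  have hxi : Y.x (Y.cen v).i ≠ 0 := (Classical.choose_spec (Y.exists_min v)).1
  have hyint : ∀ j, v.Int (Y.x j / Y.x (Y.cen v).i) :=
    (Classical.choose_spec (Y.exists_min v)).2
  have h3 : Algebra.trdeg ℂ (aeval (Y.cen v).gy : S N →ₐ[ℂ] (v.vring ⧸ v.vmax)).range < (2 : ℕ) :=
    lt_of_le_of_lt (trdeg_le_of_injective (Subalgebra.val _) Subtype.val_injective)
      (v.trdeg_res h2)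
  obtain ⟨k, hk1, hk⟩ := card_lt_two h3
  interval_cases k
  · exact Or.inr (cen_point v (Y.cen v) hO hrho hxi
      (trdeg_eq_zero_iff.1 (by rw [hk, Nat.cast_zero])))
  · exact Or.inl (cen_curve v (Y.cen v) hY hN hO hrho hxi hyint (by rw [hk, Nat.cast_one]))

end

end LCY
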