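import Mathlib

namespace LCY

noncomputable section

open MvPolynomial

/-- Through a point of an affine surface passes a curve. -/
theorem exists_prime_lt {A : Type} [CommRing A] [IsDomain A] [Algebra ℂ A]
    [Algebra.FiniteType ℂ A] (h : Algebra.trdeg ℂ A = 2) (M : Ideal A) [M.IsMaximal] :
    ∃ P : Ideal A, P.IsPrime ∧ P ≠ ⊥ ∧ P < M := by
  obtain ⟨s, g, hinj, hint⟩ := exists_integral_inj_algHom_of_fg ℂ A
  let _ : Algebra (MvPolynomial (Fin s) ℂ) A := g.toRingHom.toAlgebra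
  have : IsScalarTower ℂ (MvPolynomial (Fin s) ℂ) A :=
    IsScalarTower.of_algebraMap_eq (fun c => (g.commutes c).symm)
  have hI : Algebra.IsIntegral (MvPolynomial (Fin s) ℂ) A := ⟨fun a => hint a⟩
  have hF : FaithfulSMul (MvPolynomial (Fin s) ℂ) A :=
    (faithfulSMul_iff_algebraMap_injective _ _).2 hinj
  have hs : s = 2 := by
    have h2 : Algebra.trdeg ℂ (MvPolynomial (Fin s) ℂ) +
      Algebra.trdeg (MvPolynomial (Fin s) ℂ) A = Algebra.trdeg ℂ A :=
      trdeg_add_eq ℂ (MvPolynomial (Fin s) ℂ)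
    have h3 : Algebra.trdeg (MvPolynomial (Fin s) ℂ) A = 0 := trdeg_eq_zero
    have h4 : Algebra.trdeg ℂ (MvPolynomial (Fin s) ℂ) = s := by
      rw [MvPolynomial.trdeg_of_isDomain]
      simp
    rw [h3, add_zero, h4, h] at h2
    exact_mod_cast h2
  subst hs
  set n : Ideal (MvPolynomial (Fin 2) ℂ) := M.comap (algebraMap (MvPolynomial (Fin 2) ℂ) A) with hn
  have hnmax : n.IsMaximal := Ideal.isMaximal_comap_of_isIntegral_of_isMaximal M
  obtain ⟨pt, hpt⟩ := MvPolynomial.isMaximal_iff_eq_vanishingIdeal_singleton.1 hnmax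
  set φ : MvPolynomial (Fin 2) ℂ →ₐ[ℂ] Polynomial ℂ :=
    aeval ![Polynomial.C (pt 0), Polynomial.X] with hφ
  set q : Ideal (MvPolynomial (Fin 2) ℂ) := RingHom.ker φ with hq
  have hqp : q.IsPrime := RingHom.ker_isPrime _
  have hev : ∀ f, eval pt f = Polynomial.eval (pt 1) (φ f) := by
    intro f
    have h5 : (Polynomial.aeval (pt 1) : Polynomial ℂ →ₐ[ℂ] ℂ).comp φ = aeval pt := by
      ext i
      fin_cases i <;> simp [hφ]
    have h6 := DFunLike.congr_fun h5 f
    rw [AlgHom.comp_apply] at h6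
    rw [← MvPolynomial.coe_aeval_eq_eval]
    exact h6.symm
  have hmem : ∀ f, f ∈ n ↔ eval pt f = 0 := by
    intro f
    rw [hpt, MvPolynomial.mem_vanishingIdeal_singleton_iff]
    rfl
  have hqn : q < n := by
    refine lt_of_le_of_ne ?_ ?_
    · intro f hf
      rw [hq, RingHom.mem_ker] at hf
      rw [hmem, hev]
      have : φ f = 0 := hf
      rw [this, Polynomial.eval_zero]
    · intro heq
      have h7 : (X 1 - C (pt 1) : MvPolynomial (Fin 2) ℂ) ∈ n := by
        rw [hmem]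
        simp
      rw [← heq, hq, RingHom.mem_ker] at h7
      have h8 : φ (X 1 - C (pt 1)) = Polynomial.X - Polynomial.C (pt 1) := by
        rw [map_sub, hφ, aeval_X, aeval_C]
        rfl
      rw [h8] at h7
      exact Polynomial.X_sub_C_ne_zero _ h7
  have hq0 : q ≠ ⊥ := by
    intro h0
    have h7 : (X 0 - C (pt 0) : MvPolynomial (Fin 2) ℂ) ∈ q := by
      rw [hq, RingHom.mem_ker]
      change φ (X 0 - C (pt 0)) = 0
      rw [map_sub, hφ, aeval_X, aeval_C]
      exact sub_self _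
    rw [h0, Ideal.mem_bot, sub_eq_zero] at h7
    have h8 := congrArg (fun f : MvPolynomial (Fin 2) ℂ => eval (fun _ => pt 0 + 1) f) h7
    simp at h8
  have hlies : M.LiesOver n := ⟨rfl⟩
  have hMp : M.IsPrime := Ideal.IsMaximal.isPrime inferInstance
  have hnp : n.IsPrime := Ideal.IsMaximal.isPrime hnmax
  obtain ⟨P, hPM, hP, hPq⟩ := Ideal.exists_ideal_lt_liesOver_of_lt (p := q) (q := n) M hqn
  refine ⟨P, hP, ?_, hPM⟩
  rintro rfl
  apply hq0
  rw [hPq.over]
  exact Ideal.comap_bot_of_injective (algebraMap (MvPolynomial (Fin 2) ℂ) A) hinj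

end

end LCY
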