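import Pool.Agent.Helper27.LCY.BR4
import Pool.Agent.Helper27.LCY.GD

open MvPolynomial

namespace LCY

noncomputable section

/-- The denominators of `g`. -/
def den {L : Type} [Field L] [Algebra ℂ L] (O : Subalgebra ℂ L) (g : L) : Ideal O where
  carrier := {r | (r : L) * g ∈ O}
  add_mem' := by
    intro a b ha hb
    change ((a : L) + (b : L)) * g ∈ O
    rw [add_mul]
    exact O.add_mem ha hb
  zero_mem' := by
    change (0 : L) * g ∈ O
    rw [zero_mul]
    exact O.zero_mem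
  smul_mem' := by
    intro a b hb
    change ((a : L) * (b : L)) * g ∈ O
    rw [mul_assoc]
    exact O.mul_mem a.2 hb

theorem mem_den {L : Type} [Field L] [Algebra ℂ L] (O : Subalgebra ℂ L) (g : L) (r : O) :
    r ∈ den O g ↔ (r : L) * g ∈ O := Iff.rfl

/-- A non-regular function has a multiple whose denominator ideal is prime. -/
theorem exists_den_prime {L : Type} [Field L] [Algebra ℂ L] (O : Subalgebra ℂ L)
    [IsNoetherianRing O] (h : L) (hO : h ∉ O) : ∃ s : O, (s : L) * h ∉ O ∧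
      (den O ((s : L) * h)).IsPrime := by
  have hne : {I : Ideal O | ∃ s : O, (s : L) * h ∉ O ∧ I = den O ((s : L) * h)}.Nonempty := by
    refine ⟨_, 1, ?_, rfl⟩
    change (1 : L) * h ∉ O
    rw [one_mul]
    exact hO
  obtain ⟨I, ⟨s, hs, rfl⟩, hmax⟩ := set_has_maximal_iff_noetherian.2
    (inferInstance : IsNoetherian O O) _ hne
  refine ⟨s, hs, ?_, ?_⟩
  · rw [Ne, Ideal.eq_top_iff_one, mem_den]
    change ¬ (1 : L) * ((s : L) * h) ∈ O
    rw [one_mul]
    exact hs
  · intro a b hab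
    by_contra hc
    push Not at hc
    obtain ⟨ha, hb⟩ := hc
    rw [mem_den] at hb
    have h1 : ((b * s : O) : L) * h ∉ O := by
      change ¬ ((b : L) * (s : L)) * h ∈ O
      rw [mul_assoc]
      exact hb
    have h2 : ¬ den O ((s : L) * h) < den O (((b * s : O) : L) * h) :=
      hmax _ ⟨b * s, h1, rfl⟩
    have h3 : den O ((s : L) * h) ≤ den O (((b * s : O) : L) * h) := by
      intro r hr
      rw [mem_den] at hr ⊢
      change (r : L) * (((b : L) * (s : L)) * h) ∈ O
      have h4 : (r : L) * (((b : L) * (s : L)) * h) = (b : L) * ((r : L) * ((s : L) * h)) := by ring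
      rw [h4]
      exact O.mul_mem b.2 hr
    have h5 : a ∈ den O (((b * s : O) : L) * h) := by
      rw [mem_den] at hab ⊢
      change (a : L) * (((b : L) * (s : L)) * h) ∈ O
      have h4 : (a : L) * (((b : L) * (s : L)) * h) = ((a : L) * (b : L)) * ((s : L) * h) := by ring
      rw [h4]
      exact hab
    have h6 := eq_of_le_of_not_lt h3 h2
    rw [← h6] at h5
    exact ha h5

/-- In a normal noetherian local domain the maximal ideal is a denominator ideal only if it is
principal. -/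
theorem max_principal {L : Type} [Field L] [Algebra ℂ L] (O : Subalgebra ℂ L)
    [IsNoetherianRing O] [IsLocalRing O] [IsIntegrallyClosed O] [IsFractionRing O L] (g : L)
    (hg : g ∉ O) (hm : den O g = IsLocalRing.maximalIdeal O) (hne : IsLocalRing.maximalIdeal O ≠ ⊥) :
    (IsLocalRing.maximalIdeal O).IsPrincipal := by
  by_cases hc : ∀ a ∈ IsLocalRing.maximalIdeal O, ∀ b : O, (b : L) = (a : L) * g → ¬ IsUnit b
  · exfalso
    apply hg
    have hint : IsIntegral O g := by
      set N : Submodule O L := Submodule.map (Algebra.linearMap O L) (IsLocalRing.maximalIdeal O) with hN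
      refine isIntegral_of_smul_mem_submodule (R := O) (A := L) (M := L) N ?_ ?_ g ?_
      · intro h0
        obtain ⟨a, ha, ha0⟩ := Submodule.exists_mem_ne_zero_of_ne_bot hne
        have h1 : Algebra.linearMap O L a ∈ N := Submodule.mem_map_of_mem ha
        rw [h0, Submodule.mem_bot] at h1
        exact ha0 (Subtype.ext h1)
      · exact (IsNoetherian.noetherian (IsLocalRing.maximalIdeal O)).map _
      · rintro _ ⟨a, ha, rfl⟩
        have h2 : (a : L) * g ∈ O := by
          have : a ∈ den O g := by rw [hm]; exact ha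
          exact this
        refine ⟨⟨(a : L) * g, h2⟩, ?_, ?_⟩
        · exact (IsLocalRing.mem_maximalIdeal _).2 (hc a ha ⟨(a : L) * g, h2⟩ rfl)
        · change (a : L) * g = g • (a : L)
          rw [smul_eq_mul, mul_comm]
    obtain ⟨z, hz⟩ := IsIntegrallyClosed.isIntegral_iff.1 hint
    rw [← hz]
    exact z.2
  · push Not at hc
    obtain ⟨a, ha, b, hb, hu⟩ := hc
    refine ⟨a, ?_⟩
    apply le_antisymm
    · intro r hr
      have h2 : (r : L) * g ∈ O := by
        have : r ∈ den O g := by rw [hm]; exact hr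
        exact this
      rw [Submodule.mem_span_singleton]
      obtain ⟨w, hw⟩ := hu.exists_right_inv
      refine ⟨w * ⟨(r : L) * g, h2⟩, ?_⟩
      apply Subtype.ext
      change (w : L) * ((r : L) * g) * (a : L) = (r : L)
      have h3 : (b : L) * (w : L) = 1 := congrArg Subtype.val hw
      have h4 : (w : L) * ((r : L) * g) * (a : L) = (r : L) * ((a : L) * g * (w : L)) := by ring
      rw [h4, ← hb, h3, mul_one]
    · rw [Submodule.span_singleton_le_iff_mem]
      exact ha

section pt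

variable {N : ℕ} (Y : Var N) (p : Fin (N + 1) → ℂ)

theorem exists_chart {p : Fin (N + 1) → ℂ} (hp : p ≠ 0) : ∃ i, (X i : S N) ∉ ptIdeal p := by
  obtain ⟨i, hi⟩ := Function.ne_iff.1 hp
  refine ⟨i, ?_⟩
  rw [mem_ptIdeal_iff p _ 1 (isHomogeneous_X _ _), eval_X]
  exact hi

/-- Elements of the local ring of a point are constants modulo the maximal ideal. -/
theorem Var.const_mod (hp : Y.IsPt p) (a : Y.locRing (ptIdeal p)) :
    ∃ z : ℂ, ¬ IsUnit (a - algebraMap ℂ _ z) := by
  obtain ⟨n, F, G, hF, hG, hGJ, hGI, hz⟩ := a.2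
  have hG0 : eval p G ≠ 0 := by
    rw [mem_ptIdeal_iff p G n hG] at hGJ
    exact hGJ
  refine ⟨eval p F / eval p G, ?_⟩
  refine Y.not_isUnit_locRing (ptIdeal p) (Y.le_ptIdeal p hp) _
    (F - C (eval p F / eval p G) * G) G hGJ ?_ ?_
  · rw [mem_ptIdeal_iff p _ n (hF.sub (hG.C_mul _)), map_sub, map_mul, eval_C,
      div_mul_cancel₀ _ hG0, sub_self]
  · have h1 : (((a - algebraMap ℂ _ (eval p F / eval p G) : Y.locRing (ptIdeal p)) : Y.L) : Y.K) =
        ((a : Y.L) : Y.K) - algebraMap ℂ Y.K (eval p F / eval p G) := rfl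
    have h2 : Y.cls (F - C (eval p F / eval p G) * G) =
        Y.cls F - algebraMap ℂ Y.K (eval p F / eval p G) * Y.cls G := by
      have h3 : Y.cls (C (eval p F / eval p G)) = algebraMap ℂ Y.K (eval p F / eval p G) := rfl
      rw [← h3]
      simp [Var.cls]
    rw [h1, h2, hz, sub_div, mul_div_cancel_right₀ _ (Y.cls_ne hGI)]

/-- The local ring of a point of a surface is not a discrete valuation ring. -/
theorem Var.not_principal (hY : Y.HasDim 2) (hp : Y.IsPt p)
    [IsLocalRing (Y.locRing (ptIdeal p))] :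
    ¬ (IsLocalRing.maximalIdeal (Y.locRing (ptIdeal p))).IsPrincipal := by
  intro hpr
  obtain ⟨i, hi⟩ := exists_chart hp.1
  have hIJ := Y.le_ptIdeal p hp
  have hiI : (X i : S N) ∉ Y.I := fun h => hi (hIJ h)
  have hnoeth := Y.noeth_locRing (ptIdeal p) hIJ hi
  set A : Subalgebra ℂ Y.L := (aeval (Y.y i) : S N →ₐ[ℂ] Y.L).range with hA
  have hfr := Y.isFracOf_aff (ptIdeal p) hIJ hi
  have : IsFractionRing A Y.L := isFractionRing_of (Y.frac_y hiI)
  have htr : Algebra.trdeg ℂ A = 2 := by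
    rw [trdeg_eq_of_frac A]
    simpa using Y.trdeg_L hY
  have hft : Algebra.FiniteType ℂ A :=
    Algebra.FiniteType.of_surjective (aeval (Y.y i) : S N →ₐ[ℂ] Y.L).rangeRestrict
      (AlgHom.rangeRestrict_surjective _)
  let ι : A →ₐ[ℂ] Y.locRing (ptIdeal p) := Subalgebra.inclusion hfr.le
  set M : Ideal A := (IsLocalRing.maximalIdeal (Y.locRing (ptIdeal p))).comap ι with hM
  have hMmax : M.IsMaximal := by
    have hMne : M ≠ ⊤ := by
      rw [Ne, Ideal.eq_top_iff_one, hM, Ideal.mem_comap, map_one]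
      exact (Ideal.ne_top_iff_one _).1 (IsLocalRing.maximalIdeal.isMaximal _).ne_top
    rw [Ideal.isMaximal_iff]
    refine ⟨(Ideal.ne_top_iff_one _).1 hMne, ?_⟩
    intro J a hMJ haM haJ
    obtain ⟨z, hz⟩ := Y.const_mod p hp (ι a)
    have h1 : a - algebraMap ℂ A z ∈ M := by
      rw [hM, Ideal.mem_comap, map_sub, ι.commutes]
      exact (IsLocalRing.mem_maximalIdeal _).2 hz
    have h2 : algebraMap ℂ A z ∈ J := by
      have h3 := J.sub_mem haJ (hMJ h1)
      rwa [sub_sub_cancel] at h3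
    have hz0 : z ≠ 0 := by
      rintro rfl
      rw [map_zero, sub_zero] at h1
      exact haM h1
    have h4 := J.mul_mem_left (algebraMap ℂ A z⁻¹) h2
    rwa [← map_mul, inv_mul_cancel₀ hz0, map_one] at h4
  obtain ⟨P, hP, hP0, hPM⟩ := exists_prime_lt htr M
  obtain ⟨f, hfP, hf0⟩ := Submodule.exists_mem_ne_zero_of_ne_bot hP0
  obtain ⟨e, heM, heP⟩ := SetLike.exists_of_lt hPM
  have hfield : ¬ IsField (Y.locRing (ptIdeal p)) := by
    intro h
    have h1 := (IsLocalRing.isField_iff_maximalIdeal_eq).1 h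
    have h2 : ι f ∈ IsLocalRing.maximalIdeal (Y.locRing (ptIdeal p)) := hPM.le hfP
    rw [h1, Ideal.mem_bot] at h2
    apply hf0
    apply Subtype.ext
    exact congrArg (Subtype.val : Y.locRing (ptIdeal p) → Y.L) h2
  have tf : (IsLocalRing.maximalIdeal (Y.locRing (ptIdeal p))).IsPrincipal ↔
      IsIntegrallyClosed (Y.locRing (ptIdeal p)) ∧
        ∃! Q : Ideal (Y.locRing (ptIdeal p)), Q ≠ ⊥ ∧ Q.IsPrime :=
    (IsDiscreteValuationRing.TFAE (Y.locRing (ptIdeal p)) hfield).out 4 3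
  obtain ⟨-, hu⟩ := tf.1 hpr
  have hmax : ∀ Q : Ideal (Y.locRing (ptIdeal p)), Q ≠ ⊥ → Q.IsPrime →
      Q = IsLocalRing.maximalIdeal (Y.locRing (ptIdeal p)) := by
    intro Q hQ0 hQ
    refine hu.unique ⟨hQ0, hQ⟩ ⟨?_, inferInstance⟩
    exact fun h => hfield ((IsLocalRing.isField_iff_maximalIdeal_eq).2 h)
  have hrad : ι e ∈ (Ideal.span {ι f}).radical := by
    rw [Ideal.radical_eq_sInf, Ideal.mem_sInf]
    rintro Q ⟨hQf, hQ⟩
    have hQ0 : Q ≠ ⊥ := by
      rintro rfl
      have h2 : ι f ∈ (⊥ : Ideal (Y.locRing (ptIdeal p))) := hQf (Ideal.mem_span_singleton_self _)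
      rw [Ideal.mem_bot] at h2
      apply hf0
      apply Subtype.ext
      exact congrArg (Subtype.val : Y.locRing (ptIdeal p) → Y.L) h2
    rw [hmax Q hQ0 hQ]
    exact heM
  obtain ⟨n, hn⟩ := hrad
  rw [Ideal.mem_span_singleton] at hn
  obtain ⟨z, hz⟩ := hn
  obtain ⟨a, ha, s, hs, hs0, hsi, hzs⟩ := hfr.frac z z.2
  have h1 : (⟨s, hs⟩ : A) * e ^ n = f * ⟨a, ha⟩ := by
    apply Subtype.ext
    change s * (e : Y.L) ^ n = (f : Y.L) * a
    have h2 : (e : Y.L) ^ n = (f : Y.L) * (z : Y.L) := congrArg Subtype.val hz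
    rw [h2, hzs]
    field_simp
  have h2 : (⟨s, hs⟩ : A) * e ^ n ∈ P := by
    rw [h1]
    exact P.mul_mem_right _ hfP
  rcases hP.mem_or_mem h2 with h3 | h3
  · have h4 : ι ⟨s, hs⟩ ∈ IsLocalRing.maximalIdeal (Y.locRing (ptIdeal p)) := hPM.le h3
    rw [IsLocalRing.mem_maximalIdeal] at h4
    apply h4
    refine IsUnit.of_mul_eq_one ⟨s⁻¹, hsi⟩ ?_
    apply Subtype.ext
    exact mul_inv_cancel₀ hs0
  · exact heP (hP.mem_of_pow_mem n h3)

/-- A non-zero non-maximal prime of the local ring of a point gives a curve. -/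
theorem Var.curve_of_prime (hY : Y.HasDim 2) (hp : Y.IsPt p)
    [IsLocalRing (Y.locRing (ptIdeal p))] (P : Ideal (Y.locRing (ptIdeal p))) [hP : P.IsPrime]
    (hP0 : P ≠ ⊥) (hPM : P ≠ IsLocalRing.maximalIdeal (Y.locRing (ptIdeal p))) :
    ∃ C : Var N, Y.IsCurveOn C ∧ C.IsPt p ∧ ∀ z : Y.L, z ∈ Y.locRing C.I →
      ∃ r : Y.locRing (ptIdeal p), r ∉ P ∧ (r : Y.L) * z ∈ Y.locRing (ptIdeal p) := by
  obtain ⟨i, hi⟩ := exists_chart hp.1
  have hIJ := Y.le_ptIdeal p hp
  have hiI : (X i : S N) ∉ Y.I := fun h => hi (hIJ h)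
  have hfr := Y.isFracOf_aff (ptIdeal p) hIJ hi
  have := Y.frac_locRing (ptIdeal p) hIJ hi
  have htr : Algebra.trdeg ℂ (Y.locRing (ptIdeal p)) = (2 : ℕ) := by
    rw [trdeg_eq_of_frac (Y.locRing (ptIdeal p))]
    exact Y.trdeg_L hY
  let c : CenData Y (Y.locRing (ptIdeal p) ⧸ P) :=
    { i := i, hi := hiI, O := Y.locRing (ptIdeal p),
      hO := fun j => by
        have := Y.aeval_y_mem (ptIdeal p) hIJ hi (X j)
        rwa [aeval_X] at this
      ρ := Ideal.Quotient.mkₐ ℂ P }
  have hle : P ≤ IsLocalRing.maximalIdeal (Y.locRing (ptIdeal p)) :=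
    IsLocalRing.le_maximalIdeal hP.ne_top
  have hrho : ∀ a : Y.locRing (ptIdeal p), c.ρ a = 0 ↔ a ∈ P := by
    intro a
    exact Ideal.Quotient.eq_zero_iff_mem
  obtain ⟨g, hgP, hg0⟩ := Submodule.exists_mem_ne_zero_of_ne_bot hP0
  have h3 : Algebra.trdeg ℂ (Y.locRing (ptIdeal p) ⧸ P) < (2 : ℕ) :=
    trdeg_quot_lt htr (Ideal.Quotient.mkₐ ℂ P) (Ideal.Quotient.mkₐ_surjective ℂ P) hg0
      (Ideal.Quotient.eq_zero_iff_mem.2 hgP)
  have h4 : Algebra.trdeg ℂ (aeval c.gy : S N →ₐ[ℂ] (Y.locRing (ptIdeal p) ⧸ P)).range < (2 : ℕ) :=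
    lt_of_le_of_lt (trdeg_le_of_injective (Subalgebra.val _) Subtype.val_injective) h3
  obtain ⟨k, hk1, hk⟩ := card_lt_two h4
  have hnu : ∀ (G : S N) (n : ℕ), G.IsHomogeneous n → (hG : G ∈ ptIdeal p) →
      True := fun _ _ _ _ => trivial
  interval_cases k
  · exfalso
    apply hPM
    have halg : Algebra.IsAlgebraic ℂ
        (aeval c.gy : S N →ₐ[ℂ] (Y.locRing (ptIdeal p) ⧸ P)).range :=
      trdeg_eq_zero_iff.1 (by rw [hk, Nat.cast_zero])
    have hbij := IsAlgClosed.algebraMap_bijective_of_isIntegral (k := ℂ)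
      (K := (aeval c.gy : S N →ₐ[ℂ] (Y.locRing (ptIdeal p) ⧸ P)).range)
    -- every element of the image is a constant
    have hconst : ∀ F : S N, ∃ z : ℂ, aeval c.gy F = algebraMap ℂ _ z := by
      intro F
      obtain ⟨z, hz⟩ := hbij.2 ⟨aeval c.gy F, F, rfl⟩
      exact ⟨z, (congrArg Subtype.val hz).symm⟩
    apply le_antisymm hle
    intro a ha
    obtain ⟨F, hF, G, hG, hG0, hGi, haFG⟩ := hfr.frac a a.2
    obtain ⟨F', rfl⟩ := hF
    obtain ⟨G', rfl⟩ := hG
    obtain ⟨zF, hzF⟩ := hconst F'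
    obtain ⟨zG, hzG⟩ := hconst G'
    rw [← c.rho_aeval] at hzF hzG
    have hFm := Y.aeval_y_mem (ptIdeal p) hIJ hi F'
    have hGm := Y.aeval_y_mem (ptIdeal p) hIJ hi G'
    -- `F' = a G'`, so `F'` lies in the maximal ideal, so its constant is zero
    have h5 : (⟨aeval (Y.y i) F', hFm⟩ : Y.locRing (ptIdeal p)) =
        a * ⟨aeval (Y.y i) G', hGm⟩ := by
      apply Subtype.ext
      change aeval (Y.y i) F' = (a : Y.L) * aeval (Y.y i) G'
      have h6 : (a : Y.L) = aeval (Y.y i) F' * (aeval (Y.y i) G')⁻¹ := haFG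
      have h7 : aeval (Y.y i) G' ≠ 0 := hG0
      rw [h6, inv_mul_cancel_right₀ h7]
    have h8 : (⟨aeval (Y.y i) F', hFm⟩ : Y.locRing (ptIdeal p)) ∈
        IsLocalRing.maximalIdeal (Y.locRing (ptIdeal p)) := by
      rw [h5]
      exact Ideal.mul_mem_right _ _ ha
    have h9 : (⟨aeval (Y.y i) F', hFm⟩ : Y.locRing (ptIdeal p)) - algebraMap ℂ _ zF ∈ P := by
      rw [← hrho, map_sub, sub_eq_zero, c.ρ.commutes]
      exact hzF
    have hzF0 : zF = 0 := by
      by_contra hne
      have h10 : algebraMap ℂ (Y.locRing (ptIdeal p)) zF ∈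
          IsLocalRing.maximalIdeal (Y.locRing (ptIdeal p)) := by
        have := Ideal.sub_mem _ h8 (hle h9)
        rwa [sub_sub_cancel] at this
      rw [IsLocalRing.mem_maximalIdeal] at h10
      exact h10 ((IsUnit.mk0 zF hne).map _)
    rw [hzF0, map_zero, sub_zero, h5] at h9
    rcases hP.mem_or_mem h9 with h10 | h10
    · exact h10
    · exfalso
      have h11 : IsUnit (⟨aeval (Y.y i) G', hGm⟩ : Y.locRing (ptIdeal p)) := by
        refine IsUnit.of_mul_eq_one ⟨(aeval (Y.y i) G')⁻¹, hGi⟩ ?_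
        apply Subtype.ext
        exact mul_inv_cancel₀ hG0
      exact hP.ne_top (P.eq_top_of_isUnit_mem h10 h11)
  · refine ⟨genVar c.gy c.i c.gy_self, ⟨c.le_gen, ?_⟩, ⟨hp.1, ?_⟩, ?_⟩
    · unfold Var.HasDim
      rw [trdeg_genVar, hk]
    · intro f hf
      rw [← MvPolynomial.sum_homogeneousComponent f, map_sum]
      refine Finset.sum_eq_zero ?_
      intro n _
      have h5 := genIdeal_hom c.gy f hf n
      rw [c.mem_iff (homogeneousComponent_isHomogeneous n f), hrho] at h5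
      rw [← mem_ptIdeal_iff p _ n (homogeneousComponent_isHomogeneous n f)]
      by_contra hc
      obtain ⟨h6, h7⟩ := Y.aeval_y_unit (ptIdeal p) hIJ hi
        (homogeneousComponent_isHomogeneous n f) hc
      have h8 := hle h5
      rw [IsLocalRing.mem_maximalIdeal] at h8
      apply h8
      refine IsUnit.of_mul_eq_one ⟨_, h7⟩ ?_
      apply Subtype.ext
      exact mul_inv_cancel₀ h6
    · intro z hz
      obtain ⟨F, G, n, hF, hG, hz1, hG0, hz2⟩ := c.frac hz
      refine ⟨⟨aeval (Y.y i) G, c.aeval_mem G⟩, ?_, ?_⟩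
      · rw [← hrho]
        exact hG0
      · have h5 : aeval (Y.y i) G ≠ 0 := by
          intro h0
          apply hG0
          have h6 : (⟨aeval (Y.y c.i) G, c.aeval_mem G⟩ : c.O) = 0 := Subtype.ext h0
          rw [h6, map_zero]
        change aeval (Y.y i) G * z ∈ Y.locRing (ptIdeal p)
        rw [hz2]
        have h6 : aeval (Y.y i) G * (aeval (Y.y c.i) F * (aeval (Y.y c.i) G)⁻¹) =
            aeval (Y.y i) F := by
          change aeval (Y.y i) G * (aeval (Y.y i) F * (aeval (Y.y i) G)⁻¹) = aeval (Y.y i) F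
          field_simp
        rw [h6]
        exact c.aeval_mem F

end pt

theorem br5 : ST_BR5 := by
  intro N Y hY hN p hp h hC
  by_contra hh
  obtain ⟨i, hi⟩ := exists_chart hp.1
  have hIJ := Y.le_ptIdeal p hp
  have hnoeth := Y.noeth_locRing (ptIdeal p) hIJ hi
  have hloc := Y.isLocalRing_locRing (ptIdeal p) hIJ
  have hint := hN p hp
  have hfr := Y.frac_locRing (ptIdeal p) hIJ hi
  obtain ⟨s, hs, hP⟩ := exists_den_prime (Y.locRing (ptIdeal p)) h hh
  set P := den (Y.locRing (ptIdeal p)) ((s : Y.L) * h) with hPdef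
  have hP0 : P ≠ ⊥ := by
    obtain ⟨a, b, hb, hab⟩ := IsFractionRing.div_surjective (A := Y.locRing (ptIdeal p)) h
    intro h0
    have hbP : b ∈ P := by
      rw [hPdef, mem_den]
      have hb0 : (b : Y.L) ≠ 0 := by
        intro h1
        have : b = 0 := Subtype.ext h1
        rw [this] at hb
        exact zero_notMem_nonZeroDivisors hb
      have h1 : (b : Y.L) * ((s : Y.L) * h) = (s : Y.L) * (a : Y.L) := by
        rw [← hab]
        change (b : Y.L) * ((s : Y.L) * ((a : Y.L) / (b : Y.L))) = _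
        field_simp
      rw [h1]
      exact (s * a).2
    rw [h0, Ideal.mem_bot] at hbP
    rw [hbP] at hb
    exact zero_notMem_nonZeroDivisors hb
  by_cases hPM : P = IsLocalRing.maximalIdeal (Y.locRing (ptIdeal p))
  · apply Y.not_principal p hY hp
    exact max_principal (Y.locRing (ptIdeal p)) _ hs hPM (by rw [← hPM]; exact hP0)
  · obtain ⟨C, hCY, hCp, hCr⟩ := Y.curve_of_prime p hY hp P hP0 hPM
    obtain ⟨r, hrP, hr⟩ := hCr h (hC C hCY hCp)
    apply hrP
    rw [hPdef, mem_den]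
    have h1 : (r : Y.L) * ((s : Y.L) * h) = (s : Y.L) * ((r : Y.L) * h) := by ring
    rw [h1]
    exact (Y.locRing (ptIdeal p)).mul_mem s.2 hr

end

end LCY
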