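import Pool.Agent.Helper27.LCY.BR3

open MvPolynomial

namespace LCY

noncomputable section

/-- A subring of the function field with a homomorphism to a domain: the data of a centre. -/
structure CenData {N : ℕ} (Y : Var N) (R' : Type) [CommRing R'] [Algebra ℂ R'] where
  /-- the index of the affine chart -/
  i : Fin (N + 1)
  hi : (X i : S N) ∉ Y.I
  /-- the ring -/
  O : Subalgebra ℂ Y.L
  hO : ∀ j, Y.y i j ∈ O
  /-- the specialisation -/
  ρ : O →ₐ[ℂ] R'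

namespace CenData

variable {N : ℕ} {Y : Var N} {R' : Type} [CommRing R'] [Algebra ℂ R'] (c : CenData Y R')

/-- The coordinates of the centre. -/
def gy (j : Fin (N + 1)) : R' := c.ρ ⟨Y.y c.i j, c.hO j⟩

theorem gy_self : c.gy c.i = 1 := by
  unfold gy
  have : (⟨Y.y c.i c.i, c.hO c.i⟩ : c.O) = 1 := Subtype.ext (Y.y_self c.hi)
  rw [this, map_one]

theorem aeval_mem (f : S N) : aeval (Y.y c.i) f ∈ c.O := by
  have h1 : aeval (fun j => (⟨Y.y c.i j, c.hO j⟩ : c.O)) f ∈ (⊤ : Subalgebra ℂ c.O) := trivial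
  have h2 := MvPolynomial.comp_aeval (R := ℂ) (fun j => (⟨Y.y c.i j, c.hO j⟩ : c.O)) c.O.val
  have h3 : c.O.val (aeval (fun j => (⟨Y.y c.i j, c.hO j⟩ : c.O)) f) = aeval (Y.y c.i) f := by
    rw [← AlgHom.comp_apply, h2]
    rfl
  rw [← h3]
  exact (aeval (fun j => (⟨Y.y c.i j, c.hO j⟩ : c.O)) f).2

theorem rho_aeval (f : S N) : c.ρ ⟨aeval (Y.y c.i) f, c.aeval_mem f⟩ = aeval c.gy f := by
  have h2 := MvPolynomial.comp_aeval (R := ℂ) (fun j => (⟨Y.y c.i j, c.hO j⟩ : c.O)) c.O.val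
  have h3 : c.O.val (aeval (fun j => (⟨Y.y c.i j, c.hO j⟩ : c.O)) f) = aeval (Y.y c.i) f := by
    rw [← AlgHom.comp_apply, h2]
    rfl
  have h4 : (⟨aeval (Y.y c.i) f, c.aeval_mem f⟩ : c.O) =
      aeval (fun j => (⟨Y.y c.i j, c.hO j⟩ : c.O)) f := Subtype.ext h3.symm
  have h5 := MvPolynomial.comp_aeval (R := ℂ) (fun j => (⟨Y.y c.i j, c.hO j⟩ : c.O)) c.ρ
  rw [h4, ← AlgHom.comp_apply, h5]
  rfl

theorem mem_iff {f : S N} {n : ℕ} (hf : f.IsHomogeneous n) :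
    f ∈ genIdeal c.gy ↔ c.ρ ⟨aeval (Y.y c.i) f, c.aeval_mem f⟩ = 0 := by
  rw [mem_genIdeal_iff c.gy hf, c.rho_aeval]

theorem le_gen : Y.I ≤ genIdeal c.gy := by
  intro f hf
  rw [← MvPolynomial.sum_homogeneousComponent f]
  refine Ideal.sum_mem _ ?_
  intro n _
  rw [c.mem_iff (homogeneousComponent_isHomogeneous n f)]
  have h1 : aeval (Y.y c.i) (homogeneousComponent n f) = 0 :=
    (Y.aeval_y_eq_zero c.hi (homogeneousComponent_isHomogeneous n f)).2 (Y.homogeneous f hf n)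
  have h2 : (⟨aeval (Y.y c.i) (homogeneousComponent n f), c.aeval_mem _⟩ : c.O) = 0 :=
    Subtype.ext h1
  rw [h2, map_zero]

theorem frac {z : Y.L} (hz : Y.IsFrac (genIdeal c.gy) (z : Y.K)) :
    ∃ (F G : S N) (n : ℕ), F.IsHomogeneous n ∧ G.IsHomogeneous n ∧
      (z : Y.K) = Y.cls F / Y.cls G ∧
      c.ρ ⟨aeval (Y.y c.i) G, c.aeval_mem G⟩ ≠ 0 ∧
      z = aeval (Y.y c.i) F * (aeval (Y.y c.i) G)⁻¹ := by
  obtain ⟨n, F, G, hF, hG, hGJ, hGI, hz⟩ := hz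
  refine ⟨F, G, n, hF, hG, hz, ?_, Y.eq_y c.hi hF hG hz⟩
  rw [Ne, ← c.mem_iff hG]
  exact hGJ

end CenData

end

end LCY
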