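import Pool.Agent.Helper27.LCY.Aff

open MvPolynomial

namespace LCY

noncomputable section

/-- A residually transcendental element gives transcendence degree at least one in the residue
field. -/
theorem one_le_trdeg_res {V : Type} [CommRing V] [IsDomain V] [Algebra ℂ V] (t : V)
    (ht : ∀ P : Polynomial ℂ, P ≠ 0 → IsUnit (Polynomial.aeval t P)) (Q : Ideal V) [Q.IsPrime] :
    1 ≤ Algebra.trdeg ℂ (V ⧸ Q) := by
  have h1 : Transcendental ℂ (Ideal.Quotient.mk Q t) := by
    rw [transcendental_iff]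
    intro P hP
    by_contra hne
    have h2 := ht P hne
    have h3 : Polynomial.aeval (Ideal.Quotient.mk Q t) P =
        Ideal.Quotient.mk Q (Polynomial.aeval t P) :=
      Polynomial.aeval_algHom_apply (Ideal.Quotient.mkₐ ℂ Q) t P
    rw [h3, Ideal.Quotient.eq_zero_iff_mem] at hP
    exact (Ideal.IsPrime.ne_top inferInstance) (Q.eq_top_of_isUnit_mem hP h2)
  have h2 : AlgebraicIndependent ℂ (fun _ : Unit => Ideal.Quotient.mk Q t) :=
    (algebraicIndependent_unique_type_iff).2 h1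
  have h3 := h2.cardinalMk_le_trdeg
  simpa using h3

theorem card_lt_two {c : Cardinal} (h : c < (2 : ℕ)) : ∃ k : ℕ, k ≤ 1 ∧ c = k := by
  obtain ⟨k, rfl⟩ := Cardinal.lt_aleph0.1 (h.trans (Cardinal.natCast_lt_aleph0 (n := 2)))
  exact ⟨k, by have := Nat.cast_lt.1 h; omega, rfl⟩

/-- One-dimensional normal noetherian local subrings of function fields of surfaces are discrete
valuation rings. -/
theorem dvr_of {L : Type} [Field L] [Algebra ℂ L] (h2 : Algebra.trdeg ℂ L = 2)
    (V : Subalgebra ℂ L) [IsFractionRing V L] [IsLocalRing V] [IsNoetherianRing V]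
    [IsIntegrallyClosed V] (t : V) (ht : ∀ P : Polynomial ℂ, P ≠ 0 → IsUnit (Polynomial.aeval t P))
    (hne : ∃ f : V, f ≠ 0 ∧ ¬ IsUnit f) : IsDiscreteValuationRing V := by
  have hV : Algebra.trdeg ℂ V = (2 : ℕ) := by rw [trdeg_eq_of_frac V, h2]; rfl
  obtain ⟨f, hf0, hfu⟩ := hne
  have hfield : ¬ IsField V := by
    intro h
    obtain ⟨g, hg⟩ := h.mul_inv_cancel hf0
    exact hfu (IsUnit.of_mul_eq_one g hg)
  have tf : IsDiscreteValuationRing V ↔
      IsIntegrallyClosed V ∧ ∃! P : Ideal V, P ≠ ⊥ ∧ P.IsPrime :=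
    (IsDiscreteValuationRing.TFAE V hfield).out 0 3
  refine tf.2 ⟨inferInstance, IsLocalRing.maximalIdeal V, ⟨?_, inferInstance⟩, ?_⟩
  · intro h
    have : f ∈ IsLocalRing.maximalIdeal V := (IsLocalRing.mem_maximalIdeal f).2 hfu
    rw [h] at this
    exact hf0 this
  · rintro Q ⟨hQ0, hQ⟩
    by_contra hQm
    have hle : Q ≤ IsLocalRing.maximalIdeal V := IsLocalRing.le_maximalIdeal hQ.ne_top
    obtain ⟨g, hgQ, hg0⟩ := Submodule.exists_mem_ne_zero_of_ne_bot hQ0
    have h3 : Algebra.trdeg ℂ (V ⧸ Q) < (2 : ℕ) :=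
      trdeg_quot_lt hV (Ideal.Quotient.mkₐ ℂ Q) (Ideal.Quotient.mkₐ_surjective ℂ Q) hg0
        (Ideal.Quotient.eq_zero_iff_mem.2 hgQ)
    obtain ⟨k, hk1, hk⟩ := card_lt_two h3
    obtain ⟨e, heM, heQ⟩ := SetLike.exists_of_lt (lt_of_le_of_ne hle hQm)
    have h4 : Algebra.trdeg ℂ (V ⧸ IsLocalRing.maximalIdeal V) < k := by
      refine trdeg_quot_lt hk (Ideal.Quotient.factorₐ ℂ hle) (Ideal.Quotient.factor_surjective hle)
        (f := Ideal.Quotient.mk Q e) ?_ ?_
      · rw [Ne, Ideal.Quotient.eq_zero_iff_mem]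
        exact heQ
      · exact Ideal.Quotient.eq_zero_iff_mem.2 heM
    have h5 := one_le_trdeg_res t ht (IsLocalRing.maximalIdeal V)
    have h6 : (1 : Cardinal) < k := lt_of_le_of_lt h5 h4
    have h7 : (1 : ℕ) < k := by exact_mod_cast h6
    omega

end

end LCY
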