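import Pool.Agent.Helper11.LCY.Stmts
import Pool.Agent.Helper82.LCY.Plane
import Pool.Agent.Helper62.LCY.B1

/-!
Projective changes of coordinates: homogeneous substitution.
-/

open Polynomial

namespace LCY

namespace H27

noncomputable section

open H62

variable {L : Type} [Field L] [Algebra ℂ L]

/-- The linear polynomial with coefficients `a` in `1, x, y`. -/
def lpol (a : Fin 3 → ℂ) : ℂ[X][X] := C (C (a 0)) + C (C (a 1)) * C X + C (C (a 2)) * X

theorem ev_lpol (S : Coord L) (a : Fin 3 → ℂ) : ev S.x S.y (lpol a) = lin S a := by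
  unfold lpol lin
  rw [map_add, map_add, map_mul, map_mul, ev_CC, ev_CC, ev_CC, ev_CX, ev_X]

theorem ev_lpol' (x y : L) (a : Fin 3 → ℂ) : ev x y (lpol a) =
    algebraMap ℂ L (a 0) + algebraMap ℂ L (a 1) * x + algebraMap ℂ L (a 2) * y := by
  unfold lpol
  rw [map_add, map_add, map_mul, map_mul, ev_CC, ev_CC, ev_CC, ev_CX, ev_X]

theorem cf_lpol00 (a : Fin 3 → ℂ) : cf (lpol a) (0, 0) = a 0 := by
  simp [lpol, cf]

theorem cf_lpol10 (a : Fin 3 → ℂ) : cf (lpol a) (1, 0) = a 1 := by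
  simp [lpol, cf, coeff_C]

theorem cf_lpol01 (a : Fin 3 → ℂ) : cf (lpol a) (0, 1) = a 2 := by
  simp [lpol, cf, coeff_C]

theorem cf_lpol_of (a : Fin 3 → ℂ) {e : ℕ × ℕ} (he : 2 ≤ e.1 + e.2) : cf (lpol a) e = 0 := by
  obtain ⟨i, j⟩ := e
  dsimp only at he
  simp only [lpol, cf, coeff_add, coeff_C_mul, coeff_X, coeff_C, mul_ite, mul_one, mul_zero]
  rcases j with _ | _ | j
  · rcases i with _ | _ | i
    · omega
    · omega
    · simp [coeff_C, coeff_X]
  · rcases i with _ | i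
    · omega
    · simp [coeff_C, coeff_X]
  · simp

theorem lpol_ne {a : Fin 3 → ℂ} (ha : a ≠ 0) : lpol a ≠ 0 := by
  intro h
  apply ha
  funext i
  fin_cases i
  · have := cf_lpol00 a
    rw [h, cf_zero] at this
    exact this.symm
  · have := cf_lpol10 a
    rw [h, cf_zero] at this
    exact this.symm
  · have := cf_lpol01 a
    rw [h, cf_zero] at this
    exact this.symm

/-- Total degree at most `n`. -/
def TD (n : ℕ) (f : ℂ[X][X]) : Prop := ∀ e, cf f e ≠ 0 → e.1 + e.2 ≤ n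

theorem td_tdeg (f : ℂ[X][X]) : TD (tdeg f) f := fun _ he => le_tdeg he

theorem TD.mono {m n : ℕ} {f : ℂ[X][X]} (h : TD m f) (hmn : m ≤ n) : TD n f :=
  fun e he => (h e he).trans hmn

theorem tdeg_le {n : ℕ} {f : ℂ[X][X]} (h : TD n f) : tdeg f ≤ n :=
  Finset.sup_le fun e he => h e (mem_bs.1 he)

theorem td_add {n : ℕ} {f g : ℂ[X][X]} (hf : TD n f) (hg : TD n g) : TD n (f + g) := by
  intro e he
  by_cases h : cf f e = 0
  · refine hg e fun h' => he ?_
    rw [cf_add, h, h', add_zero]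
  · exact hf e h

theorem td_sum {ι : Type} {n : ℕ} (s : Finset ι) (f : ι → ℂ[X][X]) (h : ∀ i ∈ s, TD n (f i)) :
    TD n (∑ i ∈ s, f i) := by
  classical
  induction s using Finset.induction_on with
  | empty =>
    intro e he
    rw [Finset.sum_empty, cf_zero] at he
    exact absurd rfl he
  | insert a s ha ih =>
    rw [Finset.sum_insert ha]
    exact td_add (h a (Finset.mem_insert_self a s))
      (ih fun i hi => h i (Finset.mem_insert_of_mem hi))

/-- The coefficients of a product. -/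
theorem cf_mul_ne {f g : ℂ[X][X]} {e : ℕ × ℕ} (h : cf (f * g) e ≠ 0) :
    ∃ a b, cf f a ≠ 0 ∧ cf g b ≠ 0 ∧ a.1 + b.1 = e.1 ∧ a.2 + b.2 = e.2 := by
  unfold cf at h
  rw [coeff_mul, finsetSum_coeff] at h
  obtain ⟨⟨j, j'⟩, hj, h1⟩ := Finset.exists_ne_zero_of_sum_ne_zero h
  rw [Finset.HasAntidiagonal.mem_antidiagonal] at hj
  rw [coeff_mul] at h1
  obtain ⟨⟨i, i'⟩, hi, h2⟩ := Finset.exists_ne_zero_of_sum_ne_zero h1
  rw [Finset.HasAntidiagonal.mem_antidiagonal] at hi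
  exact ⟨(i, j), (i', j'), left_ne_zero_of_mul h2, right_ne_zero_of_mul h2, hi, hj⟩

theorem td_mul {m n : ℕ} {f g : ℂ[X][X]} (hf : TD m f) (hg : TD n g) : TD (m + n) (f * g) := by
  intro e he
  obtain ⟨a, b, ha, hb, h1, h2⟩ := cf_mul_ne he
  have := hf a ha
  have := hg b hb
  omega

theorem td_CC (c : ℂ) : TD 0 (C (C c)) := by
  rintro ⟨i, j⟩ he
  unfold cf at he
  rw [coeff_C] at he
  split_ifs at he with h
  · rw [coeff_C] at he
    split_ifs at he with h'
    · dsimp only at h h' ⊢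
      omega
    · exact absurd rfl he
  · exact absurd (coeff_zero _) he

theorem td_lpol (a : Fin 3 → ℂ) : TD 1 (lpol a) := by
  intro e he
  by_contra h
  exact he (cf_lpol_of a (by omega))

theorem td_one : TD 0 (1 : ℂ[X][X]) := td_CC 1

theorem td_pow {m : ℕ} {f : ℂ[X][X]} (hf : TD m f) (n : ℕ) : TD (n * m) (f ^ n) := by
  induction n with
  | zero =>
    rw [pow_zero, zero_mul]
    exact td_one
  | succ n ih =>
    rw [pow_succ, Nat.succ_mul]
    exact td_mul ih hf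

/-- Homogeneous substitution of a matrix in a polynomial considered as a form of degree `n`. -/
def HS (n : ℕ) (A : Matrix (Fin 3) (Fin 3) ℂ) (f : ℂ[X][X]) : ℂ[X][X] :=
  ∑ e ∈ bs f, C (C (cf f e)) * (lpol (A 1) ^ e.1 * lpol (A 2) ^ e.2 *
    lpol (A 0) ^ (n - (e.1 + e.2)))

theorem td_HS {n : ℕ} {A : Matrix (Fin 3) (Fin 3) ℂ} {f : ℂ[X][X]} (hf : TD n f) :
    TD n (HS n A f) := by
  refine td_sum _ _ fun e he => ?_
  have h1 := hf e (mem_bs.1 he)
  have h2 := td_mul (td_CC (cf f e)) (td_mul (td_mul (td_pow (td_lpol (A 1)) e.1)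
    (td_pow (td_lpol (A 2)) e.2)) (td_pow (td_lpol (A 0)) (n - (e.1 + e.2))))
  refine h2.mono ?_
  omega

theorem ev_HS {n : ℕ} {A : Matrix (Fin 3) (Fin 3) ℂ} {f : ℂ[X][X]} (hf : TD n f) {x y : L}
    (h0 : ev x y (lpol (A 0)) ≠ 0) :
    ev x y (HS n A f) = ev x y (lpol (A 0)) ^ n *
      ev (ev x y (lpol (A 1)) / ev x y (lpol (A 0))) (ev x y (lpol (A 2)) / ev x y (lpol (A 0)))
        f := by
  set l0 := ev x y (lpol (A 0)) with hl0
  set l1 := ev x y (lpol (A 1)) with hl1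
  set l2 := ev x y (lpol (A 2)) with hl2
  unfold HS
  rw [map_sum, ev_eq_sum (l1 / l0) (l2 / l0) f, Finset.mul_sum]
  refine Finset.sum_congr rfl fun e he => ?_
  have h1 := hf e (mem_bs.1 he)
  rw [map_mul, map_mul, map_mul, map_pow, map_pow, map_pow, ev_CC, ← hl0, ← hl1, ← hl2]
  have h2 : l0 ^ n = l0 ^ e.1 * l0 ^ e.2 * l0 ^ (n - (e.1 + e.2)) := by
    rw [← pow_add, ← pow_add]
    congr 1
    omega
  rw [h2, div_pow, div_pow]
  have h3 : l0 ^ e.1 ≠ 0 := pow_ne_zero _ h0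
  have h4 : l0 ^ e.2 ≠ 0 := pow_ne_zero _ h0
  field_simp

end

end H27

end LCY
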