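import Pool.Agent.Helper27.LCY.PGa

/-!
Projective changes of coordinates: existence and points of the plane.
-/

open Polynomial

namespace LCY

namespace H27

noncomputable section

open H62

variable {L : Type} [Field L] [Algebra ℂ L]

theorem row_ne {A : Matrix (Fin 3) (Fin 3) ℂ} (h : A.det ≠ 0) (i : Fin 3) : A i ≠ 0 := by
  intro h0
  apply h
  exact Matrix.det_eq_zero_of_row_eq_zero i (fun j => congrFun h0 j)

theorem lin_ne (S : Coord L) {a : Fin 3 → ℂ} (ha : a ≠ 0) : lin S a ≠ 0 := by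
  rw [← ev_lpol]
  exact S.ne (lpol_ne ha)

/-- `S'` is obtained from `S` by the matrix `A`. -/
def PR (S S' : Coord L) (A : Matrix (Fin 3) (Fin 3) ℂ) : Prop :=
  S'.x = lin S (A 1) / lin S (A 0) ∧ S'.y = lin S (A 2) / lin S (A 0)

theorem mulVec3 (B A : Matrix (Fin 3) (Fin 3) ℂ) (i j : Fin 3) :
    (B * A) i j = B i 0 * A 0 j + B i 1 * A 1 j + B i 2 * A 2 j := by
  rw [Matrix.mul_apply, Fin.sum_univ_three]

/-- Linear forms in the new coordinates. -/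
theorem lin_comp (S : Coord L) {A : Matrix (Fin 3) (Fin 3) ℂ} (hA : lin S (A 0) ≠ 0)
    (B : Matrix (Fin 3) (Fin 3) ℂ) (i : Fin 3) :
    ev (lin S (A 1) / lin S (A 0)) (lin S (A 2) / lin S (A 0)) (lpol (B i)) =
      lin S ((B * A) i) / lin S (A 0) := by
  rw [ev_lpol']
  have h1 : lin S ((B * A) i) = algebraMap ℂ L (B i 0) * lin S (A 0) +
      algebraMap ℂ L (B i 1) * lin S (A 1) + algebraMap ℂ L (B i 2) * lin S (A 2) := by
    unfold lin
    rw [mulVec3, mulVec3, mulVec3]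
    simp only [map_add, map_mul]
    ring
  rw [h1]
  field_simp

theorem lin_one (S : Coord L) : lin S ((1 : Matrix (Fin 3) (Fin 3) ℂ) 0) = 1 ∧
    lin S ((1 : Matrix (Fin 3) (Fin 3) ℂ) 1) = S.x ∧
    lin S ((1 : Matrix (Fin 3) (Fin 3) ℂ) 2) = S.y := by
  refine ⟨?_, ?_, ?_⟩ <;> simp [lin, Matrix.one_apply]

theorem HS_HS (S : Coord L) {A B : Matrix (Fin 3) (Fin 3) ℂ} (hAB : A * B = 1) {n : ℕ}
    {f : ℂ[X][X]} (hf : TD n f) : HS n B (HS n A f) = f := by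
  have hB0 : B 0 ≠ 0 := by
    apply row_ne
    intro h
    have := congrArg Matrix.det hAB
    rw [Matrix.det_mul, h, mul_zero, Matrix.det_one] at this
    exact zero_ne_one this
  have hm0 : lin S (B 0) ≠ 0 := lin_ne S hB0
  have h1 : ev S.x S.y (HS n B (HS n A f)) = ev S.x S.y f := by
    rw [ev_HS (td_HS hf) (by rw [ev_lpol]; exact hm0), ev_lpol, ev_lpol, ev_lpol]
    obtain ⟨o0, o1, o2⟩ := lin_one S
    have e0 := lin_comp S hm0 A 0
    have e1 := lin_comp S hm0 A 1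
    have e2 := lin_comp S hm0 A 2
    rw [hAB] at e0 e1 e2
    rw [o0] at e0
    rw [o1] at e1
    rw [o2] at e2
    rw [ev_HS hf (by rw [e0]; exact one_div_ne_zero hm0), e0, e1, e2]
    rw [one_div, inv_pow, ← mul_assoc, mul_inv_cancel₀ (pow_ne_zero _ hm0), one_mul]
    congr 2
    · field_simp
    · field_simp
  have h2 := S.inj (HS n B (HS n A f) - f) (by rw [map_sub, h1, sub_self])
  exact sub_eq_zero.1 h2

theorem HS_zero (n : ℕ) (A : Matrix (Fin 3) (Fin 3) ℂ) : HS n A 0 = 0 := by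
  unfold HS
  refine Finset.sum_eq_zero fun e he => ?_
  rw [mem_bs] at he
  exact absurd (cf_zero e) he

theorem HS_mul (S : Coord L) {A : Matrix (Fin 3) (Fin 3) ℂ} (hA : A 0 ≠ 0) {n m : ℕ}
    {f g : ℂ[X][X]} (hf : TD n f) (hg : TD m g) :
    HS (n + m) A (f * g) = HS n A f * HS m A g := by
  have h0 : ev S.x S.y (lpol (A 0)) ≠ 0 := by rw [ev_lpol]; exact lin_ne S hA
  have h2 := S.inj (HS (n + m) A (f * g) - HS n A f * HS m A g) (by
    rw [map_sub, map_mul, ev_HS (td_mul hf hg) h0, ev_HS hf h0, ev_HS hg h0, map_mul, pow_add]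
    ring)
  exact sub_eq_zero.1 h2

theorem HS_const (n : ℕ) (A : Matrix (Fin 3) (Fin 3) ℂ) (S : Coord L) (hA : A 0 ≠ 0) (c : ℂ) :
    HS n A (C (C c)) = C (C c) * lpol (A 0) ^ n := by
  have h0 : ev S.x S.y (lpol (A 0)) ≠ 0 := by rw [ev_lpol]; exact lin_ne S hA
  have h2 := S.inj (HS n A (C (C c)) - C (C c) * lpol (A 0) ^ n) (by
    rw [map_sub, map_mul, map_pow, ev_HS ((td_CC c).mono (Nat.zero_le n)) h0, ev_CC, ev_CC]
    ring)
  exact sub_eq_zero.1 h2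

theorem HS_one (n : ℕ) (A : Matrix (Fin 3) (Fin 3) ℂ) (S : Coord L) (hA : A 0 ≠ 0) :
    HS n A 1 = lpol (A 0) ^ n := by
  have := HS_const n A S hA 1
  rw [map_one, map_one, one_mul] at this
  exact this

theorem HS_drop (S : Coord L) {A : Matrix (Fin 3) (Fin 3) ℂ} (hA : A 0 ≠ 0) {n m : ℕ}
    {f : ℂ[X][X]} (hf : TD m f) (hmn : m ≤ n) :
    HS n A f = HS m A f * lpol (A 0) ^ (n - m) := by
  have h1 := HS_mul S hA hf (td_one.mono (Nat.zero_le (n - m)))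
  rw [mul_one, HS_one _ _ S hA] at h1
  rw [← h1]
  congr 1
  omega

theorem HS_pow (S : Coord L) {A : Matrix (Fin 3) (Fin 3) ℂ} (hA : A 0 ≠ 0) {m : ℕ}
    {f : ℂ[X][X]} (hf : TD m f) (n : ℕ) : HS (n * m) A (f ^ n) = HS m A f ^ n := by
  induction n with
  | zero => rw [pow_zero, pow_zero, zero_mul, HS_one _ _ S hA, pow_zero]
  | succ n ih => rw [pow_succ, Nat.succ_mul, HS_mul S hA (td_pow hf n) hf, ih, pow_succ]

theorem HS_ne (S : Coord L) {A B : Matrix (Fin 3) (Fin 3) ℂ} (hAB : A * B = 1) {n : ℕ}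
    {f : ℂ[X][X]} (hf : TD n f) (h0 : f ≠ 0) : HS n A f ≠ 0 := by
  intro h
  have := HS_HS S hAB hf
  rw [h, HS_zero] at this
  exact h0 this.symm

/-- Existence of the new coordinates. -/
theorem exists_PR (S : Coord L) {A : Matrix (Fin 3) (Fin 3) ℂ} (hdet : A.det ≠ 0) :
    ∃ S' : Coord L, PR S S' A := by
  have hu : IsUnit A.det := isUnit_iff_ne_zero.2 hdet
  have hAB : A * A⁻¹ = 1 := Matrix.mul_nonsing_inv A hu
  have hBA : A⁻¹ * A = 1 := Matrix.nonsing_inv_mul A hu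
  have hl0 : lin S (A 0) ≠ 0 := lin_ne S (row_ne hdet 0)
  have hl0' : ev S.x S.y (lpol (A 0)) ≠ 0 := by rw [ev_lpol]; exact hl0
  have e0 := lin_comp S hl0 A⁻¹ 0
  have e1 := lin_comp S hl0 A⁻¹ 1
  have e2 := lin_comp S hl0 A⁻¹ 2
  rw [hBA] at e0 e1 e2
  obtain ⟨o0, o1, o2⟩ := lin_one S
  rw [o0] at e0
  rw [o1] at e1
  rw [o2] at e2
  obtain ⟨S', h1, h2⟩ := S.mk' (lin S (A 1) / lin S (A 0)) (lin S (A 2) / lin S (A 0)) (by
    intro f hf
    refine ⟨HS (tdeg f) A f, ((lin S (A 0)) ^ tdeg f)⁻¹, HS_ne S hAB (td_tdeg f) hf,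
      inv_ne_zero (pow_ne_zero _ hl0), ?_⟩
    rw [ev_HS (td_tdeg f) hl0', ev_lpol, ev_lpol, ev_lpol, ← mul_assoc,
      inv_mul_cancel₀ (pow_ne_zero _ hl0), one_mul]) (by
    intro f
    have hB0 : A⁻¹ 0 ≠ 0 := by
      apply row_ne
      intro h
      have := congrArg Matrix.det hAB
      rw [Matrix.det_mul, h, mul_zero, Matrix.det_one] at this
      exact zero_ne_one this
    refine ⟨HS (tdeg f) A⁻¹ f, lpol (A⁻¹ 0) ^ tdeg f, pow_ne_zero _ (lpol_ne hB0), ?_⟩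
    rw [ev_HS (td_tdeg f) (by rw [e0]; exact one_div_ne_zero hl0), map_pow, e0, e1, e2,
      mul_div_cancel_left₀ _ (pow_ne_zero _ (one_div_ne_zero hl0))]
    congr 2
    · field_simp
    · field_simp)
  exact ⟨S', h1, h2⟩

theorem PR.ev {S S' : Coord L} {A : Matrix (Fin 3) (Fin 3) ℂ} (h : PR S S' A)
    (hA : A 0 ≠ 0) {n : ℕ} {f : ℂ[X][X]} (hf : TD n f) :
    ev S.x S.y (HS n A f) = lin S (A 0) ^ n * ev S'.x S'.y f := by
  rw [ev_HS hf (by rw [ev_lpol]; exact lin_ne S hA), ev_lpol, ev_lpol, ev_lpol, h.1, h.2]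

theorem PR.lin {S S' : Coord L} {A : Matrix (Fin 3) (Fin 3) ℂ} (h : PR S S' A)
    (hA : A 0 ≠ 0) (B : Matrix (Fin 3) (Fin 3) ℂ) (i : Fin 3) :
    LCY.lin S' (B i) = LCY.lin S ((B * A) i) / LCY.lin S (A 0) := by
  rw [← ev_lpol, h.1, h.2]
  exact lin_comp S (lin_ne S hA) B i

/-- The inverse change. -/
theorem PR.symm {S S' : Coord L} {A : Matrix (Fin 3) (Fin 3) ℂ} (h : PR S S' A)
    (hdet : A.det ≠ 0) : PR S' S A⁻¹ := by
  have hu : IsUnit A.det := isUnit_iff_ne_zero.2 hdet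
  have hBA : A⁻¹ * A = 1 := Matrix.nonsing_inv_mul A hu
  have hl0 : LCY.lin S (A 0) ≠ 0 := lin_ne S (row_ne hdet 0)
  have e0 := h.lin (row_ne hdet 0) A⁻¹ 0
  have e1 := h.lin (row_ne hdet 0) A⁻¹ 1
  have e2 := h.lin (row_ne hdet 0) A⁻¹ 2
  rw [hBA] at e0 e1 e2
  obtain ⟨o0, o1, o2⟩ := lin_one S
  rw [o0] at e0
  rw [o1] at e1
  rw [o2] at e2
  constructor
  · rw [e0, e1]; field_simp
  · rw [e0, e2]; field_simp

theorem PR.comp {S S' S'' : Coord L} {A B : Matrix (Fin 3) (Fin 3) ℂ} (h : PR S S' A)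
    (h' : PR S' S'' B) (hA : A 0 ≠ 0) : PR S S'' (B * A) := by
  have hl0 : LCY.lin S (A 0) ≠ 0 := lin_ne S hA
  constructor
  · rw [h'.1, h.lin hA, h.lin hA, div_div_div_cancel_right₀ hl0]
  · rw [h'.2, h.lin hA, h.lin hA, div_div_div_cancel_right₀ hl0]

theorem plane_le {S S' : Coord L} {A : Matrix (Fin 3) (Fin 3) ℂ} (h : PR S S' A)
    (hdet : A.det ≠ 0) : plane S' ⊆ plane S := by
  rintro R ⟨A', Q, hA', hR, hx, hy⟩
  have h2 := h.comp (S'' := Q) ⟨hx, hy⟩ (row_ne hdet 0)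
  exact ⟨A' * A, Q, by rw [Matrix.det_mul]; exact mul_ne_zero hA' hdet, hR, h2.1, h2.2⟩

theorem plane_eq {S S' : Coord L} {A : Matrix (Fin 3) (Fin 3) ℂ} (h : PR S S' A)
    (hdet : A.det ≠ 0) : plane S' = plane S := by
  refine le_antisymm (plane_le h hdet) (plane_le (h.symm hdet) ?_)
  have hu : IsUnit A.det := isUnit_iff_ne_zero.2 hdet
  intro h0
  have := congrArg Matrix.det (Matrix.mul_nonsing_inv A hu)
  rw [Matrix.det_mul, h0, mul_zero, Matrix.det_one] at this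
  exact zero_ne_one this

end

end H27

end LCY
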