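import Pool.Agent.Helper48.LCY.Pairs
import Pool.Agent.Helper27.LCY.Defs

/-!
Transport of the statement from `LCS` to `LCY`.
-/

open MvPolynomial

namespace LCS

noncomputable section

variable {N : ℕ}

/-- The same variety. -/
def Var.old (Y : Var N) : LCY.Var N := ⟨Y.I, Y.prime, Y.homogeneous, Y.relevant⟩

theorem Var.old_I (Y : Var N) : Y.old.I = Y.I := rfl

/-- The same variety, backwards. -/
def Var.new (Y : LCY.Var N) : Var N := ⟨Y.I, Y.prime, Y.homogeneous, Y.relevant⟩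

theorem Var.new_old (Y : LCY.Var N) : (Var.new Y).old = Y := rfl

theorem Var.old_new (Y : Var N) : Var.new Y.old = Y := rfl

theorem hasDim_old (Y : Var N) (d : ℕ) : Y.HasDim d ↔ Y.old.HasDim d := Iff.rfl

theorem isPt_old (Y : Var N) (p : Fin (N + 1) → ℂ) : Y.IsPt p ↔ Y.old.IsPt p := Iff.rfl

theorem ptIdeal_old (p : Fin (N + 1) → ℂ) : ptIdeal p = LCY.ptIdeal p := rfl

theorem isFrac_old (Y : Var N) (J : Ideal (S N)) (z : Y.K) :
    Y.IsFrac J z ↔ Y.old.IsFrac J z := Iff.rfl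

theorem normal_old (Y : Var N) : Y.Normal ↔ Y.old.Normal := Iff.rfl

theorem regular_old (Y : Var N) (p : Fin (N + 1) → ℂ) : Y.Regular p ↔ Y.old.Regular p := Iff.rfl

theorem isADE_old {f : PS} (h : IsADE f) : LCY.IsADE f := by
  cases h with
  | A n hn => exact LCY.IsADE.A n hn
  | D n hn => exact LCY.IsADE.D n hn
  | E6 => exact LCY.IsADE.E6
  | E7 => exact LCY.IsADE.E7
  | E8 => exact LCY.IsADE.E8

theorem duVal_old (Y : Var N) (p : Fin (N + 1) → ℂ) (h : Y.DuVal p) : Y.old.DuVal p := by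
  obtain ⟨f, hf, e⟩ := h
  exact ⟨f, isADE_old hf, e⟩

theorem isCurveOn_old (Y C : Var N) : Y.IsCurveOn C ↔ Y.old.IsCurveOn C.old := Iff.rfl

theorem old_injective : Function.Injective (Var.old : Var N → LCY.Var N) := by
  intro Y Z h
  have h1 := congrArg Var.new h
  exact h1

theorem old_mem {D : Set (Var N)} {C : Var N} : C.old ∈ Var.old '' D ↔ C ∈ D :=
  old_injective.mem_set_image

theorem snc_old {Y : Var N} {D : Set (Var N)} (h : SNC Y D) : LCY.SNC Y.old (Var.old '' D) where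
  finite := h.finite.image _
  curve := by
    rintro _ ⟨C, hC, rfl⟩
    exact h.curve C hC
  smooth := by
    rintro _ ⟨C, hC, rfl⟩ p hp
    exact h.smooth C hC p hp
  transversal := by
    rintro _ ⟨C, hC, rfl⟩ _ ⟨C', hC', rfl⟩ hne p hp hp' f hf
    exact h.transversal C hC C' hC' (fun h0 => hne (by rw [h0])) p hp hp' f hf
  noTriple := by
    rintro _ ⟨C, hC, rfl⟩ _ ⟨C', hC', rfl⟩ _ ⟨C'', hC'', rfl⟩ h1 h2 h3 p hp
    exact h.noTriple C hC C' hC' C'' hC'' (fun h0 => h1 (by rw [h0]))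
      (fun h0 => h2 (by rw [h0])) (fun h0 => h3 (by rw [h0])) p hp

theorem isU_old (Y : Var N) (D : Set (Var N)) (p : Fin (N + 1) → ℂ) :
    IsU Y D p ↔ LCY.IsU Y.old (Var.old '' D) p := by
  constructor
  · rintro ⟨h1, h2, h3⟩
    refine ⟨h1, h2, ?_⟩
    rintro _ ⟨C, hC, rfl⟩
    exact h3 C hC
  · rintro ⟨h1, h2, h3⟩
    exact ⟨h1, h2, fun C hC => h3 C.old ⟨C, hC, rfl⟩⟩

theorem val_old (φ : Fin (N + 1) → LaurentPolynomial ℂ) (t : ℂˣ) : val φ t = LCY.val φ t := rfl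

theorem valT_old {n : ℕ} (F : Fin (N + 1) → LaurentPolynomial (MvPolynomial (Fin n) ℂ))
    (s : Fin n → ℂ) (t : ℂˣ) : valT F s t = LCY.valT F s t := rfl

theorem isGmMap_old (Y : Var N) (D : Set (Var N)) (φ : Fin (N + 1) → LaurentPolynomial ℂ) :
    IsGmMap Y D φ ↔ LCY.IsGmMap Y.old (Var.old '' D) φ := by
  constructor
  · rintro ⟨h1, h2⟩
    exact ⟨fun t => (isU_old Y D _).1 (h1 t), h2⟩
  · rintro ⟨h1, h2⟩
    exact ⟨fun t => (isU_old Y D _).2 (h1 t), h2⟩

theorem dominated_old {Y : Var N} {D : Set (Var N)} (h : LCY.Dominated Y.old (Var.old '' D)) :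
    Dominated Y D := by
  obtain ⟨H, h1, h2, h3⟩ := h
  refine ⟨H, h1, h2, ?_⟩
  intro p hp hH
  obtain ⟨φ, hφ, t, c, hc, ht⟩ := h3 p ((isU_old Y D p).1 hp) hH
  exact ⟨φ, (isGmMap_old Y D φ).2 hφ, t, c, hc, ht⟩

theorem dominatedT_old {Y : Var N} {D : Set (Var N)}
    (h : LCY.DominatedT Y.old (Var.old '' D)) : DominatedT Y D := by
  obtain ⟨n, T, F, hT, h1, h2⟩ := h
  refine ⟨n, T, F, hT, ?_, h2⟩
  intro s hs
  obtain ⟨h3, h4⟩ := h1 s hs
  exact ⟨fun t => (isU_old Y D _).2 (h3 t), h4⟩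

/-- Everything except `uniruled` and `canonical`. -/
theorem logCY_old {Y : Var N} {D : Set (Var N)} (h : LogCY Y D) (hu : Y.old.Uniruled)
    (hc : ∃ ω : Y.old.Forms, ω ≠ 0 ∧
      (∀ C : LCY.Var N, Y.old.IsCurveOn C → C ∉ Var.old '' D →
        (Y.old.regForms C : Set Y.old.Forms) = Y.old.mults C ω) ∧
      (∀ C ∈ Var.old '' D, (Y.old.regForms C : Set Y.old.Forms) = Y.old.maxMults C ω)) :
    LCY.LogCY Y.old (Var.old '' D) where
  surface := h.surface
  normal := h.normal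
  duVal := by
    intro p hp
    rcases h.duVal p hp with h1 | h1
    · exact Or.inl h1
    · exact Or.inr (duVal_old Y p h1)
  uniruled := hu
  snc := snc_old h.snc
  canonical := hc

end

end LCS
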