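import Pool.Agent.Helper27.LCY.Transp

/-!
Transport of the statement from `LCS` to `LCY`: ruledness and the canonical form.
-/

open MvPolynomial

namespace LCS

noncomputable section

variable {N : ℕ}

theorem adjoin_insert_top {L : Type} [Field L] [Algebra ℂ L] (E : IntermediateField ℂ L) (t : L)
    (h : IntermediateField.adjoin ℂ (insert t (E : Set L)) = ⊤) :
    IntermediateField.adjoin E {t} = ⊤ := by
  rw [eq_top_iff]
  intro x _
  have h1 : x ∈ IntermediateField.adjoin ℂ (insert t (E : Set L)) := by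
    rw [h]
    exact IntermediateField.mem_top
  have h2 : IntermediateField.adjoin ℂ (insert t (E : Set L)) ≤
      (IntermediateField.adjoin E {t}).restrictScalars ℂ := by
    rw [IntermediateField.adjoin_le_iff]
    rintro y (rfl | hy)
    · exact (IntermediateField.mem_restrictScalars (K := ℂ)).2
        (IntermediateField.mem_adjoin_simple_self E _)
    · exact (IntermediateField.mem_restrictScalars (K := ℂ)).2
        (IntermediateField.algebraMap_mem _ (⟨y, hy⟩ : E))
  exact (IntermediateField.mem_restrictScalars (K := ℂ)).1 (h2 h1)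

theorem uniruled_old {Y : Var N} (h : Y.Uniruled) : Y.old.Uniruled := by
  obtain ⟨E, t, hE, ht⟩ := h
  exact ⟨E, t, hE, adjoin_insert_top E t ht⟩

/-- The old 2-forms are elements of the exterior algebra. -/
def Var.psi (Y : Var N) : Y.old.Forms →+ Y.Forms :=
  (⋀[Y.old.L]^2 (Ω[Y.old.L⁄ℂ])).subtype.toAddMonoidHom

theorem psi_injective (Y : Var N) : Function.Injective Y.psi := Subtype.val_injective

theorem psi_smul (Y : Var N) (c : Y.L) (m : Y.old.Forms) :
    Y.psi ((show Y.old.L from c) • m) = c • Y.psi m := rfl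

theorem psi_form (Y : Var N) (c a b : Y.L) : Y.psi (Y.old.form c a b) = c • Y.wedge a b := by
  have h1 : Y.old.form c a b = (show Y.old.L from c) • Y.old.form 1 a b := by
    unfold LCY.Var.form
    rw [one_smul]
  rw [h1, psi_smul]
  congr 1
  have h2 : Y.old.form 1 a b = exteriorPower.ιMulti Y.old.L 2
      ![KaehlerDifferential.D ℂ Y.old.L a, KaehlerDifferential.D ℂ Y.old.L b] := by
    unfold LCY.Var.form
    rw [one_smul]
  rw [h2]
  have h3 : Y.psi (exteriorPower.ιMulti Y.old.L 2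
      ![KaehlerDifferential.D ℂ Y.old.L a, KaehlerDifferential.D ℂ Y.old.L b]) =
      ExteriorAlgebra.ιMulti Y.old.L 2
      ![KaehlerDifferential.D ℂ Y.old.L a, KaehlerDifferential.D ℂ Y.old.L b] := rfl
  rw [h3, ExteriorAlgebra.ιMulti_apply]
  simp only [List.ofFn_succ, List.ofFn_zero, List.prod_cons, List.prod_nil, mul_one,
    Matrix.cons_val_zero, Matrix.cons_val_succ, Fin.succ_zero_eq_one, Matrix.cons_val_one]
  rfl

theorem exists_psi (Y : Var N) {ω : Y.Forms} (h : ω ∈ Y.twoForms) : ∃ m, Y.psi m = ω := by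
  unfold Var.twoForms at h
  induction h using Submodule.span_induction with
  | mem x hx =>
    obtain ⟨a, b, rfl⟩ := hx
    refine ⟨Y.old.form 1 a b, ?_⟩
    have h1 := psi_form Y 1 a b
    rw [one_smul] at h1
    exact h1
  | zero => exact ⟨0, map_zero _⟩
  | add x y _ _ hx hy =>
    obtain ⟨m, rfl⟩ := hx
    obtain ⟨n, rfl⟩ := hy
    exact ⟨m + n, map_add _ _ _⟩
  | smul c x _ hx =>
    obtain ⟨m, rfl⟩ := hx
    exact ⟨(show Y.old.L from c) • m, psi_smul Y c m⟩

theorem psi_regForms (Y C : Var N) :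
    Y.psi '' (Y.old.regForms C.old : Set Y.old.Forms) = (Y.regForms C : Set Y.Forms) := by
  have h1 : (Y.old.regForms C.old).map Y.psi = Y.regForms C := by
    unfold LCY.Var.regForms Var.regForms
    rw [AddMonoidHom.map_closure]
    congr 1
    ext m
    constructor
    · rintro ⟨_, ⟨a, ha, b, hb, c, hc, rfl⟩, rfl⟩
      exact ⟨a, ha, b, hb, c, hc, psi_form Y c a b⟩
    · rintro ⟨a, ha, b, hb, c, hc, rfl⟩
      exact ⟨_, ⟨a, ha, b, hb, c, hc, rfl⟩, psi_form Y c a b⟩
  rw [← h1]
  rfl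

theorem psi_mults (Y C : Var N) (m : Y.old.Forms) :
    Y.psi '' (Y.old.mults C.old m) = Y.mults C (Y.psi m) := by
  ext n
  constructor
  · rintro ⟨_, ⟨c, hc, rfl⟩, rfl⟩
    exact ⟨c, hc, psi_smul Y c m⟩
  · rintro ⟨c, hc, rfl⟩
    exact ⟨_, ⟨c, hc, rfl⟩, psi_smul Y c m⟩

theorem psi_maxMults (Y C : Var N) (m : Y.old.Forms) :
    Y.psi '' (Y.old.maxMults C.old m) = Y.maxMults C (Y.psi m) := by
  ext n
  constructor
  · rintro ⟨_, ⟨c, hc, rfl⟩, rfl⟩
    exact ⟨c, hc, psi_smul Y (Y.toL C.I c) m⟩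
  · rintro ⟨c, hc, rfl⟩
    exact ⟨_, ⟨c, hc, rfl⟩, psi_smul Y (Y.toL C.I c) m⟩

/-- The old pair. -/
theorem logCY_old' {Y : Var N} {D : Set (Var N)} (h : LogCY Y D) :
    LCY.LogCY Y.old (Var.old '' D) := by
  refine logCY_old h (uniruled_old h.uniruled) ?_
  obtain ⟨ω, hω, h0, h1, h2⟩ := h.canonical
  obtain ⟨m, rfl⟩ := exists_psi Y hω
  refine ⟨m, ?_, ?_, ?_⟩
  · rintro rfl
    exact h0 (map_zero _)
  · intro C hC hCD
    apply (psi_injective Y).image_injective
    have h3 := h1 (Var.new C) hC (fun hm => hCD ⟨Var.new C, hm, rfl⟩)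
    rw [← psi_regForms, ← psi_mults] at h3
    exact h3
  · rintro _ ⟨C, hC, rfl⟩
    apply (psi_injective Y).image_injective
    have h3 := h2 C hC
    rw [← psi_regForms, ← psi_maxMults] at h3
    exact h3

end

end LCS
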