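import Pool.Agent.Helper27.LCY.BR5
import Pool.Agent.Helper27.LCY.BR6
import Pool.Agent.Helper26.LC.FinE
import Pool.Agent.Helper26.LC.RegH
import Pool.Agent.Helper48.LCY.Brg
import Pool.Agent.Helper96.LCY.FIN2

/-!
Wiring for MP_f7e214_ag: from the main theorem of the abstract layer to the question.
-/

namespace LCY

noncomputable section

/-- The family of the abstract layer is a family in the sense of `GmFamily`. -/
theorem gmFamily_of_fam {N : ℕ} {Y : Var N} {D : Set (Var N)} (h : LogCY Y D) {ω : Y.Forms}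
    (hd : ∀ C ∈ D, (Y.regForms C : Set Y.Forms) = Y.maxMults C ω) {B : Bracket Y.L}
    (hB : ∀ a b, Y.form 1 a b = B.br a b • ω) (hF : Fam B Y.x) :
    ∃ (K : Type) (_ : Field K) (_ : Algebra ℂ K) (i : Y.L →ₐ[ℂ] RatFunc K),
      GmFamily Y D K i := by
  obtain ⟨K, _, _, i, hnc, hcen⟩ := hF
  refine ⟨K, inferInstance, inferInstance, i, ?_, ?_⟩
  · obtain ⟨z, hz⟩ := hnc
    refine ⟨z, fun c hc => hz c ?_⟩
    rw [hc, RatFunc.algebraMap_C]
  · intro P hP hPX
    rcases hcen P hP hPX with h1 | ⟨v, hnv, hwt, hv⟩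
    · exact Or.inl h1
    · right
      rcases br4 N Y h.surface h.normal v with ⟨-, C, hC, hCv⟩ | ⟨hcv, -⟩
      · refine ⟨C, hC, ?_, fun z => (hCv z).symm.trans (hv z)⟩
        intro hCD
        have h6 := (br6 N Y h.surface h.normal ω B hB C hC v hCv).2 (hd C hCD)
        have hu := (H73.wt_all (br1 _ Y h.surface).1 (H73.fg_of_hasDim Y h.surface) B v hwt).2.2.2
        have := hu _ h6
        omega
      · exact absurd hcv hnv

theorem dominatedT_of_fam {N : ℕ} {Y : Var N} {D : Set (Var N)} (h : LogCY Y D) {ω : Y.Forms}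
    (hd : ∀ C ∈ D, (Y.regForms C : Set Y.Forms) = Y.maxMults C ω) {B : Bracket Y.L}
    (hB : ∀ a b, Y.form 1 a b = B.br a b • ω) (hF : Fam B Y.x) : DominatedT Y D := by
  obtain ⟨K, _, _, i, hi⟩ := gmFamily_of_fam h hd hB hF
  exact dominatedT_of_family h.surface h.snc.finite h.snc.curve
    (regOpen_of_bridge (br1 _ Y h.surface).1 (br3 N Y h.surface h.normal)) i hi

/-- From the main theorem of the abstract layer and log canonicity to the conclusion. -/
theorem wire (hM : ST_MAIN) (h7 : ST_BR7) (N : ℕ) (Y : Var N) (D : Set (Var N))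
    (h : LogCY Y D) : DominatedT Y D := by
  obtain ⟨ω, hω, hc, hd⟩ := h.canonical
  obtain ⟨B, hB⟩ := br2 N Y h.surface ω hω
  have hA := H48.adm_of_logCY br4 br6 h7 h hc hd hB
  obtain ⟨E, t, hE, ht⟩ := h.uniruled
  exact dominatedT_of_fam h hd hB (hM Y.L N B Y.x hA ⟨E, t, hE, ht⟩)

theorem wire' (hM : ST_MAIN) (h7 : ST_BR7) : Question := fun N Y D h =>
  H96.dominated_of_dominatedT (wire hM h7 N Y D h)

end

end LCY
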