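import Pool.Agent.Helper27.LCY.BR5

/-!
Non-vacuity check: the projective plane is normal and regular.
-/

open MvPolynomial

namespace LCY

noncomputable section

/-- A local ring of fractions of a regular ring is regular. -/
theorem IsFracOf.regular {L : Type} [Field L] [Algebra ℂ L] {A V : Subalgebra ℂ L}
    (h : IsFracOf A V) [hA : IsRegularRing A] [hV : IsLocalRing V] : IsRegularLocalRing V := by
  let _ : Algebra A V := (Subalgebra.inclusion h.le).toAlgebra
  have hloc := h.isLocalization
  set q : Ideal A := (IsLocalRing.maximalIdeal V).comap (algebraMap A V) with hq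
  have hqp : q.IsPrime := Ideal.comap_isPrime _ _
  have hd : denoms A V = q.primeCompl := by
    ext s
    constructor
    · intro hs hsq
      have h1 : IsUnit (algebraMap A V s) := by
        refine IsUnit.of_mul_eq_one ⟨(s : L)⁻¹, hs.2⟩ ?_
        apply Subtype.ext
        exact mul_inv_cancel₀ hs.1
      exact (IsLocalRing.mem_maximalIdeal _).1 hsq h1
    · intro hs
      have h1 : IsUnit (algebraMap A V s) := by
        by_contra hc
        exact hs ((IsLocalRing.mem_maximalIdeal _).2 hc)
      obtain ⟨u, hu⟩ := h1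
      have h2 : (s : L) * ((u⁻¹ : Vˣ) : V) = 1 := by
        have h3 : (algebraMap A V s) * ((u⁻¹ : Vˣ) : V) = 1 := by
          rw [← hu, Units.mul_inv]
        exact congrArg (Subtype.val : V → L) h3
      have h4 : (s : L) ≠ 0 := left_ne_zero_of_mul_eq_one h2
      refine ⟨h4, ?_⟩
      rw [inv_eq_of_mul_eq_one_right h2]
      exact ((u⁻¹ : Vˣ) : V).2
  rw [hd] at hloc
  have h5 : IsRegularLocalRing (Localization.AtPrime q) := inferInstance
  exact IsRegularLocalRing.of_ringEquiv
    (IsLocalization.algEquiv q.primeCompl (Localization.AtPrime q) V).toRingEquiv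

variable (Y : Var 2) (hY : Y.I = ⊥)

/-- The affine coordinates of the chart `x_i ≠ 0` of the plane. -/
def chartHom (i : Fin 3) : MvPolynomial (Fin 2) ℂ →ₐ[ℂ] Y.L :=
  aeval (fun k => Y.y i (i.succAbove k))

theorem X_notMem_bot (i : Fin 3) : (X i : S 2) ∉ (⊥ : Ideal (S 2)) := by
  intro h
  exact X_ne_zero i h

include hY in
theorem chartHom_injective (i : Fin 3) : Function.Injective (chartHom Y i) := by
  have hi : (X i : S 2) ∉ Y.I := by
    rw [hY]
    exact X_notMem_bot i
  rw [injective_iff_map_eq_zero]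
  intro f hf
  have h1 : aeval (Y.y i) (rename i.succAbove f) = 0 := by
    rw [aeval_rename]
    exact hf
  obtain ⟨g, n, hg, hgf⟩ := exists_hom i (rename i.succAbove f)
  have h2 : g ∈ Y.I := by
    rw [← Y.aeval_y_eq_zero hi hg, hgf _ (Y.y_self hi)]
    exact h1
  rw [hY, Ideal.mem_bot] at h2
  have h3 := hgf (i.insertNth (1 : MvPolynomial (Fin 2) ℂ) (fun k => X k)) (by simp)
  rw [h2, map_zero, aeval_rename] at h3
  have h4 : (i.insertNth (1 : MvPolynomial (Fin 2) ℂ) (fun k => X k)) ∘ i.succAbove =
      (X : Fin 2 → MvPolynomial (Fin 2) ℂ) := by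
    funext k
    simp
  rw [h4, aeval_X_left_apply] at h3
  exact h3.symm

include hY in
theorem chartHom_range (i : Fin 3) :
    (chartHom Y i).range = (aeval (Y.y i) : S 2 →ₐ[ℂ] Y.L).range := by
  have hi : (X i : S 2) ∉ Y.I := by
    rw [hY]
    exact X_notMem_bot i
  apply le_antisymm
  · rintro _ ⟨f, rfl⟩
    refine ⟨rename i.succAbove f, ?_⟩
    change aeval (Y.y i) (rename i.succAbove f) = _
    rw [aeval_rename]
    rfl
  · rintro _ ⟨f, rfl⟩
    change aeval (Y.y i) f ∈ _
    induction f using MvPolynomial.induction_on with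
    | C a =>
      rw [aeval_C]
      exact Subalgebra.algebraMap_mem _ a
    | add p q hp hq =>
      rw [map_add]
      exact Subalgebra.add_mem _ hp hq
    | mul_X p j hp =>
      rw [map_mul, aeval_X]
      refine Subalgebra.mul_mem _ hp ?_
      rcases Fin.eq_self_or_eq_succAbove i j with h | ⟨k, h⟩
      · rw [h, Y.y_self hi]
        exact Subalgebra.one_mem _
      · rw [h]
        exact ⟨X k, by simp [chartHom]⟩

/-- The coordinate ring of a chart is a polynomial ring. -/
def chartEquiv (i : Fin 3) :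
    MvPolynomial (Fin 2) ℂ ≃ₐ[ℂ] (aeval (Y.y i) : S 2 →ₐ[ℂ] Y.L).range :=
  (AlgEquiv.ofInjective (chartHom Y i) (chartHom_injective Y hY i)).trans
    (Subalgebra.equivOfEq _ _ (chartHom_range Y hY i))

include hY in
theorem plane_regular (p : Fin 3 → ℂ) (hp : p ≠ 0) : Y.Regular p := by
  obtain ⟨i, hi⟩ := exists_chart hp
  have hle : Y.I ≤ ptIdeal p := by
    rw [hY]
    exact bot_le
  have h1 : IsRegularRing ℂ := inferInstance
  have h2 : IsRegularRing (aeval (Y.y i) : S 2 →ₐ[ℂ] Y.L).range :=
    IsRegularRing.of_ringEquiv (chartEquiv Y hY i).toRingEquiv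
  have h3 := Y.isLocalRing_locRing (ptIdeal p) hle
  exact (Y.isFracOf_aff (ptIdeal p) hle hi).regular

include hY in
theorem plane_normal : Y.Normal := by
  intro p hp
  obtain ⟨i, hi⟩ := exists_chart hp.1
  have hle : Y.I ≤ ptIdeal p := by
    rw [hY]
    exact bot_le
  have h1 : UniqueFactorizationMonoid (aeval (Y.y i) : S 2 →ₐ[ℂ] Y.L).range :=
    MulEquiv.uniqueFactorizationMonoid (chartEquiv Y hY i).toRingEquiv.toMulEquiv inferInstance
  exact (Y.isFracOf_aff (ptIdeal p) hle hi).intClosed inferInstance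

end

end LCY
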