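import Pool.Agent.Helper27.LCY.WitB

/-!
Non-vacuity check: the three coordinate lines of the plane are a simple normal crossings divisor.
-/

open MvPolynomial

namespace LCY

noncomputable section

/-- Setting `x_i = 0`. -/
def killX (i : Fin 3) : S 2 →ₐ[ℂ] MvPolynomial (Fin 2) ℂ :=
  aeval (i.insertNth (0 : MvPolynomial (Fin 2) ℂ) (fun k => X k))

theorem killX_rename (i : Fin 3) (g : MvPolynomial (Fin 2) ℂ) :
    killX i (rename i.succAbove g) = g := by
  unfold killX
  rw [aeval_rename]
  have h4 : (i.insertNth (0 : MvPolynomial (Fin 2) ℂ) (fun k => X k)) ∘ i.succAbove =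
      (X : Fin 2 → MvPolynomial (Fin 2) ℂ) := by
    funext k
    simp
  rw [h4, aeval_X_left_apply]

theorem killX_self (i : Fin 3) : killX i (X i) = 0 := by
  simp [killX]

theorem killX_succAbove (i : Fin 3) (k : Fin 2) : killX i (X (i.succAbove k)) = X k := by
  simp [killX]

theorem sub_killX_mem (i : Fin 3) (f : S 2) :
    f - rename i.succAbove (killX i f) ∈ Ideal.span {(X i : S 2)} := by
  induction f using MvPolynomial.induction_on with
  | C a =>
    have h1 : killX i (C a) = C a := by simp [killX]
    rw [h1, rename_C, sub_self]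
    exact Ideal.zero_mem _
  | add p q hp hq =>
    rw [map_add, map_add]
    have h1 : p + q - (rename i.succAbove (killX i p) + rename i.succAbove (killX i q)) =
        (p - rename i.succAbove (killX i p)) + (q - rename i.succAbove (killX i q)) := by ring
    rw [h1]
    exact Ideal.add_mem _ hp hq
  | mul_X p j hp =>
    rcases Fin.eq_self_or_eq_succAbove i j with h | ⟨k, h⟩
    · rw [h, map_mul, killX_self, mul_zero, map_zero, sub_zero]
      exact Ideal.mul_mem_left _ _ (Ideal.mem_span_singleton_self _)
    · rw [h, map_mul, killX_succAbove, map_mul, rename_X, ← sub_mul]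
      exact Ideal.mul_mem_right _ _ hp

theorem ker_killX (i : Fin 3) : RingHom.ker (killX i) = Ideal.span {(X i : S 2)} := by
  apply le_antisymm
  · intro f hf
    have h1 := sub_killX_mem i f
    have h2 : killX i f = 0 := hf
    rw [h2, map_zero, sub_zero] at h1
    exact h1
  · rw [Ideal.span_le]
    rintro _ rfl
    exact killX_self i

/-- The coordinate line `x_i = 0`. -/
def coordLine (i : Fin 3) : Var 2 where
  I := Ideal.span {(X i : S 2)}
  prime := by
    rw [← ker_killX]
    exact RingHom.ker_isPrime _
  homogeneous := by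
    have h0 : (MvPolynomial.X '' {i} : Set (S 2)) = {X i} := Set.image_singleton
    intro f hf n
    rw [← h0, mem_ideal_span_X_image] at hf ⊢
    intro m hm
    refine hf m ?_
    rw [mem_support_iff, coeff_homogeneousComponent] at hm
    rw [mem_support_iff]
    intro h
    apply hm
    rw [h, ite_self]
  relevant := by
    refine ⟨i.succAbove 0, ?_⟩
    rw [← ker_killX]
    intro h
    have h1 : killX i (X (i.succAbove 0)) = 0 := h
    rw [killX_succAbove] at h1
    exact X_ne_zero _ h1

theorem coordLine_I (i : Fin 3) : (coordLine i).I = Ideal.span {(X i : S 2)} := rfl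

theorem coordLine_dim (i : Fin 3) : (coordLine i).HasDim 1 := by
  have h1 : Function.Surjective (killX i) := fun g => ⟨_, killX_rename i g⟩
  have h2 := (Ideal.quotientKerAlgEquivOfSurjective h1).trdeg_eq
  unfold Var.HasDim
  rw [coordLine_I, ← ker_killX]
  rw [h2, MvPolynomial.trdeg_of_isDomain]
  simp
  norm_num

theorem coordLine_pt {i : Fin 3} {p : Fin 3 → ℂ} (hp : (coordLine i).IsPt p) : p i = 0 := by
  have h1 := hp.2 (X i) (Ideal.mem_span_singleton_self _)
  rwa [eval_X] at h1

theorem third (i j : Fin 3) (h : i ≠ j) : ∃ k, k ≠ i ∧ k ≠ j ∧ ∀ l, l = i ∨ l = j ∨ l = k := by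
  revert i j
  decide

section smooth

variable (i j k : Fin 3) (hij : i ≠ j) (hki : k ≠ i) (hkj : k ≠ j)
  (hl : ∀ l, l = i ∨ l = j ∨ l = k)

include hij in
theorem line_X_notMem : (X j : S 2) ∉ (coordLine i).I := by
  rw [coordLine_I, ← ker_killX]
  intro h
  have h1 : killX i (X j) = 0 := h
  rcases Fin.eq_self_or_eq_succAbove i j with h | ⟨k, h⟩
  · exact hij h.symm
  · rw [h, killX_succAbove] at h1
    exact X_ne_zero _ h1

/-- The coordinate of the chart of the line. -/
def lineHom : Polynomial ℂ →ₐ[ℂ] (coordLine i).L := Polynomial.aeval ((coordLine i).y j k)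

include hij hki hkj in
theorem lineHom_injective : Function.Injective (lineHom i j k) := by
  have hj := line_X_notMem i j hij
  rw [injective_iff_map_eq_zero]
  intro u hu
  have h1 : aeval ((coordLine i).y j) (Polynomial.aeval (X k : S 2) u) = 0 := by
    rw [← Polynomial.aeval_algHom_apply, aeval_X]
    exact hu
  obtain ⟨g, n, hg, hgf⟩ := exists_hom j (Polynomial.aeval (X k : S 2) u)
  have h2 : g ∈ (coordLine i).I := by
    rw [← (coordLine i).aeval_y_eq_zero hj hg, hgf _ ((coordLine i).y_self hj)]
    exact h1
  let y : Fin 3 → Polynomial ℂ := fun l => if l = i then 0 else if l = j then 1 else Polynomial.X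
  have hyi : y i = 0 := if_pos rfl
  have hyj : y j = 1 := by
    change (if j = i then (0 : Polynomial ℂ) else if j = j then 1 else Polynomial.X) = 1
    rw [if_neg hij.symm, if_pos rfl]
  have hyk : y k = Polynomial.X := by
    change (if k = i then (0 : Polynomial ℂ) else if k = j then 1 else Polynomial.X) = _
    rw [if_neg hki, if_neg hkj]
  have h3 := hgf y hyj
  have h4 : aeval y g = 0 := by
    rw [coordLine_I, Ideal.mem_span_singleton] at h2
    obtain ⟨q, rfl⟩ := h2
    rw [map_mul, aeval_X, hyi, zero_mul]
  rw [h4, ← Polynomial.aeval_algHom_apply, aeval_X, hyk, Polynomial.aeval_X_left_apply] at h3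
  exact h3.symm

include hij hl in
theorem lineHom_range :
    (lineHom i j k).range = (aeval ((coordLine i).y j) : S 2 →ₐ[ℂ] (coordLine i).L).range := by
  have hj := line_X_notMem i j hij
  apply le_antisymm
  · rintro _ ⟨u, rfl⟩
    refine ⟨Polynomial.aeval (X k : S 2) u, ?_⟩
    change aeval ((coordLine i).y j) (Polynomial.aeval (X k : S 2) u) = _
    rw [← Polynomial.aeval_algHom_apply, aeval_X]
    rfl
  · rintro _ ⟨f, rfl⟩
    change aeval ((coordLine i).y j) f ∈ _
    induction f using MvPolynomial.induction_on with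
    | C a =>
      rw [aeval_C]
      exact Subalgebra.algebraMap_mem _ a
    | add p q hp hq =>
      rw [map_add]
      exact Subalgebra.add_mem _ hp hq
    | mul_X p l hp =>
      rw [map_mul, aeval_X]
      refine Subalgebra.mul_mem _ hp ?_
      rcases hl l with h | h | h
      · have h1 : (coordLine i).y j l = 0 := by
          apply Subtype.ext
          rw [(coordLine i).coe_y, h, (coordLine i).cls_eq_zero (Ideal.mem_span_singleton_self _),
            zero_div]
          rfl
        rw [h1]
        exact Subalgebra.zero_mem _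
      · rw [h, (coordLine i).y_self hj]
        exact Subalgebra.one_mem _
      · rw [h]
        exact ⟨Polynomial.X, by simp [lineHom]⟩

end smooth

theorem coordLine_regular (i : Fin 3) (p : Fin 3 → ℂ) (hp : (coordLine i).IsPt p) :
    (coordLine i).Regular p := by
  obtain ⟨j, hj⟩ := exists_chart hp.1
  have hij : i ≠ j := by
    rintro rfl
    rw [mem_ptIdeal_iff p _ 1 (isHomogeneous_X _ _), eval_X, coordLine_pt hp] at hj
    exact hj rfl
  obtain ⟨k, hki, hkj, hl⟩ := third i j hij
  have hle : (coordLine i).I ≤ ptIdeal p := (coordLine i).le_ptIdeal p hp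
  let e : Polynomial ℂ ≃ₐ[ℂ] (aeval ((coordLine i).y j) : S 2 →ₐ[ℂ] (coordLine i).L).range :=
    (AlgEquiv.ofInjective (lineHom i j k) (lineHom_injective i j k hij hki hkj)).trans
      (Subalgebra.equivOfEq _ _ (lineHom_range i j k hij hl))
  have h2 : IsRegularRing (aeval ((coordLine i).y j) : S 2 →ₐ[ℂ] (coordLine i).L).range :=
    IsRegularRing.of_ringEquiv e.toRingEquiv
  have h3 := (coordLine i).isLocalRing_locRing (ptIdeal p) hle
  exact ((coordLine i).isFracOf_aff (ptIdeal p) hle hj).regular

theorem sub_axis_mem (i j k : Fin 3)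
    (hl : ∀ l, l = i ∨ l = j ∨ l = k) (f : S 2) :
    f - Polynomial.aeval (X k : S 2)
      (aeval (fun l => if l = k then (Polynomial.X : Polynomial ℂ) else 0) f) ∈
      (coordLine i).I ⊔ (coordLine j).I := by
  have hX : ∀ l, l ≠ k → (X l : S 2) ∈ (coordLine i).I ⊔ (coordLine j).I := by
    intro l hlk
    rcases hl l with h | h | h
    · rw [h]
      exact Ideal.mem_sup_left (Ideal.mem_span_singleton_self _)
    · rw [h]
      exact Ideal.mem_sup_right (Ideal.mem_span_singleton_self _)
    · exact absurd h hlk
  induction f using MvPolynomial.induction_on with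
  | C a =>
    rw [aeval_C, Polynomial.algebraMap_eq, Polynomial.aeval_C]
    have h1 : (algebraMap ℂ (S 2)) a = C a := rfl
    rw [h1, sub_self]
    exact Ideal.zero_mem _
  | add p q hp hq =>
    rw [map_add, map_add]
    have h1 : ∀ a b c d : S 2, a + b - (c + d) = (a - c) + (b - d) := by
      intro a b c d
      ring
    rw [h1]
    exact Ideal.add_mem _ hp hq
  | mul_X p l hp =>
    rw [map_mul, map_mul, aeval_X]
    by_cases h : l = k
    · rw [if_pos h, Polynomial.aeval_X, h, ← sub_mul]
      exact Ideal.mul_mem_right _ _ hp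
    · rw [if_neg h, map_zero, mul_zero, sub_zero]
      exact Ideal.mul_mem_left _ _ (hX l h)

theorem coordLine_transversal (i j : Fin 3) (hij : i ≠ j) (p : Fin 3 → ℂ)
    (hpi : (coordLine i).IsPt p) (hpj : (coordLine j).IsPt p) :
    ptIdeal p ≤ (coordLine i).I ⊔ (coordLine j).I := by
  obtain ⟨k, hki, hkj, hl⟩ := third i j hij
  have hi0 := coordLine_pt hpi
  have hj0 := coordLine_pt hpj
  have hk0 : p k ≠ 0 := by
    intro h
    apply hpi.1
    funext l
    rcases hl l with h1 | h1 | h1
    · rw [h1, hi0]; rfl
    · rw [h1, hj0]; rfl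
    · rw [h1, h]; rfl
  intro f hf
  set u : Polynomial ℂ := aeval (fun l => if l = k then (Polynomial.X : Polynomial ℂ) else 0) f
    with hu
  have h1 : (aeval (fun l => Polynomial.C (p l) * Polynomial.X) : S 2 →ₐ[ℂ] Polynomial ℂ) f = 0 :=
    hf
  have h2 : Polynomial.aeval (Polynomial.C (p k) * Polynomial.X) u = 0 := by
    rw [← h1, hu]
    have h3 : (Polynomial.aeval (Polynomial.C (p k) * Polynomial.X) :
        Polynomial ℂ →ₐ[ℂ] Polynomial ℂ).comp
        (aeval (fun l => if l = k then (Polynomial.X : Polynomial ℂ) else 0)) =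
        aeval (fun l => Polynomial.C (p l) * Polynomial.X) := by
      apply MvPolynomial.algHom_ext
      intro l
      rw [AlgHom.comp_apply, aeval_X, aeval_X]
      rcases hl l with h | h | h
      · rw [if_neg (by rw [h]; exact hki.symm), map_zero, h, hi0, map_zero, zero_mul]
      · rw [if_neg (by rw [h]; exact hkj.symm), map_zero, h, hj0, map_zero, zero_mul]
      · rw [if_pos h, Polynomial.aeval_X, h]
    exact DFunLike.congr_fun h3 f
  have h4 : u = 0 := by
    have h5 := congrArg (Polynomial.aeval (Polynomial.C (p k)⁻¹ * Polynomial.X :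
      Polynomial ℂ)) h2
    rw [map_zero, ← Polynomial.aeval_algHom_apply, map_mul, Polynomial.aeval_X,
      Polynomial.aeval_C, Polynomial.algebraMap_eq, ← mul_assoc, ← map_mul,
      mul_inv_cancel₀ hk0, map_one, one_mul, Polynomial.aeval_X_left_apply] at h5
    exact h5
  have h6 := sub_axis_mem i j k hl f
  rw [← hu, h4, map_zero, sub_zero] at h6
  exact h6

/-- The three coordinate lines of the plane are a simple normal crossings divisor. -/
theorem coordLines_snc (Y : Var 2) (hY : Y.I = ⊥) : SNC Y (Set.range coordLine) where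
  finite := Set.finite_range _
  curve := by
    rintro _ ⟨i, rfl⟩
    refine ⟨?_, coordLine_dim i⟩
    rw [hY]
    exact bot_le
  smooth := by
    rintro _ ⟨i, rfl⟩ p hp
    exact coordLine_regular i p hp
  transversal := by
    rintro _ ⟨i, rfl⟩ _ ⟨j, rfl⟩ hne p hpi hpj f hf
    have hij : i ≠ j := by
      rintro rfl
      exact hne rfl
    refine ⟨1, ?_, ?_⟩
    · exact (Ideal.ne_top_iff_one _).1 (Ideal.IsPrime.ne_top inferInstance)
    · rw [one_mul]
      exact coordLine_transversal i j hij p hpi hpj hf
  noTriple := by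
    rintro _ ⟨i, rfl⟩ _ ⟨j, rfl⟩ _ ⟨k, rfl⟩ h1 h2 h3 p ⟨hi, hj, hk⟩
    have hij : i ≠ j := by
      rintro rfl
      exact h1 rfl
    have hik : i ≠ k := by
      rintro rfl
      exact h2 rfl
    have hjk : j ≠ k := by
      rintro rfl
      exact h3 rfl
    obtain ⟨k', hki, hkj, hl⟩ := third i j hij
    have hkk : k = k' := by
      rcases hl k with h | h | h
      · exact absurd h.symm hik
      · exact absurd h.symm hjk
      · exact h
    apply hi.1
    funext l
    rcases hl l with h | h | h
    · rw [h, coordLine_pt hi]; rfl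
    · rw [h, coordLine_pt hj]; rfl
    · rw [h, ← hkk, coordLine_pt hk]; rfl

end

end LCY
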